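import Pool.Agent.Lib_MP_22d2c8_pm.BlocksA

/-!
# BLOCKS: perfect matchings of the block inputs

PROOF. If `HasPM H x` with the permutation `σ`: all edges `(i, σ i)` have `x = true`, so by `h0` the
block numbers of `i` and `σ i` are equal; `exists_block_perm` gives `τ` for the block `b`, and
`z b (i, τ i) = x (emb hH b (i, τ i)) = true`. Conversely take permutations `τ b` of the blocks and
glue them (`exists_glued_perm`); for a vertex `u` of a complete block (`exists_vtx`) the edge
`(u, σ u)` is `emb hH b (i, τ b i)`, with value `z b (i, τ b i) = true` (`hz`); for a vertex of the last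
block use `h1`.
-/

namespace Pool.Agent.Lib_MP_22d2c8_pm

open Finset

/-- Let `x` be an input which is zero outside the diagonal blocks, one in the last block (of number
`N / m`, not complete) and `z b` in the complete block number `b`. It has a perfect matching if and
only if every complete block has one. -/
theorem hasPM_blocks {N m : ℕ} (hm : 1 ≤ m) {H : Fin N → Fin N → Prop}
    (hH : ∀ i j : Fin N, (i : ℕ) / m = (j : ℕ) / m → H i j)
    (z : Fin (N / m) → Ed m → Bool) (x : HostEdge H → Bool)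
    (h0 : ∀ e : HostEdge H, (e.1.1 : ℕ) / m ≠ (e.1.2 : ℕ) / m → x e = false)
    (h1 : ∀ e : HostEdge H, (e.1.1 : ℕ) / m = N / m → (e.1.2 : ℕ) / m = N / m → x e = true)
    (hz : ∀ b p, x (emb hH b p) = z b p) :
    HasPM H x ↔ ∀ b, ∃ σ : Equiv.Perm (Fin m), ∀ i, z b (i, σ i) = true := by
  constructor
  · rintro ⟨σ, hσ⟩ b
    have hblk : ∀ i : Fin N, ((σ i : Fin N) : ℕ) / m = (i : ℕ) / m := by
      intro i
      obtain ⟨h, hx⟩ := hσ i
      by_contra hne
      rw [h0 ⟨(i, σ i), h⟩ (fun h' => hne h'.symm)] at hx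
      exact Bool.false_ne_true hx
    obtain ⟨τ, hτ⟩ := exists_block_perm hm σ hblk b
    refine ⟨τ, fun i => ?_⟩
    obtain ⟨h, hx⟩ := hσ (vtx b i)
    have e : emb hH b (i, τ i) = ⟨(vtx b i, σ (vtx b i)), h⟩ := by
      apply Subtype.ext
      show (vtx b i, vtx b (τ i)) = (vtx b i, σ (vtx b i))
      rw [hτ i]
    rw [← hz b (i, τ i), e]
    exact hx
  · intro hb
    choose τ hτ using hb
    obtain ⟨σ, hσ1, hσ2⟩ := exists_glued_perm hm τ
    refine ⟨σ, fun u => ?_⟩
    rcases (div_le_last (m := m) u).lt_or_eq with hlt | heq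
    · obtain ⟨b, i, rfl⟩ : ∃ (b : Fin (N / m)) (i : Fin m), u = vtx b i :=
        ⟨⟨(u : ℕ) / m, hlt⟩, exists_vtx hm u ⟨(u : ℕ) / m, hlt⟩ rfl⟩
      rw [hσ1 b i]
      exact ⟨(emb hH b (i, τ b i)).2, (hz b (i, τ b i)).trans (hτ b i)⟩
    · rw [hσ2 u heq]
      exact ⟨hH u u rfl, h1 ⟨(u, u), hH u u rfl⟩ heq heq⟩

end Pool.Agent.Lib_MP_22d2c8_pm
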