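import Pool.Agent.Lib_MP_22d2c8_pm.Defs

/-!
# BLOCKS A: the places of the blocks
-/

namespace Pool.Agent.Lib_MP_22d2c8_pm

open Finset

theorem blk_lt {N m : ℕ} (b : Fin (N / m)) (i : Fin m) : (b : ℕ) * m + (i : ℕ) < N := by
  have h1 := b.2
  have h2 := i.2
  have h3 : ((b : ℕ) + 1) * m ≤ N := (Nat.mul_le_mul_right m h1).trans (Nat.div_mul_le_self N m)
  have h4 : ((b : ℕ) + 1) * m = (b : ℕ) * m + m := by ring
  omega

/-- The vertex number `i` of the block number `b`. -/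
def vtx {N m : ℕ} (b : Fin (N / m)) (i : Fin m) : Fin N := ⟨(b : ℕ) * m + (i : ℕ), blk_lt b i⟩

theorem vtx_div {N m : ℕ} (b : Fin (N / m)) (i : Fin m) : ((vtx b i : Fin N) : ℕ) / m = b := by
  have h2 := i.2
  have hm : 0 < m := by omega
  show ((b : ℕ) * m + (i : ℕ)) / m = b
  rw [Nat.mul_comm, Nat.mul_add_div hm, Nat.div_eq_of_lt h2, Nat.add_zero]

theorem vtx_inj {N m : ℕ} (b b' : Fin (N / m)) (i i' : Fin m)
    (h : (vtx b i : Fin N) = vtx b' i') : b = b' ∧ i = i' := by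
  have h0 : ((vtx b i : Fin N) : ℕ) / m = ((vtx b' i' : Fin N) : ℕ) / m := by rw [h]
  rw [vtx_div, vtx_div] at h0
  have h1 : b = b' := Fin.ext h0
  subst h1
  refine ⟨rfl, Fin.ext ?_⟩
  have h2 : (b : ℕ) * m + (i : ℕ) = (b : ℕ) * m + (i' : ℕ) := congrArg Fin.val h
  exact Nat.add_left_cancel h2

/-- A vertex whose block number is less than `N / m` is a vertex of this block. -/
theorem exists_vtx {N m : ℕ} (hm : 1 ≤ m) (u : Fin N) (b : Fin (N / m)) (h : (u : ℕ) / m = b) :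
    ∃ i : Fin m, u = vtx b i := by
  refine ⟨⟨(u : ℕ) % m, Nat.mod_lt _ hm⟩, Fin.ext ?_⟩
  show (u : ℕ) = (b : ℕ) * m + (u : ℕ) % m
  rw [← h]
  exact (Nat.div_add_mod' (u : ℕ) m).symm

/-- The block number is at most `N / m`. -/
theorem div_le_last {N m : ℕ} (u : Fin N) : (u : ℕ) / m ≤ N / m :=
  Nat.div_le_div_right u.2.le

/-- The edge `p` of the diagonal block number `b`. -/
def emb {N m : ℕ} {H : Fin N → Fin N → Prop}
    (hH : ∀ i j : Fin N, (i : ℕ) / m = (j : ℕ) / m → H i j)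
    (b : Fin (N / m)) (p : Ed m) : HostEdge H :=
  ⟨(vtx b p.1, vtx b p.2), hH _ _ (by rw [vtx_div, vtx_div])⟩

/-- Different edges have different places. -/
theorem emb_inj {N m : ℕ} {H : Fin N → Fin N → Prop}
    (hH : ∀ i j : Fin N, (i : ℕ) / m = (j : ℕ) / m → H i j)
    (b b' : Fin (N / m)) (p p' : Ed m) (h : emb hH b p = emb hH b' p') : b = b' ∧ p = p' := by
  have h1 : ((vtx b p.1, vtx b p.2) : Fin N × Fin N) = (vtx b' p'.1, vtx b' p'.2) :=
    congrArg Subtype.val h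
  obtain ⟨h2, h3⟩ := Prod.mk.inj h1
  obtain ⟨h4, h5⟩ := vtx_inj _ _ _ _ h2
  obtain ⟨-, h6⟩ := vtx_inj _ _ _ _ h3
  exact ⟨h4, Prod.ext h5 h6⟩

/-- A permutation of `Fin N` which preserves the block numbers induces a permutation of every
complete block. PROOF: for `i : Fin m` the vertex `σ (vtx b i)` has block number `b`, so it is
`vtx b (τ i)` (`exists_vtx`, choice); `τ` is injective (`σ` and `vtx b` are), so bijective
(`Finite.injective_iff_bijective`, `Equiv.ofBijective`). -/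
theorem exists_block_perm {N m : ℕ} (hm : 1 ≤ m) (σ : Equiv.Perm (Fin N))
    (hσ : ∀ i : Fin N, ((σ i : Fin N) : ℕ) / m = (i : ℕ) / m) (b : Fin (N / m)) :
    ∃ τ : Equiv.Perm (Fin m), ∀ i, σ (vtx b i) = vtx b (τ i) := by
  have h1 : ∀ i : Fin m, ∃ j : Fin m, σ (vtx b i) = vtx b j := fun i =>
    exists_vtx hm _ b (by rw [hσ, vtx_div])
  choose f hf using h1
  have hinj : Function.Injective f := by
    intro i j hij
    have h2 : σ (vtx b i) = σ (vtx b j) := by rw [hf, hf, hij]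
    exact (vtx_inj _ _ _ _ (σ.injective h2)).2
  exact ⟨Equiv.ofBijective f (Finite.injective_iff_bijective.1 hinj), hf⟩

/-- Permutations of the complete blocks give a permutation of `Fin N` which fixes the vertices of
the last block. PROOF: define `σ u = vtx b (τ b i)` if `u = vtx b i`, and `σ u = u` if the block number
of `u` is `N / m`; injective, so bijective. -/
theorem exists_glued_perm {N m : ℕ} (hm : 1 ≤ m) (τ : Fin (N / m) → Equiv.Perm (Fin m)) :
    ∃ σ : Equiv.Perm (Fin N), (∀ b i, σ (vtx b i) = vtx b (τ b i)) ∧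
      ∀ u : Fin N, (u : ℕ) / m = N / m → σ u = u := by
  have h1 : ∀ u : Fin N, ∃ v : Fin N, (∀ b i, u = vtx b i → v = vtx b (τ b i)) ∧
      ((u : ℕ) / m = N / m → v = u) := by
    intro u
    rcases (div_le_last (m := m) u).lt_or_eq with h | h
    · obtain ⟨i, hi⟩ := exists_vtx hm u ⟨(u : ℕ) / m, h⟩ rfl
      refine ⟨vtx ⟨(u : ℕ) / m, h⟩ (τ ⟨(u : ℕ) / m, h⟩ i), fun b j hbj => ?_,
        fun h2 => absurd h2 h.ne⟩
      rw [hi] at hbj
      obtain ⟨h3, h4⟩ := vtx_inj _ _ _ _ hbj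
      rw [← h3, ← h4]
    · refine ⟨u, fun b i hbi => ?_, fun _ => rfl⟩
      exfalso
      rw [hbi, vtx_div] at h
      exact b.2.ne h
  choose f hf1 hf2 using h1
  have hinj : Function.Injective f := by
    intro u v huv
    rcases (div_le_last (m := m) u).lt_or_eq with h | h <;>
      rcases (div_le_last (m := m) v).lt_or_eq with h' | h'
    · obtain ⟨i, hi⟩ := exists_vtx hm u ⟨(u : ℕ) / m, h⟩ rfl
      obtain ⟨j, hj⟩ := exists_vtx hm v ⟨(v : ℕ) / m, h'⟩ rfl
      rw [hf1 u _ _ hi, hf1 v _ _ hj] at huv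
      obtain ⟨h3, h4⟩ := vtx_inj _ _ _ _ huv
      rw [← h3] at h4 hj
      rw [(τ _).injective h4] at hi
      rw [hi, hj]
    · obtain ⟨i, hi⟩ := exists_vtx hm u ⟨(u : ℕ) / m, h⟩ rfl
      rw [hf1 u _ _ hi, hf2 v h'] at huv
      rw [← huv, vtx_div] at h'
      exact absurd h' h.ne
    · obtain ⟨j, hj⟩ := exists_vtx hm v ⟨(v : ℕ) / m, h'⟩ rfl
      rw [hf2 u h, hf1 v _ _ hj] at huv
      rw [huv, vtx_div] at h
      exact absurd h h'.ne
    · rw [hf2 u h, hf2 v h'] at huv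
      exact huv
  exact ⟨Equiv.ofBijective f (Finite.injective_iff_bijective.1 hinj),
    fun b i => hf1 _ b i rfl, fun u hu => hf2 u hu⟩

end Pool.Agent.Lib_MP_22d2c8_pm
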