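import Pool.Agent.Lib_MP_22d2c8_rsf.Basic

/-!
# Perfect matchings and few negations: definitions

Bipartite graphs with `m + m` vertices; the two random graphs: `permGraph σ` (a random perfect
matching) and `cut x` (the pairs of vertices with equal colours, for a random colouring with an odd
number of ones; it has no perfect matching).
-/

namespace Pool.Agent.Lib_MP_22d2c8_pm

open Finset
open Pool.Agent.Lib_MP_22d2c8_rsf

/-- The edges of the host graph `H`, a bipartite graph with `N + N` vertices. -/
abbrev HostEdge {N : ℕ} (H : Fin N → Fin N → Prop) : Type := {p : Fin N × Fin N // H p.1 p.2}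

/-- The subgraph `x` of the host graph `H` has a perfect matching. -/
def HasPM {N : ℕ} (H : Fin N → Fin N → Prop) (x : HostEdge H → Bool) : Prop :=
  ∃ σ : Equiv.Perm (Fin N), ∀ i, ∃ h : H i (σ i), x ⟨(i, σ i), h⟩ = true

/-- The vertices of the complete bipartite graph with `m + m` vertices. -/
abbrev Vx (m : ℕ) : Type := Fin m ⊕ Fin m

/-- The edges of the complete bipartite graph with `m + m` vertices. -/
abbrev Ed (m : ℕ) : Type := Fin m × Fin m

/-- The edges whose two ends have the same colour. -/
def agree {m : ℕ} (x : Vx m → Bool) : Finset (Ed m) :=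
  univ.filter (fun p => x (Sum.inl p.1) = x (Sum.inr p.2))

/-- The number of the vertices of colour one is odd. -/
def OddOnes {m : ℕ} (x : Vx m → Bool) : Prop := Odd (univ.filter (fun u => x u = true)).card

open Classical in
/-- The colouring `x` if it has an odd number of ones, otherwise `x` with the colour of one fixed
vertex changed. -/
noncomputable def fixOdd {m : ℕ} [NeZero m] (x : Vx m → Bool) : Vx m → Bool :=
  if OddOnes x then x else Function.update x (Sum.inl 0) (!x (Sum.inl 0))

/-- The edges whose two ends have the same colour, for the colouring `x` with the parity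
corrected. -/
noncomputable def cut {m : ℕ} [NeZero m] (x : Vx m → Bool) : Finset (Ed m) := agree (fixOdd x)

/-- The perfect matching given by the permutation `σ`. -/
def permGraph {m : ℕ} (σ : Equiv.Perm (Fin m)) : Finset (Ed m) :=
  univ.filter (fun p => σ p.1 = p.2)

/-- The set of edges `T` is a matching. -/
def IsMatch {m : ℕ} (T : Finset (Ed m)) : Prop :=
  ∀ p ∈ T, ∀ q ∈ T, p ≠ q → p.1 ≠ q.1 ∧ p.2 ≠ q.2

/-- The ends of the edges of `T`. -/
def verts {m : ℕ} (T : Finset (Ed m)) : Finset (Vx m) :=
  T.image (fun p => Sum.inl p.1) ∪ T.image (fun p => Sum.inr p.2)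

theorem mem_agree {m : ℕ} {x : Vx m → Bool} {p : Ed m} :
    p ∈ agree x ↔ x (Sum.inl p.1) = x (Sum.inr p.2) := by simp [agree]

theorem mem_permGraph {m : ℕ} {σ : Equiv.Perm (Fin m)} {p : Ed m} :
    p ∈ permGraph σ ↔ σ p.1 = p.2 := by simp [permGraph]

theorem inl_mem_verts {m : ℕ} {T : Finset (Ed m)} {i : Fin m} :
    (Sum.inl i : Vx m) ∈ verts T ↔ ∃ p ∈ T, p.1 = i := by simp [verts]

theorem inr_mem_verts {m : ℕ} {T : Finset (Ed m)} {j : Fin m} :
    (Sum.inr j : Vx m) ∈ verts T ↔ ∃ p ∈ T, p.2 = j := by simp [verts]

end Pool.Agent.Lib_MP_22d2c8_pm
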