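import Pool.Agent.Lib_MP_22d2c8_pm.DistA

/-!
# DIST B: comparison of the two random graphs

PROOF (see `closed_compare` in `rsf/Dist.lean`). If `A` is empty: trivial. Let `T0` be a member of
least size `l0`. If `l0 = 0` the right-hand side is one. Otherwise every `T ∈ A` inside
`permGraph σ` contains a minimal member of size at least `l0`, so by `pm_tail` with `v = l0 - 1` the
left-hand side is at most `(1/16) ^ (l0 - 1) / 15`, and the right-hand side is at least
`prob (T0 ⊆ cut x) ≥ (1/2) * (1/4) ^ l0` (`prob_cut_ge`; `l0 ≤ w < m`). As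
`(1/16) ^ (l0 - 1) / 15 ≤ (1/4) ^ (l0 - 1) / 15 ≤ (1/8) * (1/4) ^ (l0 - 1)` this is enough.
-/

namespace Pool.Agent.Lib_MP_22d2c8_pm

open Finset
open Pool.Agent.Lib_MP_22d2c8_rsf

/-- A closed family is hit by `cut` at least as often as by `permGraph`. -/
theorem pm_compare {m w k K : ℕ} [NeZero m] (hK : K = 4 * w ^ 2 * (64 * (k + 1) * w) ^ 2)
    (hKm : 32 * K ≤ m) (hwm : 2 * w < m) {A : Finset (Finset (Ed m))}
    (hA : Closed w (cut : (Vx m → Bool) → Finset (Ed m)) ((1 / 2 : ℝ) ^ k) A) :
    prob (fun σ : Equiv.Perm (Fin m) => Hit A (permGraph σ)) ≤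
      prob (fun x : Vx m → Bool => Hit A (cut x)) := by
  classical
  rcases A.eq_empty_or_nonempty with rfl | hne
  · rw [prob_false]
    · exact prob_nonneg _
    · rintro a ⟨T, hT, _⟩
      exact absurd hT (Finset.notMem_empty T)
  · obtain ⟨T0, hT0, hmin⟩ := Finset.exists_min_image A Finset.card hne
    rcases Nat.eq_zero_or_pos T0.card with h0 | h0
    · have h00 : T0 = ∅ := Finset.card_eq_zero.mp h0
      rw [h00] at hT0
      have h1 : prob (fun x : Vx m → Bool => Hit A (cut x)) = 1 :=
        prob_true fun x => ⟨∅, hT0, Finset.empty_subset _⟩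
      rw [h1]
      exact prob_le_one _
    · have h1 : prob (fun σ : Equiv.Perm (Fin m) => Hit A (permGraph σ)) ≤
          (1 / 16) ^ (T0.card - 1) / 15 := by
        refine le_trans (prob_mono ?_) (pm_tail hK hKm hwm hA (T0.card - 1))
        rintro a ⟨T, hT, hTa⟩
        obtain ⟨T', hT', hmin'⟩ := Finset.exists_min_image (A.filter (fun T' => T' ⊆ T))
          Finset.card ⟨T, by rw [Finset.mem_filter]; exact ⟨hT, Finset.Subset.refl _⟩⟩
        rw [Finset.mem_filter] at hT'
        refine ⟨T', ⟨hT'.1, ?_⟩, ?_, hT'.2.trans hTa⟩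
        · intro T'' hT'' hsub
          exact Finset.eq_of_subset_of_card_le hsub (hmin' T'' (by
            rw [Finset.mem_filter]
            exact ⟨hT'', hsub.trans hT'.2⟩))
        · have := hmin T' hT'.1
          omega
      have h2 : (1 / 2 : ℝ) * (1 / 4) ^ T0.card ≤
          prob (fun x : Vx m → Bool => Hit A (cut x)) := by
        have hw := hA.1 T0 hT0
        refine le_trans (prob_cut_ge T0 (by omega)) ?_
        exact prob_mono fun x h => ⟨T0, hT0, h⟩
      refine (h1.trans ?_).trans h2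
      obtain ⟨n, hn⟩ : ∃ n, T0.card = n + 1 := ⟨T0.card - 1, by omega⟩
      rw [hn, Nat.add_sub_cancel, pow_succ]
      have h3 : (1 / 16 : ℝ) ^ n ≤ (1 / 4) ^ n := pow_le_pow_left₀ (by norm_num) (by norm_num) n
      have h4 : (0 : ℝ) ≤ (1 / 4 : ℝ) ^ n := by positivity
      linarith

end Pool.Agent.Lib_MP_22d2c8_pm
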