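import Mathlib

/-!
# DIST C: the parameters

PROOF. `Lg = Nat.log 2 m + 1`, `m < 2 ^ Lg`, `m * m + 1 ≤ 2 ^ (2 * Lg)`; take
`k = v * (4 * Lg + 3)`: `(m * m + 1) ^ (2 v) * 8 ^ v ≤ 2 ^ (4 v Lg + 3 v)`. `m ≥ 2 ^ 28`, so
`Lg ≥ 4`, `k + 1 ≤ v * (4 * Lg + 4) ≤ 5 * v * Lg`. And
`32 * (4 * (2 v) ^ 2 * (64 * r * (2 v)) ^ 2) = 2 ^ 23 * r ^ 2 * v ^ 4` with `r = k + 1`, at most
`2 ^ 23 * 25 * v ^ 6 * Lg ^ 2 ≤ 2 ^ 28 * v ^ 6 * Lg ^ 2`.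
-/

namespace Pool.Agent.Lib_MP_22d2c8_pm

theorem pm_params {v m : ℕ} (hv : 1 ≤ v) (hm : 2 ^ 28 * v ^ 6 * (Nat.log 2 m + 1) ^ 2 ≤ m) :
    ∃ k : ℕ, 1 ≤ k ∧ (m * m + 1) ^ (2 * v) * 8 ^ v ≤ 2 ^ k ∧ 2 * (2 * v) < m ∧
      32 * (4 * (2 * v) ^ 2 * (64 * (k + 1) * (2 * v)) ^ 2) ≤ m := by
  have hL1 : m < 2 ^ (Nat.log 2 m + 1) := Nat.lt_pow_succ_log_self (by norm_num) m
  obtain ⟨L, hL⟩ : ∃ L, L = Nat.log 2 m + 1 := ⟨_, rfl⟩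
  rw [← hL] at hm hL1
  have hLpos : 1 ≤ L := by omega
  have hv8 : v ≤ v ^ 6 := Nat.le_self_pow (by norm_num) v
  have hL4 : 1 ≤ L ^ 2 := Nat.one_le_pow _ _ hLpos
  have hm1 : 2 ^ 28 * v ≤ m := by
    calc 2 ^ 28 * v ≤ 2 ^ 28 * v ^ 6 * 1 := by
          rw [mul_one]
          exact Nat.mul_le_mul_left _ hv8
      _ ≤ 2 ^ 28 * v ^ 6 * L ^ 2 := Nat.mul_le_mul_left _ hL4
      _ ≤ m := hm
  have hL4' : 4 ≤ L := by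
    by_contra hcon
    have h1 : 2 ^ L ≤ 2 ^ 3 := Nat.pow_le_pow_right (by norm_num) (by omega)
    omega
  refine ⟨v * (4 * L + 3), ?_, ?_, ?_, ?_⟩
  · exact Nat.mul_pos hv (by omega)
  · have h1 : m * m + 1 ≤ 2 ^ (2 * L) := by
      rw [two_mul, pow_add]
      nlinarith
    calc (m * m + 1) ^ (2 * v) * 8 ^ v ≤ (2 ^ (2 * L)) ^ (2 * v) * 8 ^ v :=
          Nat.mul_le_mul_right _ (Nat.pow_le_pow_left h1 _)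
      _ = 2 ^ (v * (4 * L + 3)) := by
          rw [show (8 : ℕ) = 2 ^ 3 by norm_num, ← pow_mul, ← pow_mul, ← pow_add]
          congr 1
          ring
  · omega
  · have hr : v * (4 * L + 3) + 1 ≤ 5 * v * L := by nlinarith
    have hr2 : (v * (4 * L + 3) + 1) ^ 2 ≤ (5 * v * L) ^ 2 := Nat.pow_le_pow_left hr 2
    calc 32 * (4 * (2 * v) ^ 2 * (64 * (v * (4 * L + 3) + 1) * (2 * v)) ^ 2)
        = 2 ^ 23 * v ^ 4 * (v * (4 * L + 3) + 1) ^ 2 := by ring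
      _ ≤ 2 ^ 23 * v ^ 4 * (5 * v * L) ^ 2 := Nat.mul_le_mul_left _ hr2
      _ = 2 ^ 23 * 25 * (v ^ 6 * L ^ 2) := by ring
      _ ≤ 2 ^ 28 * (v ^ 6 * L ^ 2) := Nat.mul_le_mul_right _ (by norm_num)
      _ = 2 ^ 28 * v ^ 6 * L ^ 2 := by ring
      _ ≤ m := hm

end Pool.Agent.Lib_MP_22d2c8_pm
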