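import Pool.Agent.Lib_MP_22d2c8_rsf.Approx
import Pool.Agent.Lib_MP_22d2c8_rsf.Prog
import Pool.Agent.Lib_MP_22d2c8_rsf.Avg
import Pool.Agent.Lib_MP_22d2c8_pm.DistB
import Pool.Agent.Lib_MP_22d2c8_pm.DistC

/-!
# DIST: monotone circuits accept `cut` at least as often as `permGraph`, up to a small error

PROOF of `pm_dist`: as `dist_bound` in `rsf/Dist.lean`, with `w = 2 * v`, `k` from `pm_params`,
`U = cut`, `Y = permGraph`, `ηY = (1/16) ^ v / 15` (`pm_tail`), `ηU = (card (Ed m) + 1) ^ (2 v) *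
(1/2) ^ k ≤ (1/8) ^ v` (`exists_closed`), `pm_compare` instead of `closed_compare`.
PROOF of `pm_circuit`: as `dist_circuit` in `rsf/AvgFinal.lean` (`exists_prog` with
`e = finProdFinEquiv.symm`, `f0 x = decide (Accepts C x)`).
-/

namespace Pool.Agent.Lib_MP_22d2c8_pm

open Finset
open Pool.Agent.Lib_MP_22d2c8_rsf

/-- The distributional bound for monotone programs. -/
theorem pm_dist {v m : ℕ} [NeZero m] (hv : 1 ≤ v)
    (hm : 2 ^ 28 * v ^ 6 * (Nat.log 2 m + 1) ^ 2 ≤ m)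
    {l : List (Finset (Ed m) → Prop)} (hl : MProg (Ed m) l)
    {g : Finset (Ed m) → Prop} (hg : g ∈ l) :
    prob (fun σ : Equiv.Perm (Fin m) => g (permGraph σ)) ≤
      prob (fun x : Vx m → Bool => g (cut x)) + l.length * (2 * (1 / 8 : ℝ) ^ v) := by
  classical
  obtain ⟨k, hk1, hk, hwm, hKm⟩ := pm_params hv hm
  have hδ1 : ((1 / 2 : ℝ)) ^ k < 1 := pow_lt_one₀ (by norm_num) (by norm_num) (by omega)
  have hδ0 : (0 : ℝ) ≤ (1 / 2 : ℝ) ^ k := by positivity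
  have hηY : (0 : ℝ) ≤ (1 / 16 : ℝ) ^ v / 15 := by positivity
  have h8 : (8 : ℝ) ^ v * (1 / 8 : ℝ) ^ v = 1 := by
    rw [← mul_pow]
    norm_num
  have hcardV : (Fintype.card (Ed m) : ℝ) = m * m := by simp
  have hηU : ((Fintype.card (Ed m) : ℝ) + 1) ^ (2 * v) * (1 / 2) ^ k ≤ (1 / 8 : ℝ) ^ v := by
    rw [hcardV]
    have h1 : ((m : ℝ) * m + 1) ^ (2 * v) * 8 ^ v ≤ 2 ^ k := by exact_mod_cast hk
    have h2 : (2 : ℝ) ^ k * (1 / 2 : ℝ) ^ k = 1 := by
      rw [← mul_pow]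
      norm_num
    have h3 : (0 : ℝ) < (1 / 2 : ℝ) ^ k * (1 / 8 : ℝ) ^ v := by positivity
    calc ((m : ℝ) * m + 1) ^ (2 * v) * (1 / 2) ^ k
        = (((m : ℝ) * m + 1) ^ (2 * v) * 8 ^ v) * ((1 / 2 : ℝ) ^ k * (1 / 8 : ℝ) ^ v) := by
          rw [show (((m : ℝ) * m + 1) ^ (2 * v) * 8 ^ v) * ((1 / 2 : ℝ) ^ k * (1 / 8 : ℝ) ^ v) =
            ((m : ℝ) * m + 1) ^ (2 * v) * (1 / 2 : ℝ) ^ k * (8 ^ v * (1 / 8 : ℝ) ^ v) by ring, h8,
            mul_one]
      _ ≤ 2 ^ k * ((1 / 2 : ℝ) ^ k * (1 / 8 : ℝ) ^ v) := mul_le_mul_of_nonneg_right h1 h3.le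
      _ = (1 / 8 : ℝ) ^ v := by rw [← mul_assoc, h2, one_mul]
  obtain ⟨EY, EU, hEY, hEU, hmain⟩ := approx (w := 2 * v) (v := v) rfl hv
    (cut : (Vx m → Bool) → Finset (Ed m))
    (permGraph : Equiv.Perm (Fin m) → Finset (Ed m)) hδ0 hδ1 hηY
    (show (0 : ℝ) ≤ ((Fintype.card (Ed m) : ℝ) + 1) ^ (2 * v) * (1 / 2) ^ k by positivity)
    (fun B hB => exists_closed (2 * v) _ hδ0 B hB)
    (fun A hA => pm_tail rfl hKm hwm hA v) hl
  obtain ⟨A, hA, hAY, hAU⟩ := hmain _ hg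
  have h1 : prob (fun σ : Equiv.Perm (Fin m) => g (permGraph σ)) ≤
      prob (fun σ : Equiv.Perm (Fin m) => Hit A (permGraph σ)) + prob EY := by
    refine le_trans (prob_mono ?_) (prob_or_le _ _)
    intro a ha
    by_cases hE : EY a
    · exact Or.inr hE
    · exact Or.inl (hAY a ha hE)
  have h2 : prob (fun x : Vx m → Bool => Hit A (cut x)) ≤
      prob (fun x : Vx m → Bool => g (cut x)) + prob EU := by
    refine le_trans (prob_mono ?_) (prob_or_le _ _)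
    intro x hx
    by_cases hE : EU x
    · exact Or.inr hE
    · exact Or.inl (hAU x hx hE)
  have h3 := pm_compare rfl hKm hwm hA
  have hlen : (0 : ℝ) ≤ l.length := by positivity
  have h16 : (1 / 16 : ℝ) ^ v ≤ (1 / 8 : ℝ) ^ v :=
    pow_le_pow_left₀ (by norm_num) (by norm_num) v
  have h4 : (l.length : ℝ) * (2 * ((1 / 16 : ℝ) ^ v / 15)) + l.length *
      (((Fintype.card (Ed m) : ℝ) + 1) ^ (2 * v) * (1 / 2) ^ k) ≤
      l.length * (2 * (1 / 8 : ℝ) ^ v) := by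
    rw [← mul_add]
    apply mul_le_mul_of_nonneg_left _ hlen
    have : (0 : ℝ) ≤ (1 / 8 : ℝ) ^ v := by positivity
    linarith
  linarith

/-- The distributional bound for monotone circuits. -/
theorem pm_circuit {v m s : ℕ} [NeZero m] (hv : 1 ≤ v)
    (hm : 2 ^ 28 * v ^ 6 * (Nat.log 2 m + 1) ^ 2 ≤ m)
    (C : Pool.Agent.Lib_MP_22d2c8_gen.Circuit (m * m) s) (hC : C.IsMonotone) :
    prob (fun σ : Equiv.Perm (Fin m) => Accepts C (fun i =>
      decide ((finProdFinEquiv (m := m) (n := m)).symm i ∈ permGraph σ))) ≤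
      prob (fun x : Vx m → Bool => Accepts C (fun i =>
        decide ((finProdFinEquiv (m := m) (n := m)).symm i ∈ cut x))) +
        ((m * m + s + 1) ^ 2 : ℕ) * (2 * (1 / 8 : ℝ) ^ v) := by
  classical
  set f : (Fin (m * m) → Bool) → Bool := fun x => decide (Accepts C x) with hf
  have hCf : C.Computes f := by
    intro x
    obtain ⟨a, ha⟩ := Pool.Agent.Lib_MP_22d2c8_gen.exists_run C x
    refine ⟨a, ha, ?_⟩
    simp only [hf]
    cases h : a C.out with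
    | true => exact (decide_eq_true ((accepts_iff C ha).mpr h)).symm
    | false =>
      refine (decide_eq_false fun h' => ?_).symm
      rw [accepts_iff C ha, h] at h'
      exact absurd h' (by simp)
  obtain ⟨l, hl, hl0, hlen⟩ := exists_prog C hC f hCf (finProdFinEquiv (m := m) (n := m)).symm
  have h1 := pm_dist hv hm hl hl0
  simp only [hf, decide_eq_true_eq] at h1
  refine h1.trans ?_
  have h2 : (l.length : ℝ) ≤ ((m * m + s + 1) ^ 2 : ℕ) := by exact_mod_cast hlen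
  have h3 : (0 : ℝ) ≤ 2 * (1 / 8 : ℝ) ^ v := by positivity
  have h4 := mul_le_mul_of_nonneg_right h2 h3
  linarith

end Pool.Agent.Lib_MP_22d2c8_pm
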