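import Pool.Agent.Lib_MP_22d2c8_pm.Defs

/-!
# FLOWER A: the core, by maximisation of a potential

PROOF. For a matching `S` and a set `H` of vertices disjoint from `verts S` let
`fam S H = F.filter (fun R => S ⊆ R ∧ H ⊆ verts (R \ S))` and
`Φ S H = (fam S H).card * K ^ S.card * κ ^ H.card`. Choose `(S, H)` with `Φ` maximal (finitely many
pairs). `Φ ∅ ∅ = F.card > K ^ l`, so `Φ S H > K ^ l`. Hence `fam S H` is nonempty; so `S.card ≤ l`;
if `S.card = l` then every `R` in `fam S H` is `S`, so `(fam S H).card ≤ 1` and `H ⊆ verts ∅ = ∅`,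
so `Φ S H ≤ K ^ l`, a contradiction. So `S.card < l`.
(i) Let `p` be an edge with both ends in `H`; then `p ∉ S`, `insert p S` is a matching, and
`{R ∈ fam S H | p ∈ R} ⊆ fam (insert p S) (H \ {inl p.1, inr p.2})` (`R` is a matching, so the ends
of the other edges of `R \ S` are not the ends of `p`). By maximality
`#{R ∈ fam S H | p ∈ R} * K * κ ^ (H.card - 2) ≤ (fam S H).card * κ ^ H.card`, so
`#{...} * K ≤ (fam S H).card * κ ^ 2`. The number of such edges `p` is at most `w ^ 2` (the left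
vertices in `H` are at most `R.card = l ≤ w` for any `R ∈ fam S H`, the same for the right ones). So
the members of `fam S H` which have an edge with both ends in `H` (in `R \ S`) are at most
`w ^ 2 * κ ^ 2 * (fam S H).card / K ≤ (fam S H).card / 4`. Let `G` be the others:
`3 * (fam S H).card ≤ 4 * G.card`.
(ii) Let `J` be disjoint from `H` and nonempty. If `J` meets `verts S` then no member of `G` has
`J ⊆ verts (R \ S)` (it is a matching). Otherwise the members with `J ⊆ verts (R \ S)` are in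
`fam S (H ∪ J)`, so by maximality `#{...} * κ ^ J.card ≤ (fam S H).card`, and
`3 * (#{...} * κ ^ J.card) ≤ 3 * (fam S H).card ≤ 4 * G.card`.
-/

namespace Pool.Agent.Lib_MP_22d2c8_pm

open Finset

/-- The members of `F` which contain `S` and whose other edges cover `H`. -/
private def fam {m : ℕ} (F : Finset (Finset (Ed m))) (S : Finset (Ed m)) (H : Finset (Vx m)) :
    Finset (Finset (Ed m)) :=
  F.filter (fun R => S ⊆ R ∧ H ⊆ verts (R \ S))

private theorem mem_fam {m : ℕ} {F : Finset (Finset (Ed m))} {S : Finset (Ed m)}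
    {H : Finset (Vx m)} {R : Finset (Ed m)} :
    R ∈ fam F S H ↔ R ∈ F ∧ S ⊆ R ∧ H ⊆ verts (R \ S) := by
  unfold fam
  rw [mem_filter]

private theorem fam_empty {m : ℕ} (F : Finset (Finset (Ed m))) : fam F ∅ ∅ = F := by
  ext R
  rw [mem_fam]
  exact ⟨fun h => h.1, fun h => ⟨h, empty_subset _, empty_subset _⟩⟩

/-- A pair with the maximal potential. -/
private theorem exists_max_pair {m : ℕ} (κ K : ℕ) (F : Finset (Finset (Ed m))) :
    ∃ (S : Finset (Ed m)) (H : Finset (Vx m)), ∀ (S' : Finset (Ed m)) (H' : Finset (Vx m)),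
      (fam F S' H').card * K ^ S'.card * κ ^ H'.card
        ≤ (fam F S H).card * K ^ S.card * κ ^ H.card := by
  obtain ⟨q, hq⟩ := Finite.exists_max (fun q : Finset (Ed m) × Finset (Vx m) =>
    (fam F q.1 q.2).card * K ^ q.1.card * κ ^ q.2.card)
  exact ⟨q.1, q.2, fun S' H' => hq (S', H')⟩

/-- The members of the family of `S` and `H` with the edge `p`, both ends of which are in `H`. -/
private theorem edge_bound {m κ K : ℕ} (hκ : 1 ≤ κ) (hK : 1 ≤ K) {F : Finset (Finset (Ed m))}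
    {S : Finset (Ed m)} {H : Finset (Vx m)}
    (hmax : ∀ (S' : Finset (Ed m)) (H' : Finset (Vx m)),
      (fam F S' H').card * K ^ S'.card * κ ^ H'.card
        ≤ (fam F S H).card * K ^ S.card * κ ^ H.card)
    {p : Ed m} (h1 : Sum.inl p.1 ∈ H) (h2 : Sum.inr p.2 ∈ H) :
    ((fam F S H).filter (fun R => p ∈ R \ S)).card * K ≤ (fam F S H).card * κ ^ 2 := by
  by_cases hp : p ∈ S
  · have h3 : (fam F S H).filter (fun R => p ∈ R \ S) = ∅ := by
      rw [filter_eq_empty_iff]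
      intro R _ hR
      exact (mem_sdiff.mp hR).2 hp
    rw [h3, card_empty, zero_mul]
    exact Nat.zero_le _
  · have hsub : ({Sum.inl p.1, Sum.inr p.2} : Finset (Vx m)) ⊆ H := by
      intro u hu
      rcases mem_insert.mp hu with rfl | hu
      · exact h1
      · rw [mem_singleton.mp hu]
        exact h2
    have hc2 : ({Sum.inl p.1, Sum.inr p.2} : Finset (Vx m)).card = 2 :=
      card_pair Sum.inl_ne_inr
    have hle : 2 ≤ H.card := hc2 ▸ card_le_card hsub
    have hc : (H \ {Sum.inl p.1, Sum.inr p.2}).card + 2 = H.card := by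
      rw [card_sdiff_of_subset hsub, hc2]
      omega
    have hfam : (fam F S H).filter (fun R => p ∈ R \ S)
        ⊆ fam F (insert p S) (H \ {Sum.inl p.1, Sum.inr p.2}) := by
      intro R hR
      obtain ⟨hR1, hR2⟩ := mem_filter.mp hR
      obtain ⟨hR3, hR4, hR5⟩ := mem_fam.mp hR1
      refine mem_fam.mpr ⟨hR3, insert_subset (mem_sdiff.mp hR2).1 hR4, ?_⟩
      intro u hu
      obtain ⟨hu1, hu2⟩ := mem_sdiff.mp hu
      have hu3 := hR5 hu1
      rcases u with i | j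
      · obtain ⟨q, hq, hqi⟩ := inl_mem_verts.mp hu3
        refine inl_mem_verts.mpr ⟨q, mem_sdiff.mpr ⟨(mem_sdiff.mp hq).1, fun hqS => ?_⟩, hqi⟩
        rcases mem_insert.mp hqS with hqp | hqS
        · refine hu2 (mem_insert.mpr (Or.inl ?_))
          rw [← hqi, hqp]
        · exact (mem_sdiff.mp hq).2 hqS
      · obtain ⟨q, hq, hqj⟩ := inr_mem_verts.mp hu3
        refine inr_mem_verts.mpr ⟨q, mem_sdiff.mpr ⟨(mem_sdiff.mp hq).1, fun hqS => ?_⟩, hqj⟩
        rcases mem_insert.mp hqS with hqp | hqS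
        · refine hu2 (mem_insert.mpr (Or.inr (mem_singleton.mpr ?_)))
          rw [← hqj, hqp]
        · exact (mem_sdiff.mp hq).2 hqS
    have h4 := hmax (insert p S) (H \ {Sum.inl p.1, Sum.inr p.2})
    rw [card_insert_of_notMem hp, ← hc] at h4
    have h5 : 0 < K ^ S.card * κ ^ (H \ {Sum.inl p.1, Sum.inr p.2}).card :=
      Nat.mul_pos (Nat.pow_pos hK) (Nat.pow_pos hκ)
    refine Nat.le_of_mul_le_mul_left ?_ h5
    calc K ^ S.card * κ ^ (H \ {Sum.inl p.1, Sum.inr p.2}).card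
          * (((fam F S H).filter (fun R => p ∈ R \ S)).card * K)
        = ((fam F S H).filter (fun R => p ∈ R \ S)).card
          * (K ^ (S.card + 1) * κ ^ (H \ {Sum.inl p.1, Sum.inr p.2}).card) := by ring
      _ ≤ (fam F (insert p S) (H \ {Sum.inl p.1, Sum.inr p.2})).card
          * (K ^ (S.card + 1) * κ ^ (H \ {Sum.inl p.1, Sum.inr p.2}).card) :=
        Nat.mul_le_mul_right _ (card_le_card hfam)
      _ = (fam F (insert p S) (H \ {Sum.inl p.1, Sum.inr p.2})).card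
          * K ^ (S.card + 1) * κ ^ (H \ {Sum.inl p.1, Sum.inr p.2}).card := by ring
      _ ≤ (fam F S H).card * K ^ S.card
          * κ ^ ((H \ {Sum.inl p.1, Sum.inr p.2}).card + 2) := h4
      _ = K ^ S.card * κ ^ (H \ {Sum.inl p.1, Sum.inr p.2}).card
          * ((fam F S H).card * κ ^ 2) := by ring

/-- The members of the family which have an edge with both ends in `H` are at most a quarter. -/
private theorem bad_bound {m w κ K l : ℕ} (hl : l ≤ w) (hκ : 1 ≤ κ) (hK1 : 1 ≤ K)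
    (hK : 4 * w ^ 2 * κ ^ 2 ≤ K) {F : Finset (Finset (Ed m))}
    (hF : ∀ R ∈ F, IsMatch R ∧ R.card = l) {S : Finset (Ed m)} {H : Finset (Vx m)}
    (hmax : ∀ (S' : Finset (Ed m)) (H' : Finset (Vx m)),
      (fam F S' H').card * K ^ S'.card * κ ^ H'.card
        ≤ (fam F S H).card * K ^ S.card * κ ^ H.card)
    {R₀ : Finset (Ed m)} (hR₀ : R₀ ∈ fam F S H) :
    4 * ((fam F S H).filter
      (fun R => ¬ ∀ p ∈ R \ S, ¬ (Sum.inl p.1 ∈ H ∧ Sum.inr p.2 ∈ H))).card
      ≤ (fam F S H).card := by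
  obtain ⟨h1, -, h3⟩ := mem_fam.mp hR₀
  have hc := (hF R₀ h1).2
  have hP : (univ.filter fun p : Ed m => Sum.inl p.1 ∈ H ∧ Sum.inr p.2 ∈ H).card ≤ w ^ 2 := by
    have hsub : (univ.filter fun p : Ed m => Sum.inl p.1 ∈ H ∧ Sum.inr p.2 ∈ H)
        ⊆ (R₀.image Prod.fst) ×ˢ (R₀.image Prod.snd) := by
      intro p hp
      obtain ⟨hp1, hp2⟩ := (mem_filter.mp hp).2
      obtain ⟨q, hq, hqp⟩ := inl_mem_verts.mp (h3 hp1)
      obtain ⟨q', hq', hqp'⟩ := inr_mem_verts.mp (h3 hp2)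
      exact mem_product.mpr ⟨mem_image.mpr ⟨q, (mem_sdiff.mp hq).1, hqp⟩,
        mem_image.mpr ⟨q', (mem_sdiff.mp hq').1, hqp'⟩⟩
    refine (card_le_card hsub).trans ?_
    rw [card_product, sq]
    refine Nat.mul_le_mul (card_image_le.trans ?_) (card_image_le.trans ?_) <;>
      exact hc.trans_le hl
  have hsub : (fam F S H).filter
      (fun R => ¬ ∀ p ∈ R \ S, ¬ (Sum.inl p.1 ∈ H ∧ Sum.inr p.2 ∈ H))
      ⊆ (univ.filter fun p : Ed m => Sum.inl p.1 ∈ H ∧ Sum.inr p.2 ∈ H).biUnion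
        (fun p => (fam F S H).filter (fun R => p ∈ R \ S)) := by
    intro R hR
    obtain ⟨hR1, hR2⟩ := mem_filter.mp hR
    obtain ⟨p, hp⟩ := not_forall.mp hR2
    obtain ⟨hp1, hp2⟩ := Classical.not_imp.mp hp
    exact mem_biUnion.mpr ⟨p, mem_filter.mpr ⟨mem_univ _, not_not.mp hp2⟩,
      mem_filter.mpr ⟨hR1, hp1⟩⟩
  have h4 : ((fam F S H).filter
      (fun R => ¬ ∀ p ∈ R \ S, ¬ (Sum.inl p.1 ∈ H ∧ Sum.inr p.2 ∈ H))).card * K
      ≤ w ^ 2 * ((fam F S H).card * κ ^ 2) := by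
    calc _ ≤ (∑ p ∈ univ.filter fun p : Ed m => Sum.inl p.1 ∈ H ∧ Sum.inr p.2 ∈ H,
          ((fam F S H).filter (fun R => p ∈ R \ S)).card) * K :=
        Nat.mul_le_mul_right _ ((card_le_card hsub).trans card_biUnion_le)
      _ = ∑ p ∈ univ.filter fun p : Ed m => Sum.inl p.1 ∈ H ∧ Sum.inr p.2 ∈ H,
          ((fam F S H).filter (fun R => p ∈ R \ S)).card * K := sum_mul _ _ _
      _ ≤ ∑ _p ∈ univ.filter fun p : Ed m => Sum.inl p.1 ∈ H ∧ Sum.inr p.2 ∈ H,
          (fam F S H).card * κ ^ 2 := by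
        refine sum_le_sum fun p hp => ?_
        obtain ⟨hp1, hp2⟩ := (mem_filter.mp hp).2
        exact edge_bound hκ hK1 hmax hp1 hp2
      _ = (univ.filter fun p : Ed m => Sum.inl p.1 ∈ H ∧ Sum.inr p.2 ∈ H).card
          * ((fam F S H).card * κ ^ 2) := by rw [sum_const, smul_eq_mul]
      _ ≤ _ := Nat.mul_le_mul_right _ hP
  refine Nat.le_of_mul_le_mul_right ?_ hK1
  calc _ = 4 * (((fam F S H).filter
        (fun R => ¬ ∀ p ∈ R \ S, ¬ (Sum.inl p.1 ∈ H ∧ Sum.inr p.2 ∈ H))).card * K) := by ring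
    _ ≤ 4 * (w ^ 2 * ((fam F S H).card * κ ^ 2)) := Nat.mul_le_mul_left _ h4
    _ = (fam F S H).card * (4 * w ^ 2 * κ ^ 2) := by ring
    _ ≤ (fam F S H).card * K := Nat.mul_le_mul_left _ hK

/-- For `l ≥ 1` the constant `K` is positive. -/
private theorem K_pos {m w κ K l : ℕ} (hl : l ≤ w) (hκ : 1 ≤ κ) (hK : 4 * w ^ 2 * κ ^ 2 ≤ K)
    (F : Finset (Finset (Ed m))) (hF : ∀ R ∈ F, IsMatch R ∧ R.card = l)
    (hcard : K ^ l < F.card) : 1 ≤ K := by
  rcases Nat.eq_zero_or_pos l with rfl | hl0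
  · exfalso
    have h1 : F ⊆ {∅} := fun R hR => mem_singleton.mpr (card_eq_zero.mp (hF R hR).2)
    have h2 := card_le_card h1
    rw [card_singleton] at h2
    rw [pow_zero] at hcard
    omega
  · have hw : 1 ≤ w := hl0.trans_le hl
    refine le_trans ?_ hK
    have h1 : 0 < 4 * w ^ 2 * κ ^ 2 :=
      Nat.mul_pos (Nat.mul_pos (by norm_num) (Nat.pow_pos hw)) (Nat.pow_pos hκ)
    exact h1

theorem exists_core {m w κ K l : ℕ} (hl : l ≤ w) (hκ : 1 ≤ κ) (hK : 4 * w ^ 2 * κ ^ 2 ≤ K)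
    (F : Finset (Finset (Ed m))) (hF : ∀ R ∈ F, IsMatch R ∧ R.card = l)
    (hcard : K ^ l < F.card) :
    ∃ (S : Finset (Ed m)) (H : Finset (Vx m)) (G : Finset (Finset (Ed m))),
      S.card < l ∧ G ⊆ F ∧ G.Nonempty ∧ (∀ R ∈ G, S ⊆ R ∧ H ⊆ verts (R \ S)) ∧
      (∀ R ∈ G, ∀ p ∈ R \ S, ¬ (Sum.inl p.1 ∈ H ∧ Sum.inr p.2 ∈ H)) ∧
      ∀ J : Finset (Vx m), J.Nonempty → Disjoint J H →
        3 * ((G.filter (fun R => J ⊆ verts (R \ S))).card * κ ^ J.card) ≤ 4 * G.card := by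
  have hK1 : 1 ≤ K := K_pos hl hκ hK F hF hcard
  obtain ⟨S, H, hmax⟩ := exists_max_pair κ K F
  have hΦ : K ^ l < (fam F S H).card * K ^ S.card * κ ^ H.card := by
    refine hcard.trans_le ?_
    have h := hmax ∅ ∅
    rw [fam_empty, card_empty, card_empty, pow_zero, pow_zero, mul_one, mul_one] at h
    exact h
  have hne : (fam F S H).Nonempty := by
    rw [nonempty_iff_ne_empty]
    intro h
    rw [h, card_empty, zero_mul, zero_mul] at hΦ
    exact Nat.not_lt_zero _ hΦ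
  obtain ⟨R₀, hR₀⟩ := hne
  have hpos : 0 < (fam F S H).card := card_pos.mpr ⟨R₀, hR₀⟩
  obtain ⟨h1, h2, h3⟩ := mem_fam.mp hR₀
  have hSl : S.card ≤ l := (hF R₀ h1).2 ▸ card_le_card h2
  have hSlt : S.card < l := by
    refine lt_of_le_of_ne hSl fun heq => ?_
    have h4 : ∀ R ∈ fam F S H, S = R := by
      intro R hR
      obtain ⟨h5, h6, -⟩ := mem_fam.mp hR
      exact eq_of_subset_of_card_le h6 (by rw [(hF R h5).2, heq])
    have h5 : (fam F S H).card ≤ 1 :=
      card_le_one.mpr fun R hR R' hR' => (h4 R hR).symm.trans (h4 R' hR')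
    have h6 : H = ∅ := by
      rw [← h4 R₀ hR₀, sdiff_self] at h3
      exact subset_empty.mp h3
    rw [h6, card_empty, pow_zero, mul_one, heq] at hΦ
    have h7 : (fam F S ∅).card * K ^ l ≤ 1 * K ^ l := Nat.mul_le_mul_right _ (h6 ▸ h5)
    rw [one_mul] at h7
    exact absurd hΦ (not_lt.mpr h7)
  have hbad := bad_bound hl hκ hK1 hK hF hmax hR₀
  have hsum := card_filter_add_card_filter_not (s := fam F S H)
    (fun R => ∀ p ∈ R \ S, ¬ (Sum.inl p.1 ∈ H ∧ Sum.inr p.2 ∈ H))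
  have hG : 3 * (fam F S H).card ≤ 4 * ((fam F S H).filter
      (fun R => ∀ p ∈ R \ S, ¬ (Sum.inl p.1 ∈ H ∧ Sum.inr p.2 ∈ H))).card := by
    omega
  refine ⟨S, H, (fam F S H).filter
      (fun R => ∀ p ∈ R \ S, ¬ (Sum.inl p.1 ∈ H ∧ Sum.inr p.2 ∈ H)), hSlt, ?_, ?_, ?_, ?_, ?_⟩
  · intro R hR
    exact (mem_fam.mp (mem_filter.mp hR).1).1
  · rw [← card_pos]
    omega
  · intro R hR
    exact (mem_fam.mp (mem_filter.mp hR).1).2
  · intro R hR
    exact (mem_filter.mp hR).2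
  · intro J _ hJH
    refine le_trans (Nat.mul_le_mul_left 3 ?_) hG
    have hsub : ((fam F S H).filter
        (fun R => ∀ p ∈ R \ S, ¬ (Sum.inl p.1 ∈ H ∧ Sum.inr p.2 ∈ H))).filter
        (fun R => J ⊆ verts (R \ S)) ⊆ fam F S (H ∪ J) := by
      intro R hR
      obtain ⟨hR1, hR2⟩ := mem_filter.mp hR
      obtain ⟨hR3, hR4, hR5⟩ := mem_fam.mp (mem_filter.mp hR1).1
      exact mem_fam.mpr ⟨hR3, hR4, union_subset hR5 hR2⟩
    have h4 := hmax S (H ∪ J)
    rw [card_union_of_disjoint hJH.symm] at h4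
    have h5 : 0 < K ^ S.card * κ ^ H.card := Nat.mul_pos (Nat.pow_pos hK1) (Nat.pow_pos hκ)
    refine (Nat.mul_le_mul_right _ (card_le_card hsub)).trans ?_
    refine Nat.le_of_mul_le_mul_left ?_ h5
    calc K ^ S.card * κ ^ H.card * ((fam F S (H ∪ J)).card * κ ^ J.card)
        = (fam F S (H ∪ J)).card * K ^ S.card * κ ^ (H.card + J.card) := by ring
      _ ≤ (fam F S H).card * K ^ S.card * κ ^ H.card := h4
      _ = K ^ S.card * κ ^ H.card * (fam F S H).card := by ring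

end Pool.Agent.Lib_MP_22d2c8_pm
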