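import Pool.Agent.Lib_MP_22d2c8_pm.Defs

/-!
# FLOWER B: the light vertices and the patterns
-/

namespace Pool.Agent.Lib_MP_22d2c8_pm

open Finset

/-- A matching with `k` edges has `2 * k` ends. -/
theorem verts_card {m : ℕ} {T : Finset (Ed m)} (hT : IsMatch T) : (verts T).card = 2 * T.card := by
  have h1 : Disjoint (T.image fun p => (Sum.inl p.1 : Vx m)) (T.image fun p => Sum.inr p.2) := by
    rw [disjoint_left]
    intro u hu hv
    obtain ⟨p, -, rfl⟩ := mem_image.mp hu
    obtain ⟨q, -, hq⟩ := mem_image.mp hv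
    exact Sum.inr_ne_inl hq
  have h2 : (T.image fun p => (Sum.inl p.1 : Vx m)).card = T.card := by
    refine card_image_of_injOn fun p hp q hq h => ?_
    by_contra hne
    exact (hT p hp q hq hne).1 (Sum.inl_injective h)
  have h3 : (T.image fun p => (Sum.inr p.2 : Vx m)).card = T.card := by
    refine card_image_of_injOn fun p hp q hq h => ?_
    by_contra hne
    exact (hT p hp q hq hne).2 (Sum.inr_injective h)
  unfold verts
  rw [card_union_of_disjoint h1, h2, h3, two_mul]

/-- The vertices of the matching `T` outside `H`, if no edge of `T` is inside `H`: every edge has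
an end outside `H`, so `H` has at most `T.card` vertices. -/
theorem light_card {m : ℕ} {T : Finset (Ed m)} {H : Finset (Vx m)} (hT : IsMatch T)
    (hH : H ⊆ verts T) (hin : ∀ p ∈ T, ¬ (Sum.inl p.1 ∈ H ∧ Sum.inr p.2 ∈ H)) :
    (verts T \ H).card = 2 * T.card - H.card ∧ H.card ≤ T.card := by
  classical
  refine ⟨by rw [card_sdiff_of_subset hH, verts_card hT], ?_⟩
  have h1 : H ⊆ T.image fun p => if (Sum.inl p.1 : Vx m) ∈ H then Sum.inl p.1 else Sum.inr p.2 := by
    intro u hu
    rw [mem_image]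
    rcases u with i | j
    · obtain ⟨p, hp, rfl⟩ := inl_mem_verts.mp (hH hu)
      exact ⟨p, hp, by rw [if_pos hu]⟩
    · obtain ⟨p, hp, rfl⟩ := inr_mem_verts.mp (hH hu)
      exact ⟨p, hp, by rw [if_neg fun h => hin p hp ⟨h, hu⟩]⟩
  exact (card_le_card h1).trans card_image_le

open Classical in
/-- The pattern of the matching `T` on its vertices outside `H`: the colour of the other end of the
edge if this end is in `H`, and the colour one otherwise. -/
noncomputable def pat {m : ℕ} (T : Finset (Ed m)) (H : Finset (Vx m)) (x' : Vx m → Bool)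
    (u : Vx m) : Bool :=
  decide (∀ p ∈ T, (Sum.inl p.1 = u → Sum.inr p.2 ∈ H → x' (Sum.inr p.2) = true) ∧
    (Sum.inr p.2 = u → Sum.inl p.1 ∈ H → x' (Sum.inl p.1) = true))

private theorem pat_inl {m : ℕ} {T : Finset (Ed m)} {H : Finset (Vx m)} (hT : IsMatch T)
    {x' : Vx m → Bool} {p : Ed m} (hp : p ∈ T) :
    pat T H x' (Sum.inl p.1) = true ↔ (Sum.inr p.2 ∈ H → x' (Sum.inr p.2) = true) := by
  unfold pat
  rw [decide_eq_true_iff]
  constructor
  · intro h
    exact (h p hp).1 rfl
  · intro h q hq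
    refine ⟨fun h1 h2 => ?_, fun h1 => absurd h1 Sum.inr_ne_inl⟩
    have h3 : q = p := by
      by_contra hne
      exact (hT q hq p hp hne).1 (Sum.inl_injective h1)
    rw [h3] at h2 ⊢
    exact h h2

private theorem pat_inr {m : ℕ} {T : Finset (Ed m)} {H : Finset (Vx m)} (hT : IsMatch T)
    {x' : Vx m → Bool} {p : Ed m} (hp : p ∈ T) :
    pat T H x' (Sum.inr p.2) = true ↔ (Sum.inl p.1 ∈ H → x' (Sum.inl p.1) = true) := by
  unfold pat
  rw [decide_eq_true_iff]
  constructor
  · intro h
    exact (h p hp).2 rfl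
  · intro h q hq
    refine ⟨fun h1 => absurd h1 Sum.inl_ne_inr, fun h1 h2 => ?_⟩
    have h3 : q = p := by
      by_contra hne
      exact (hT q hq p hp hne).2 (Sum.inr_injective h1)
    rw [h3] at h2 ⊢
    exact h h2

/-- If the colouring is `x'` on `H` and the pattern of `T` on the other vertices of `T` then all
the edges of `T` have ends of equal colours. PROOF: let `p ∈ T`; not both ends are in `H`. If the
right end is in `H` and the left end is not: the left end is in `verts T \ H`, its colour is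
`pat T H x' (inl p.1)`, which is `x' (inr p.2)` because `p` is the only edge of the matching `T` with
the left end `p.1`, and this is the colour of the right end. The same if the left end is in `H`. If no
end is in `H`, both colours are `true`. -/
theorem agree_of_pat {m : ℕ} {T : Finset (Ed m)} {H : Finset (Vx m)} (hT : IsMatch T)
    (hin : ∀ p ∈ T, ¬ (Sum.inl p.1 ∈ H ∧ Sum.inr p.2 ∈ H)) (x' x : Vx m → Bool)
    (h : ∀ u ∈ verts T \ H, x u = pat T H x' u) : T ⊆ agree (H.piecewise x' x) := by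
  intro p hp
  rw [mem_agree]
  have hl : (Sum.inl p.1 : Vx m) ∈ verts T := inl_mem_verts.mpr ⟨p, hp, rfl⟩
  have hr : (Sum.inr p.2 : Vx m) ∈ verts T := inr_mem_verts.mpr ⟨p, hp, rfl⟩
  by_cases h1 : (Sum.inl p.1 : Vx m) ∈ H
  · have h2 : (Sum.inr p.2 : Vx m) ∉ H := fun h2 => hin p hp ⟨h1, h2⟩
    rw [piecewise_eq_of_mem _ _ _ h1, piecewise_eq_of_notMem _ _ _ h2,
      h _ (mem_sdiff.mpr ⟨hr, h2⟩), Bool.eq_iff_iff, pat_inr hT hp]
    exact ⟨fun h3 _ => h3, fun h3 => h3 h1⟩
  · rw [piecewise_eq_of_notMem _ _ _ h1, h _ (mem_sdiff.mpr ⟨hl, h1⟩), Bool.eq_iff_iff,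
      pat_inl hT hp]
    by_cases h2 : (Sum.inr p.2 : Vx m) ∈ H
    · rw [piecewise_eq_of_mem _ _ _ h2]
      exact ⟨fun h3 => h3 h2, fun h3 _ => h3⟩
    · rw [piecewise_eq_of_notMem _ _ _ h2, h _ (mem_sdiff.mpr ⟨hr, h2⟩), pat_inr hT hp]
      exact ⟨fun _ h3 => absurd h3 h1, fun _ h3 => absurd h3 h2⟩

end Pool.Agent.Lib_MP_22d2c8_pm
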