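import Pool.Agent.Lib_MP_22d2c8_pm.Sm
import Pool.Agent.Lib_MP_22d2c8_pm.FlA
import Pool.Agent.Lib_MP_22d2c8_pm.FlB

/-!
# FLOWER: the sunflower lemma for matchings

PROOF. Let `κ = 64 * r * w`, `K = 4 * w ^ 2 * κ ^ 2` (`w ≥ 1`: for `l = 0` the family has at most
one member). Take `S`, `H`, `G` from `exists_core`. For `R ∈ G` the set `T = R \ S` is a matching with
`l - S.card` edges, `L R = verts T \ H` has `t = 2 * (l - S.card) - H.card` elements and
`H.card ≤ l - S.card`, so `1 ≤ t ≤ 2 * w` (`light_card`), `32 * r * t ≤ κ`. By `prob_piecewise` the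
probability is the average over `x'` of
`prob (fun x => ∀ R ∈ F, ¬ R ⊆ S ∪ agree (H.piecewise x' x))`, and for every `x'` this is at most
`prob (fun x => ∀ R ∈ G, ∃ u ∈ L R, x u ≠ pat (R \ S) H x' u)` (`agree_of_pat`: otherwise
`R \ S ⊆ agree (H.piecewise x' x)`, so `R ⊆ S ∪ agree ..`), which is at most `(1/2) ^ r` by
`pattern_sunflower` (for `J ⊆ L R` nonempty: `J ⊆ verts (R \ S)`; if `J` meets `H` no `R` has
`J ⊆ L R`; otherwise use the last property of `exists_core`).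
-/

namespace Pool.Agent.Lib_MP_22d2c8_pm

open Finset
open Pool.Agent.Lib_MP_22d2c8_rsf

private theorem isMatch_subset {m : ℕ} {T T' : Finset (Ed m)} (h : IsMatch T) (hs : T' ⊆ T) :
    IsMatch T' := fun p hp q hq hne => h p (hs hp) q (hs hq) hne

/-- A family of sets with `0` elements has at most one member. -/
private theorem card_le_one_of_zero {m : ℕ} {F : Finset (Finset (Ed m))}
    (hF : ∀ R ∈ F, R.card = 0) : F.card ≤ 1 := by
  refine (card_le_card (t := {∅}) fun R hR => ?_).trans (card_singleton _).le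
  rw [mem_singleton]
  exact card_eq_zero.mp (hF R hR)

/-- The probability for a fixed colouring of `H`. -/
private theorem prob_fixed {m w r l : ℕ} (hr : 1 ≤ r) (hl : l ≤ w)
    {F G : Finset (Finset (Ed m))} (hF : ∀ R ∈ F, IsMatch R ∧ R.card = l)
    {S : Finset (Ed m)} {H : Finset (Vx m)} (hS : S.card < l) (hGF : G ⊆ F) (hG : G.Nonempty)
    (h1 : ∀ R ∈ G, S ⊆ R ∧ H ⊆ verts (R \ S))
    (h2 : ∀ R ∈ G, ∀ p ∈ R \ S, ¬ (Sum.inl p.1 ∈ H ∧ Sum.inr p.2 ∈ H))
    (h3 : ∀ J : Finset (Vx m), J.Nonempty → Disjoint J H →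
      3 * ((G.filter (fun R => J ⊆ verts (R \ S))).card * (64 * r * w) ^ J.card)
        ≤ 4 * G.card) (x' : Vx m → Bool) :
    prob (fun x : Vx m → Bool => ∀ R ∈ F, ¬ R ⊆ S ∪ agree (H.piecewise x' x))
      ≤ (1 / 2 : ℝ) ^ r := by
  have hmat : ∀ R ∈ G, IsMatch (R \ S) := fun R hR =>
    isMatch_subset (hF R (hGF hR)).1 sdiff_subset
  have hTc : ∀ R ∈ G, (R \ S).card = l - S.card := fun R hR => by
    rw [card_sdiff_of_subset (h1 R hR).1, (hF R (hGF hR)).2]
  have hlight : ∀ R ∈ G, (verts (R \ S) \ H).card = 2 * (l - S.card) - H.card ∧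
      H.card ≤ l - S.card := fun R hR => by
    have h := light_card (hmat R hR) (h1 R hR).2 (h2 R hR)
    rw [hTc R hR] at h
    exact h
  obtain ⟨R0, hR0⟩ := hG
  have hHc := (hlight R0 hR0).2
  refine (prob_mono (q := fun x : Vx m → Bool =>
    ∀ R ∈ G, ∃ u ∈ verts (R \ S) \ H, x u ≠ pat (R \ S) H x' u) ?_).trans
    (pattern_sunflower G ⟨R0, hR0⟩ (fun R => verts (R \ S) \ H) (fun R => pat (R \ S) H x')
      (t := 2 * (l - S.card) - H.card) (κ := 64 * r * w) (by omega) hr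
      (fun R hR => (hlight R hR).1) ?_ ?_)
  · intro x hx R hR
    by_contra hcon
    push Not at hcon
    have ha := agree_of_pat (hmat R hR) (h2 R hR) x' x hcon
    refine hx R (hGF hR) fun p hp => ?_
    by_cases hpS : p ∈ S
    · exact mem_union_left _ hpS
    · exact mem_union_right _ (ha (mem_sdiff.mpr ⟨hp, hpS⟩))
  · have ht : 2 * (l - S.card) - H.card ≤ 2 * w := by omega
    calc 32 * r * (2 * (l - S.card) - H.card) ≤ 32 * r * (2 * w) :=
          Nat.mul_le_mul_left _ ht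
      _ = 64 * r * w := by ring
  · intro J hJ
    by_cases hd : Disjoint J H
    · refine le_trans ?_ (h3 J hJ hd)
      refine Nat.mul_le_mul_left _ (Nat.mul_le_mul_right _ (card_le_card ?_))
      intro R hR
      rw [mem_filter] at hR ⊢
      exact ⟨hR.1, hR.2.trans sdiff_subset⟩
    · have h0 : G.filter (fun R => J ⊆ verts (R \ S) \ H) = ∅ := by
        rw [filter_eq_empty_iff]
        intro R _ hsub
        exact hd (disjoint_left.mpr fun u hu => (mem_sdiff.mp (hsub hu)).2)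
      show 3 * ((G.filter (fun R => J ⊆ verts (R \ S) \ H)).card * _) ≤ _
      rw [h0, card_empty, zero_mul, mul_zero]
      exact Nat.zero_le _

theorem matching_sunflower {m w r l : ℕ} (hr : 1 ≤ r) (hl : l ≤ w)
    (F : Finset (Finset (Ed m))) (hF : ∀ R ∈ F, IsMatch R ∧ R.card = l)
    (hcard : (4 * w ^ 2 * (64 * r * w) ^ 2) ^ l < F.card) :
    ∃ S : Finset (Ed m), S.card < l ∧ (∃ R ∈ F, S ⊆ R) ∧
      prob (fun x : Vx m → Bool => ∀ R ∈ F, ¬ R ⊆ S ∪ agree x) ≤ (1 / 2 : ℝ) ^ r := by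
  rcases Nat.eq_zero_or_pos l with hl0 | hl0
  · subst hl0
    exfalso
    rw [pow_zero] at hcard
    have := card_le_one_of_zero (F := F) fun R hR => (hF R hR).2
    omega
  · have hw : 1 ≤ w := hl0.trans_le hl |>.trans_le' le_rfl
    have hκ : 1 ≤ 64 * r * w := by
      calc 1 = 1 * 1 * 1 := rfl
        _ ≤ 64 * r * w := Nat.mul_le_mul (Nat.mul_le_mul (by norm_num) hr) hw
    obtain ⟨S, H, G, hS, hGF, hG, h1, h2, h3⟩ := exists_core hl hκ le_rfl F hF hcard
    obtain ⟨R0, hR0⟩ := hG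
    refine ⟨S, hS, ⟨R0, hGF hR0, (h1 R0 hR0).1⟩, ?_⟩
    rw [prob_piecewise H, div_le_iff₀ (by exact_mod_cast Fintype.card_pos)]
    refine (sum_le_card_nsmul _ _ ((1 / 2 : ℝ) ^ r) fun x' _ =>
      prob_fixed hr hl hF hS hGF ⟨R0, hR0⟩ h1 h2 h3 x').trans ?_
    rw [card_univ, nsmul_eq_mul, mul_comm]

end Pool.Agent.Lib_MP_22d2c8_pm
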