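import Pool.Agent.Lib_MP_22d2c8_pm.ParityA

/-!
# PARITY: the random graph `cut` contains a small set of edges with a small positive probability

PROOF. Let `W = verts T`, `W.card ≤ 2 * T.card < 2 * m`, so there is a vertex `z ∉ W`. Let
`E` be the event that `x u = true` for all `u ∈ W`. The number of the `x` in `E` is
`2 ^ (2 m - W.card)`, so its probability is at least `(1 / 4) ^ T.card` (for instance
`Fintype.card_piFinset` as in `rsf/Dist.lean`, or injection). The involution
`x ↦ update x z (!x z)` preserves `E` and changes the parity (`odd_update`), so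
`prob (E and OddOnes) = prob (E and not OddOnes)` (`prob_equiv`), so `prob (E and OddOnes)` is half of
`prob E` (or at least: `prob E ≤ 2 * prob (E and OddOnes)` by `prob_or_le`). If `x` is in `E` and odd
then `fixOdd x = x` and `T ⊆ agree x = cut x`.
-/

namespace Pool.Agent.Lib_MP_22d2c8_pm

open Finset
open Pool.Agent.Lib_MP_22d2c8_rsf

/-- the number of ends of the edges of `T` -/
private theorem card_verts_le {m : ℕ} (T : Finset (Ed m)) : (verts T).card ≤ 2 * T.card := by
  unfold verts
  refine (Finset.card_union_le _ _).trans ?_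
  have h1 : (T.image (fun p => (Sum.inl p.1 : Vx m))).card ≤ T.card := Finset.card_image_le
  have h2 : (T.image (fun p => (Sum.inr p.2 : Vx m))).card ≤ T.card := Finset.card_image_le
  omega

/-- all vertices of `W` have the colour one -/
private theorem prob_ones {V : Type} [Fintype V] [DecidableEq V] (W : Finset V) :
    prob (fun x : V → Bool => ∀ u ∈ W, x u = true) = (1 / 2 : ℝ) ^ W.card := by
  classical
  have h1 : (univ.filter (fun x : V → Bool => ∀ u ∈ W, x u = true)) =
      Fintype.piFinset (fun u => if u ∈ W then ({true} : Finset Bool) else univ) := by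
    ext x
    simp only [Finset.mem_filter, Finset.mem_univ, true_and, Fintype.mem_piFinset]
    refine forall_congr' fun u => ?_
    split_ifs with hu
    · simp [hu]
    · simp [hu]
  rw [prob_eq, h1, Fintype.card_piFinset, Fintype.card_fun, Fintype.card_bool]
  have e1 : ∀ u, (if u ∈ W then ({true} : Finset Bool) else univ).card = if u ∈ W then 1 else 2 := by
    intro u
    split_ifs <;> simp
  rw [Finset.prod_congr rfl fun u _ => e1 u, Finset.prod_ite, Finset.prod_const_one, one_mul,
    Finset.prod_const]
  have h2 : (univ.filter (fun u => ¬ u ∈ W)).card = Fintype.card V - W.card := by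
    rw [Finset.filter_not, Finset.card_sdiff_of_subset (Finset.filter_subset _ _)]
    simp
  rw [h2]
  have h3 : W.card ≤ Fintype.card V := Finset.card_le_univ W
  push_cast
  rw [div_eq_iff (by positivity), one_div, inv_pow, pow_sub₀ (2 : ℝ) two_ne_zero h3, mul_comm]

theorem prob_cut_ge {m : ℕ} [NeZero m] (T : Finset (Ed m)) (hT : T.card < m) :
    (1 / 2 : ℝ) * (1 / 4) ^ T.card ≤ prob (fun x : Vx m → Bool => T ⊆ cut x) := by
  classical
  have hW := card_verts_le T
  -- a vertex outside
  obtain ⟨z, hz⟩ : ∃ z : Vx m, z ∉ verts T := by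
    by_contra hcon
    push Not at hcon
    have h1 : (univ : Finset (Vx m)) ⊆ verts T := fun u _ => hcon u
    have h2 := Finset.card_le_card h1
    rw [Finset.card_univ, Fintype.card_sum, Fintype.card_fin] at h2
    omega
  -- the event
  obtain ⟨E, hE⟩ : ∃ E : (Vx m → Bool) → Prop, ∀ x, E x ↔ ∀ u ∈ verts T, x u = true :=
    ⟨_, fun _ => Iff.rfl⟩
  have hpE : (1 / 4 : ℝ) ^ T.card ≤ prob E := by
    rw [prob_congr hE, prob_ones]
    have h1 : (1 / 4 : ℝ) ^ T.card = (1 / 2) ^ (2 * T.card) := by
      rw [pow_mul]
      norm_num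
    rw [h1]
    exact pow_le_pow_of_le_one (by norm_num) (by norm_num) hW
  -- the involution
  have hinv : Function.Involutive (fun x : Vx m → Bool => Function.update x z (!x z)) := by
    intro x
    show Function.update (Function.update x z (!x z)) z (!(Function.update x z (!x z)) z) = x
    rw [Function.update_self, Function.update_idem, Bool.not_not, Function.update_eq_self]
  have hodd : prob (fun x => E x ∧ ¬ OddOnes x) = prob (fun x => E x ∧ OddOnes x) := by
    rw [← prob_equiv hinv.toPerm (fun x => E x ∧ OddOnes x)]
    refine prob_congr fun x => ?_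
    show E x ∧ ¬ OddOnes x ↔ E (Function.update x z (!x z)) ∧ OddOnes (Function.update x z (!x z))
    rw [odd_update x z]
    have h1 : E (Function.update x z (!x z)) ↔ E x := by
      rw [hE, hE]
      refine forall_congr' fun u => ?_
      refine imp_congr_right fun hu => ?_
      have huz : u ≠ z := fun h => hz (h ▸ hu)
      rw [Function.update_of_ne huz]
    rw [h1]
  have hsplit : prob E ≤ prob (fun x => E x ∧ OddOnes x) + prob (fun x => E x ∧ ¬ OddOnes x) := by
    refine le_trans (prob_mono fun x hx => ?_)
      (prob_or_le (fun x => E x ∧ OddOnes x) (fun x => E x ∧ ¬ OddOnes x))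
    by_cases h : OddOnes x
    · exact Or.inl ⟨hx, h⟩
    · exact Or.inr ⟨hx, h⟩
  have hsub : prob (fun x => E x ∧ OddOnes x) ≤ prob (fun x : Vx m → Bool => T ⊆ cut x) := by
    refine prob_mono fun x hx => ?_
    obtain ⟨h1, h2⟩ := hx
    rw [hE] at h1
    intro p hp
    have h3 : fixOdd x = x := if_pos h2
    show p ∈ agree (fixOdd x)
    rw [h3, mem_agree, h1 _ (inl_mem_verts.2 ⟨p, hp, rfl⟩), h1 _ (inr_mem_verts.2 ⟨p, hp, rfl⟩)]
  rw [hodd] at hsplit
  linarith

end Pool.Agent.Lib_MP_22d2c8_pm
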