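import Pool.Agent.Lib_MP_22d2c8_pm.Defs

/-!
# PERM: the probability that a random permutation contains a given set of edges

PROOF. If no permutation contains `T` the probability is zero. Otherwise let `σ₀` be one with
`T ⊆ permGraph σ₀`; then `T` has `T.card` different first coordinates (`T` is a matching), and
`σ ↦ σ₀⁻¹ * σ` maps the permutations which contain `T` injectively into the permutations which fix
every point of `D = T.image Prod.fst`; these are `(m - T.card)!` many
(`Equiv.Perm.subtypeEquivSubtypePerm`, `Fintype.card_perm`). And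
`m! = (m - l)! * descFactorial m l`, `(m + 1 - l) ^ l ≤ m.descFactorial l`
(`Nat.pow_sub_le_descFactorial`), `m / 2 ≤ m + 1 - l`.
-/

namespace Pool.Agent.Lib_MP_22d2c8_pm

open Finset
open Pool.Agent.Lib_MP_22d2c8_rsf

theorem isMatch_of_subset {m : ℕ} {T : Finset (Ed m)} {σ : Equiv.Perm (Fin m)}
    (h : T ⊆ permGraph σ) : IsMatch T := by
  intro p hp q hq hpq
  have h1 : σ p.1 = p.2 := mem_permGraph.1 (h hp)
  have h2 : σ q.1 = q.2 := mem_permGraph.1 (h hq)
  have h3 : p.1 ≠ q.1 := by
    intro h4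
    apply hpq
    refine Prod.ext h4 ?_
    rw [← h1, ← h2, h4]
  refine ⟨h3, fun h4 => h3 ?_⟩
  apply σ.injective
  rw [h1, h2, h4]

/-- the number of permutations which contain `T` -/
private theorem card_contain {m : ℕ} (T : Finset (Ed m)) (σ₀ : Equiv.Perm (Fin m))
    (h0 : T ⊆ permGraph σ₀) :
    (univ.filter (fun σ : Equiv.Perm (Fin m) => T ⊆ permGraph σ)).card ≤
      (m - T.card).factorial := by
  classical
  set D : Finset (Fin m) := T.image Prod.fst with hD
  have hDcard : D.card = T.card := by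
    apply Finset.card_image_of_injOn
    intro p hp q hq hpq
    by_contra hne
    exact ((isMatch_of_subset h0) p hp q hq hne).1 hpq
  have h1 : Fintype.card {f : Equiv.Perm (Fin m) // ∀ a, ¬ (a ∉ D) → f a = a} =
      (m - T.card).factorial := by
    rw [← Fintype.card_congr (Equiv.Perm.subtypeEquivSubtypePerm (fun a => a ∉ D)),
      Fintype.card_perm, Fintype.card_of_subtype (Dᶜ) (fun x => Finset.mem_compl),
      Finset.card_compl, Fintype.card_fin, hDcard]
  rw [← h1, Fintype.card_subtype]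
  refine Finset.card_le_card_of_injOn (fun σ => σ₀⁻¹ * σ) ?_ ?_
  · intro σ hσ
    have hσ2 : T ⊆ permGraph σ := (Finset.mem_filter.1 hσ).2
    refine Finset.mem_filter.2 ⟨Finset.mem_univ _, fun a ha => ?_⟩
    have ha2 : a ∈ D := not_not.1 ha
    obtain ⟨p, hp, rfl⟩ := Finset.mem_image.1 ha2
    have e1 : σ p.1 = p.2 := mem_permGraph.1 (hσ2 hp)
    have e2 : σ₀ p.1 = p.2 := mem_permGraph.1 (h0 hp)
    change σ₀⁻¹ (σ p.1) = p.1
    rw [e1, ← e2]
    exact σ₀.symm_apply_apply p.1
  · intro σ _ τ _ h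
    exact mul_left_cancel h

theorem perm_prob {m w : ℕ} (hm1 : 1 ≤ m) (hm : 2 * w ≤ m) (T : Finset (Ed m))
    (hT : T.card ≤ w) :
    prob (fun σ : Equiv.Perm (Fin m) => T ⊆ permGraph σ) ≤ (2 / m : ℝ) ^ T.card := by
  classical
  by_cases h : ∃ σ₀ : Equiv.Perm (Fin m), T ⊆ permGraph σ₀
  · obtain ⟨σ₀, h0⟩ := h
    set l := T.card with hl
    have hlm : l ≤ m := by omega
    have h1 := card_contain T σ₀ h0
    have h2 : (m - l).factorial * m.descFactorial l = m.factorial :=
      Nat.factorial_mul_descFactorial hlm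
    have h3 : (m + 1 - l) ^ l ≤ m.descFactorial l := Nat.pow_sub_le_descFactorial m l
    rw [prob_eq, Fintype.card_perm, Fintype.card_fin]
    have hmR : (0 : ℝ) < m := by exact_mod_cast hm1
    have hfm : (0 : ℝ) < (m.factorial : ℝ) := by exact_mod_cast Nat.factorial_pos m
    rw [div_le_iff₀ hfm]
    have h4 : ((univ.filter (fun σ : Equiv.Perm (Fin m) => T ⊆ permGraph σ)).card : ℝ) ≤
        ((m - l).factorial : ℝ) := by exact_mod_cast h1
    refine h4.trans ?_
    rw [← h2]
    push_cast
    have h5 : ((m : ℝ) / 2) ^ l ≤ (m.descFactorial l : ℝ) := by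
      have h6 : (((m + 1 - l) ^ l : ℕ) : ℝ) ≤ (m.descFactorial l : ℝ) := by exact_mod_cast h3
      refine le_trans ?_ h6
      push_cast
      apply pow_le_pow_left₀ (by positivity)
      have h7 : m ≤ 2 * (m + 1 - l) := by omega
      have h8 : (m : ℝ) ≤ 2 * ((m + 1 - l : ℕ) : ℝ) := by exact_mod_cast h7
      linarith
    have h9 : (2 / m : ℝ) ^ l * ((m : ℝ) / 2) ^ l = 1 := by
      rw [← mul_pow, div_mul_div_comm, mul_comm (2 : ℝ) m, div_self (by positivity), one_pow]
    calc ((m - l).factorial : ℝ) = ((m - l).factorial : ℝ) * ((2 / m : ℝ) ^ l * ((m : ℝ) / 2) ^ l) := by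
          rw [h9, mul_one]
      _ ≤ ((m - l).factorial : ℝ) * ((2 / m : ℝ) ^ l * (m.descFactorial l : ℝ)) := by
          apply mul_le_mul_of_nonneg_left _ (Nat.cast_nonneg _)
          exact mul_le_mul_of_nonneg_left h5 (by positivity)
      _ = (2 / m : ℝ) ^ l * (((m - l).factorial : ℝ) * (m.descFactorial l : ℝ)) := by ring
  · push Not at h
    rw [prob_false h]
    positivity

end Pool.Agent.Lib_MP_22d2c8_pm
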