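import Pool.Agent.Lib_MP_22d2c8_rsf.Closure
import Pool.Agent.Lib_MP_22d2c8_pm.Flower
import Pool.Agent.Lib_MP_22d2c8_pm.PermProb
import Pool.Agent.Lib_MP_22d2c8_pm.Parity

/-!
# DIST A: few minimal members, and the tail

PROOF of `layer_card_le`: otherwise `matching_sunflower` with `r = k + 1` gives `S` with
`S.card < l`, a member `R` of `F` with `S ⊆ R`, and (by `prob_cut_le` with
`p E = ∀ R ∈ F, ¬ R ⊆ S ∪ E`)
`prob (fun x => ¬ Hit A (S ∪ cut x)) ≤ 2 * (1/2) ^ (k+1) = (1/2) ^ k` (a member of `F` inside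
`S ∪ cut x` is a hit, `F ⊆ A`). So `S ∈ A` (`A` is closed and `S.card ≤ w`), and `S` is a proper subset
of the minimal member `R` of `A`, a contradiction.
PROOF of `pm_tail`: as `tail_le` in `rsf/Tail.lean`: the event is contained in: there are
`s ∈ Ioc v w` and `T` in the finset `F s` of the minimal members of `A` of size `s` which are matchings
(`isMatch_of_subset`), `T ⊆ permGraph σ`. Union bound: at most
`∑ s ∈ Ioc v w, K ^ s * (2 / m) ^ s ≤ ∑ s ∈ Ioc v w, (1/16) ^ s ≤ (1/16) ^ v / 15`.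
-/

namespace Pool.Agent.Lib_MP_22d2c8_pm

open Finset
open Pool.Agent.Lib_MP_22d2c8_rsf

/-- A closed family has few minimal members which are matchings of size `l`. -/
theorem layer_card_le {m w k l : ℕ} [NeZero m] (hl : l ≤ w) {A : Finset (Finset (Ed m))}
    (hA : Closed w (cut : (Vx m → Bool) → Finset (Ed m)) ((1 / 2 : ℝ) ^ k) A)
    (F : Finset (Finset (Ed m))) (hF : ∀ R ∈ F, IsMatch R ∧ R.card = l ∧ IsMin A R) :
    F.card ≤ (4 * w ^ 2 * (64 * (k + 1) * w) ^ 2) ^ l := by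
  by_contra hcon
  rw [not_le] at hcon
  obtain ⟨S, hSl, ⟨R, hRF, hSR⟩, hp⟩ := matching_sunflower (w := w) (r := k + 1) (l := l)
    (by omega) hl F (fun R hR => ⟨(hF R hR).1, (hF R hR).2.1⟩) hcon
  have h1 : prob (fun x : Vx m → Bool => ¬ Hit A (S ∪ cut x)) ≤ (1 / 2 : ℝ) ^ k := by
    refine (prob_cut_le (fun E => ¬ Hit A (S ∪ E))).trans ?_
    have h2 : prob (fun x : Vx m → Bool => ¬ Hit A (S ∪ agree x)) ≤
        prob (fun x : Vx m → Bool => ∀ R ∈ F, ¬ R ⊆ S ∪ agree x) :=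
      prob_mono (fun x hx R hR hRS => hx ⟨R, (hF R hR).2.2.1, hRS⟩)
    have h3 : (1 / 2 : ℝ) ^ (k + 1) = (1 / 2 : ℝ) ^ k / 2 := by rw [pow_succ]; ring
    linarith
  have hSA : S ∈ A := hA.2 S (by omega) h1
  have hSR' : S = R := (hF R hRF).2.2.2 S hSA hSR
  have hRc := (hF R hRF).2.1
  rw [← hSR'] at hRc
  omega

/-- The tail bound. -/
theorem pm_tail {m w k K : ℕ} [NeZero m] (hK : K = 4 * w ^ 2 * (64 * (k + 1) * w) ^ 2)
    (hKm : 32 * K ≤ m) (hwm : 2 * w < m) {A : Finset (Finset (Ed m))}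
    (hA : Closed w (cut : (Vx m → Bool) → Finset (Ed m)) ((1 / 2 : ℝ) ^ k) A) (v : ℕ) :
    prob (fun σ : Equiv.Perm (Fin m) => ∃ T, IsMin A T ∧ v < T.card ∧ T ⊆ permGraph σ) ≤
      (1 / 16 : ℝ) ^ v / 15 := by
  classical
  have hm0 : 0 < m := Nat.pos_of_ne_zero (NeZero.ne m)
  have hm' : (0 : ℝ) < m := by exact_mod_cast hm0
  have hKm' : (32 : ℝ) * K ≤ m := by exact_mod_cast hKm
  -- the minimal members of size s which are matchings
  let F : ℕ → Finset (Finset (Ed m)) := fun s =>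
    A.filter (fun T => IsMatch T ∧ T.card = s ∧ IsMin A T)
  have hFm : ∀ s T, T ∈ F s ↔ T ∈ A ∧ IsMatch T ∧ T.card = s ∧ IsMin A T := by
    intro s T
    exact Finset.mem_filter
  -- union bound over the sizes
  have h1 : prob (fun σ : Equiv.Perm (Fin m) => ∃ T, IsMin A T ∧ v < T.card ∧ T ⊆ permGraph σ) ≤
      ∑ s ∈ Ioc v w, prob (fun σ : Equiv.Perm (Fin m) => ∃ T ∈ F s, T ⊆ permGraph σ) := by
    refine le_trans (prob_mono (q := fun σ : Equiv.Perm (Fin m) => ∃ s ∈ Ioc v w, ∃ T ∈ F s,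
      T ⊆ permGraph σ) ?_) (prob_exists_le _ _)
    rintro σ ⟨T, hT, hv, hTY⟩
    exact ⟨T.card, Finset.mem_Ioc.mpr ⟨hv, hA.1 T hT.1⟩, T,
      (hFm _ _).2 ⟨hT.1, isMatch_of_subset hTY, rfl, hT⟩, hTY⟩
  have h2 : ∀ s ∈ Ioc v w,
      prob (fun σ : Equiv.Perm (Fin m) => ∃ T ∈ F s, T ⊆ permGraph σ) ≤ (1 / 16 : ℝ) ^ s := by
    intro s hs
    have hsw : s ≤ w := (Finset.mem_Ioc.mp hs).2
    refine (prob_exists_le (F s) (fun T σ => T ⊆ permGraph σ)).trans ?_
    have h3 : ∀ T ∈ F s, prob (fun σ : Equiv.Perm (Fin m) => T ⊆ permGraph σ) ≤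
        (2 / m : ℝ) ^ s := by
      intro T hT
      have hTs : T.card = s := ((hFm _ _).1 hT).2.2.1
      have := perm_prob (w := w) hm0 hwm.le T (by omega)
      rwa [hTs] at this
    refine (Finset.sum_le_sum h3).trans ?_
    rw [Finset.sum_const, nsmul_eq_mul]
    have h4 : ((F s).card : ℝ) ≤ (K : ℝ) ^ s := by
      have h5 := layer_card_le hsw hA (F s) (fun R hR => ((hFm _ _).1 hR).2)
      rw [← hK] at h5
      exact_mod_cast h5
    calc ((F s).card : ℝ) * (2 / m : ℝ) ^ s ≤ (K : ℝ) ^ s * (2 / m : ℝ) ^ s :=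
          mul_le_mul_of_nonneg_right h4 (by positivity)
      _ = (K * (2 / m) : ℝ) ^ s := by rw [← mul_pow]
      _ ≤ (1 / 16 : ℝ) ^ s := by
          refine pow_le_pow_left₀ (by positivity) ?_ s
          rw [← mul_div_assoc, div_le_iff₀ hm']
          linarith
  refine (h1.trans (Finset.sum_le_sum h2)).trans ?_
  rcases le_total v w with hvw | hvw
  · have h5 : ∀ n : ℕ, v ≤ n →
        ∑ s ∈ Ioc v n, (1 / 16 : ℝ) ^ s ≤ ((1 / 16) ^ v - (1 / 16) ^ n) / 15 := by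
      intro n hn
      induction n, hn using Nat.le_induction with
      | base => simp
      | succ n hn ih =>
        rw [Finset.sum_Ioc_succ_top hn, pow_succ]
        linarith
    have h6 := h5 w hvw
    have h7 : (0 : ℝ) ≤ (1 / 16) ^ w := by positivity
    linarith
  · rw [Finset.Ioc_eq_empty (by omega), Finset.sum_empty]
    positivity

end Pool.Agent.Lib_MP_22d2c8_pm
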