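import Pool.Agent.Lib_MP_22d2c8_rsf.Avg

/-!
# DUAL: the dual circuit

PROOFS. `dualOp` does not change the predecessors nor `isArb`, so `acyclic`, `entry`, monotonicity
are the same. `eval` of the dual gate with the values `!a u` is the negation of the `eval` of the gate
(for an arbitrary gate: `P.filter (!a u = true) = P \ P.filter (a u = true)`). `dual_changes`: a
chain `x 0 ≤ .. ≤ x m` with runs `a i` of the dual circuit gives the chain
`i ↦ (fun j => !x (m - i) j)` with the runs `fun u => !a (m - i) u` of `C` (extend arbitrarily beyond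
`m`), and the number of the changes is the same (`i ↦ m - 1 - i` on `range m`).
`dual_accepts`: runs exist (`exists_run` in `gen`) and are unique (`run_unique`,
`accepts_iff` in `rsf/Avg.lean`). `accepts_not`: `dual_accepts` for the dual circuit of ... or
directly: a run of `C` for `!x` is `!` a run of `dual C` for `x` (`dual_isRun` with `x := !x`).
-/

namespace Pool.Agent.Lib_MP_22d2c8_pm

open Finset
open Pool.Agent.Lib_MP_22d2c8_gen (Op Circuit)
open Pool.Agent.Lib_MP_22d2c8_rsf

/-- The dual gate. -/
def dualOp {V : Type} [DecidableEq V] : Op V → Op V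
  | .and P => .or P
  | .or P => .and P
  | .arb P φ => .arb P (fun S => !φ (P \ S))

theorem dualOp_preds {V : Type} [DecidableEq V] (o : Op V) : (dualOp o).preds = o.preds := by
  cases o <;> rfl

theorem dualOp_isArb {V : Type} [DecidableEq V] (o : Op V) : (dualOp o).isArb = o.isArb := by
  cases o <;> rfl

/-- The dual circuit. -/
def dual {n s : ℕ} (C : Circuit n s) : Circuit n s where
  op := fun g => dualOp (C.op g)
  out := C.out
  acyclic := by
    obtain ⟨rank, h⟩ := C.acyclic
    exact ⟨rank, fun g u hu => h g u (by rwa [dualOp_preds] at hu)⟩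

theorem dual_isMonotone {n s : ℕ} (C : Circuit n s) (h : C.IsMonotone) :
    (dual C).IsMonotone := by
  intro g
  show (dualOp (C.op g)).isArb = false
  rw [dualOp_isArb]
  exact h g

private theorem dualOp_eval {V : Type} [DecidableEq V] (a : V → Bool) (o : Op V) :
    (dualOp o).eval (fun u => !a u) = !(o.eval a) := by
  cases o with
  | and P =>
    show decide (∃ u ∈ P, (!a u) = true) = !decide (∀ u ∈ P, a u = true)
    rw [← decide_not]
    apply decide_eq_decide.mpr
    push Not
    constructor
    · rintro ⟨u, hu, h⟩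
      exact ⟨u, hu, by rw [Bool.not_eq_true'] at h; rw [h]; decide⟩
    · rintro ⟨u, hu, h⟩
      exact ⟨u, hu, by rw [Bool.not_eq_true']; exact Bool.eq_false_iff.mpr h⟩
  | or P =>
    show decide (∀ u ∈ P, (!a u) = true) = !decide (∃ u ∈ P, a u = true)
    rw [← decide_not]
    apply decide_eq_decide.mpr
    push Not
    constructor
    · intro h u hu
      have h1 := h u hu
      rw [Bool.not_eq_true'] at h1
      rw [h1]
      decide
    · intro h u hu
      rw [Bool.not_eq_true']
      exact Bool.eq_false_iff.mpr (h u hu)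
  | arb P φ =>
    show (!φ (P \ (P.filter (fun u => (!a u) = true)))) = !φ (P.filter (fun u => a u = true))
    have h : P \ (P.filter (fun u => (!a u) = true)) = P.filter (fun u => a u = true) := by
      ext u
      rw [Finset.mem_sdiff, Finset.mem_filter, Finset.mem_filter]
      cases a u <;> simp
    rw [h]

theorem dual_isRun {n s : ℕ} (C : Circuit n s) (x : Fin n → Bool) (a : Fin n ⊕ Fin s → Bool) :
    (dual C).IsRun (fun j => !x j) (fun u => !a u) ↔ C.IsRun x a := by
  show ((∀ j, (!a (Sum.inl j)) = !x j) ∧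
    ∀ g, (!a (Sum.inr g)) = (dualOp (C.op g)).eval (fun u => !a u)) ↔
    ((∀ j, a (Sum.inl j) = x j) ∧ ∀ g, a (Sum.inr g) = (C.op g).eval a)
  constructor
  · rintro ⟨h1, h2⟩
    refine ⟨fun j => Bool.not_inj (h1 j), fun g => ?_⟩
    have h3 := h2 g
    rw [dualOp_eval] at h3
    exact Bool.not_inj h3
  · rintro ⟨h1, h2⟩
    refine ⟨fun j => by rw [h1 j], fun g => ?_⟩
    rw [dualOp_eval, h2 g]

private theorem dual_isRun' {n s : ℕ} (C : Circuit n s) (x : Fin n → Bool)
    (a : Fin n ⊕ Fin s → Bool) :
    C.IsRun (fun j => !x j) (fun u => !a u) ↔ (dual C).IsRun x a := by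
  rw [← dual_isRun C]
  have h1 : (fun j => !(fun j => !x j) j) = x := by
    funext j
    exact Bool.not_not (x j)
  have h2 : (fun u => !(fun u => !a u) u) = a := by
    funext u
    exact Bool.not_not (a u)
  rw [h1, h2]

private theorem dual_entry {n s : ℕ} (C : Circuit n s) : (dual C).entry = C.entry := by
  unfold Circuit.entry
  ext v
  rw [Finset.mem_biUnion, Finset.mem_biUnion]
  constructor
  · rintro ⟨g, hg, hv⟩
    rw [Finset.mem_filter] at hg
    refine ⟨g, ?_, ?_⟩
    · rw [Finset.mem_filter]
      have h1 : (dualOp (C.op g)).isArb = true := hg.2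
      rw [dualOp_isArb] at h1
      exact ⟨Finset.mem_univ _, h1⟩
    · have h1 : v ∈ (dualOp (C.op g)).preds := hv
      rwa [dualOp_preds] at h1
  · rintro ⟨g, hg, hv⟩
    rw [Finset.mem_filter] at hg
    refine ⟨g, ?_, ?_⟩
    · rw [Finset.mem_filter]
      refine ⟨Finset.mem_univ _, ?_⟩
      show (dualOp (C.op g)).isArb = true
      rw [dualOp_isArb]
      exact hg.2
    · show v ∈ (dualOp (C.op g)).preds
      rwa [dualOp_preds]

theorem dual_changes {n s : ℕ} (C : Circuit n s) (T : ℕ) (h : C.EntryChangesLE T) :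
    (dual C).EntryChangesLE T := by
  intro m x a hx ha
  have h1 := h m (fun i j => !x (m - i) j) (fun i u => !a (m - i) u) ?_ ?_
  · refine le_trans ?_ h1
    apply Finset.card_le_card_of_injOn (fun i => m - 1 - i)
    · intro i hi
      rw [Finset.mem_coe, Finset.mem_filter, Finset.mem_range] at hi
      obtain ⟨him, u, hu, hne⟩ := hi
      rw [Finset.mem_coe, Finset.mem_filter, Finset.mem_range]
      refine ⟨by show m - 1 - i < m; omega, u, ?_, ?_⟩
      · rwa [dual_entry] at hu
      · show (!a (m - (m - 1 - i)) u) ≠ !a (m - (m - 1 - i + 1)) u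
        have e1 : m - (m - 1 - i) = i + 1 := by omega
        have e2 : m - (m - 1 - i + 1) = i := by omega
        rw [e1, e2]
        intro h2
        exact hne (Bool.not_inj h2).symm
    · intro i hi j hj hij
      rw [Finset.mem_coe, Finset.mem_filter, Finset.mem_range] at hi hj
      have hij' : m - 1 - i = m - 1 - j := hij
      omega
  · intro i hi j hj
    show (!x (m - (i + 1)) j) = true
    have hj' : (!x (m - i) j) = true := hj
    rw [Bool.not_eq_true'] at hj' ⊢
    have h2 := hx (m - (i + 1)) (by omega) j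
    have e1 : m - (i + 1) + 1 = m - i := by omega
    rw [e1] at h2
    rw [Bool.eq_false_iff]
    intro h3
    rw [h2 h3] at hj'
    exact Bool.noConfusion hj'
  · intro i hi
    show C.IsRun (fun j => !x (m - i) j) (fun u => !a (m - i) u)
    exact (dual_isRun' C (x (m - i)) (a (m - i))).mpr (ha (m - i) (Nat.sub_le m i))

theorem dual_accepts {n s : ℕ} (C : Circuit n s) (x : Fin n → Bool) :
    Accepts (dual C) (fun j => !x j) ↔ ¬ Accepts C x := by
  obtain ⟨a, ha⟩ := Pool.Agent.Lib_MP_22d2c8_gen.exists_run C x
  rw [accepts_iff C ha, accepts_iff (dual C) ((dual_isRun C x a).mpr ha)]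
  show (!a C.out) = true ↔ ¬ a C.out = true
  cases a C.out <;> simp

theorem accepts_not {n s : ℕ} (C : Circuit n s) (x : Fin n → Bool) :
    Accepts C (fun j => !x j) ↔ ¬ Accepts (dual C) x := by
  obtain ⟨a, ha⟩ := Pool.Agent.Lib_MP_22d2c8_gen.exists_run (dual C) x
  rw [accepts_iff (dual C) ha, accepts_iff C ((dual_isRun' C x a).mpr ha)]
  show (!a C.out) = true ↔ ¬ a C.out = true
  cases a C.out <;> simp

end Pool.Agent.Lib_MP_22d2c8_pm
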