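import Pool.Agent.Lib_MP_22d2c8_pm.Defs

/-!
# Definitions: odd parts, complete host graphs, sets of edges with room for blocks
-/

namespace Pool.Agent.Lib_MP_22d2c8_pm

/-- The subgraph `x` of the host graph has an odd part: a set `A` of vertices with an odd number of
elements such that no edge of `x` joins `A` and its complement; in other words, some connected
component of `x` has an odd number of vertices. -/
def HasOddPart {N : ℕ} (H : Fin N → Fin N → Prop) (x : HostEdge H → Bool) : Prop :=
  ∃ A : Finset (Fin N ⊕ Fin N), Odd A.card ∧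
    ∀ e : HostEdge H, x e = true → (Sum.inl e.1.1 ∈ A ↔ Sum.inr e.1.2 ∈ A)

/-- The complete host graph. -/
def Full (N : ℕ) : Fin N → Fin N → Prop := fun _ _ => True

/-- The set `U` of edges of the host graph has room for `B` blocks. First case: `U` contains `B`
vertex-disjoint complete bipartite graphs with `m + m` vertices, and the host graph has a perfect
matching of the other vertices. Second case: the host graph is complete, `3 * B * m ^ 2 ≤ N` and
`U` contains `B * m ^ 2` pairwise disjoint edges. -/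
def Room {N : ℕ} (H : Fin N → Fin N → Prop) (U : Set (HostEdge H)) (B m : ℕ) : Prop :=
  (∃ (l r : Fin B × Fin m → Fin N) (τ : Equiv.Perm (Fin N)),
    Function.Injective l ∧ Function.Injective r ∧
    (∀ b i j, ∃ h : H (l (b, i)) (r (b, j)), (⟨(l (b, i), r (b, j)), h⟩ : HostEdge H) ∈ U) ∧
    ∀ u, (∀ a, l a ≠ u) → H u (τ u) ∧ ∀ a, r a ≠ τ u) ∨
  ((∀ i j, H i j) ∧ 3 * B * m ^ 2 ≤ N ∧ ∃ M : Finset (HostEdge H), (∀ e ∈ M, e ∈ U) ∧
    (∀ e ∈ M, ∀ e' ∈ M, e ≠ e' → e.1.1 ≠ e'.1.1 ∧ e.1.2 ≠ e'.1.2) ∧ B * m ^ 2 ≤ M.card)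

end Pool.Agent.Lib_MP_22d2c8_pm
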