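import Pool.Agent.Lib_MP_22d2c8_pm.Blocks
import Pool.Agent.Lib_MP_22d2c8_pm.RoomDefs

/-!
# PART: graphs with an odd part
-/

namespace Pool.Agent.Lib_MP_22d2c8_pm

open Finset

/-- A graph with a perfect matching has no odd part. -/
theorem not_oddPart_of_hasPM {N : ℕ} {H : Fin N → Fin N → Prop} {x : HostEdge H → Bool}
    (h : HasPM H x) : ¬ HasOddPart H x := by
  classical
  rintro ⟨A, hodd, hA⟩
  obtain ⟨σ, hσ⟩ := h
  have h1 : A.card = (univ.filter (fun i : Fin N => (Sum.inl i : Fin N ⊕ Fin N) ∈ A)).card +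
      (univ.filter (fun j : Fin N => (Sum.inr j : Fin N ⊕ Fin N) ∈ A)).card := by
    have h2 : A = (univ.filter (fun i : Fin N => (Sum.inl i : Fin N ⊕ Fin N) ∈ A)).map
        ⟨Sum.inl, Sum.inl_injective⟩ ∪
        (univ.filter (fun j : Fin N => (Sum.inr j : Fin N ⊕ Fin N) ∈ A)).map
        ⟨Sum.inr, Sum.inr_injective⟩ := by
      ext u
      rcases u with i | j <;> simp
    conv_lhs => rw [h2]
    rw [Finset.card_union_of_disjoint, Finset.card_map, Finset.card_map]
    rw [Finset.disjoint_left]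
    intro u hu hu'
    rw [Finset.mem_map] at hu hu'
    obtain ⟨i, -, rfl⟩ := hu
    obtain ⟨j, -, hj⟩ := hu'
    simp at hj
  have h3 : (univ.filter (fun i : Fin N => (Sum.inl i : Fin N ⊕ Fin N) ∈ A)).card =
      (univ.filter (fun j : Fin N => (Sum.inr j : Fin N ⊕ Fin N) ∈ A)).card := by
    refine Finset.card_bij (fun i _ => σ i) ?_ (fun a _ b _ h => σ.injective h) ?_
    · intro i hi
      rw [Finset.mem_filter] at hi ⊢
      obtain ⟨hH, hx⟩ := hσ i
      exact ⟨Finset.mem_univ _, (hA ⟨(i, σ i), hH⟩ hx).mp hi.2⟩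
    · intro j hj
      rw [Finset.mem_filter] at hj
      obtain ⟨hH, hx⟩ := hσ (σ.symm j)
      refine ⟨σ.symm j, ?_, σ.apply_symm_apply j⟩
      rw [Finset.mem_filter]
      refine ⟨Finset.mem_univ _, (hA ⟨(σ.symm j, σ (σ.symm j)), hH⟩ hx).mpr ?_⟩
      show (Sum.inr (σ (σ.symm j)) : Fin N ⊕ Fin N) ∈ A
      rw [σ.apply_symm_apply]
      exact hj.2
  rw [h1, h3] at hodd
  exact (Nat.not_odd_iff_even.mpr (Even.add_self _)) hodd

/-- If the complete block number `b` of the input `x` has only edges of `agree y`, for a colouring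
`y` with an odd number of ones, and `x` is zero outside the diagonal blocks, then `x` has an odd
part. -/
theorem hasOddPart_block {N m : ℕ} (hm : 1 ≤ m) {H : Fin N → Fin N → Prop}
    (hH : ∀ i j : Fin N, (i : ℕ) / m = (j : ℕ) / m → H i j) (x : HostEdge H → Bool)
    (h0 : ∀ e : HostEdge H, (e.1.1 : ℕ) / m ≠ (e.1.2 : ℕ) / m → x e = false)
    (b : Fin (N / m)) (y : Vx m → Bool) (hy : OddOnes y)
    (hb : ∀ p : Ed m, x (emb hH b p) = true → p ∈ agree y) : HasOddPart H x := by
  classical
  let ψ : Vx m → Fin N ⊕ Fin N := Sum.map (fun i => vtx b i) (fun j => vtx b j)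
  have hψ : Function.Injective ψ := by
    refine Sum.map_injective.mpr ⟨?_, ?_⟩
    · intro i i' h
      exact (vtx_inj b b i i' h).2
    · intro i i' h
      exact (vtx_inj b b i i' h).2
  refine ⟨(univ.filter (fun u => y u = true)).map ⟨ψ, hψ⟩, ?_, ?_⟩
  · rw [Finset.card_map]
    exact hy
  · intro e he
    have hd : (e.1.1 : ℕ) / m = (e.1.2 : ℕ) / m := by
      by_contra hne
      rw [h0 e hne] at he
      exact absurd he (by simp)
    by_cases hbe : (e.1.1 : ℕ) / m = b
    · obtain ⟨i, hi⟩ := exists_vtx hm e.1.1 b hbe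
      obtain ⟨j, hj⟩ := exists_vtx hm e.1.2 b (hd.symm.trans hbe)
      have h1 : e = emb hH b (i, j) := by
        apply Subtype.ext
        exact Prod.ext hi hj
      rw [h1] at he
      have h2 := mem_agree.mp (hb _ he)
      have e1 : (Sum.inl e.1.1 : Fin N ⊕ Fin N) = ψ (Sum.inl i) := by
        rw [hi]; rfl
      have e2 : (Sum.inr e.1.2 : Fin N ⊕ Fin N) = ψ (Sum.inr j) := by
        rw [hj]; rfl
      rw [e1, e2]
      have key : ∀ u, ψ u ∈ (univ.filter (fun u => y u = true)).map ⟨ψ, hψ⟩ ↔ y u = true := by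
        intro u
        rw [Finset.mem_map]
        constructor
        · rintro ⟨u', hu', huu⟩
          have : u' = u := hψ huu
          rw [← this]
          exact (Finset.mem_filter.mp hu').2
        · intro hu
          exact ⟨u, Finset.mem_filter.mpr ⟨Finset.mem_univ _, hu⟩, rfl⟩
      rw [key, key]
      exact Bool.eq_iff_iff.mp h2
    · have hn1 : (Sum.inl e.1.1 : Fin N ⊕ Fin N) ∉
          (univ.filter (fun u => y u = true)).map ⟨ψ, hψ⟩ := by
        intro h
        rw [Finset.mem_map] at h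
        obtain ⟨u, -, hu⟩ := h
        rcases u with i | j
        · have h3 : vtx b i = e.1.1 := Sum.inl_injective hu
          apply hbe
          rw [← h3, vtx_div]
        · exact absurd hu (by simp [ψ])
      have hn2 : (Sum.inr e.1.2 : Fin N ⊕ Fin N) ∉
          (univ.filter (fun u => y u = true)).map ⟨ψ, hψ⟩ := by
        intro h
        rw [Finset.mem_map] at h
        obtain ⟨u, -, hu⟩ := h
        rcases u with i | j
        · exact absurd hu (by simp [ψ])
        · have h3 : vtx b j = e.1.2 := Sum.inr_injective hu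
          apply hbe
          rw [hd, ← h3, vtx_div]
      exact iff_of_false hn1 hn2

end Pool.Agent.Lib_MP_22d2c8_pm
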