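import Pool.Agent.Lib_MP_22d2c8_clq.Net
import Pool.Agent.Lib_MP_22d2c8_pm.Dist
import Pool.Agent.Lib_MP_22d2c8_pm.Dual
import Pool.Agent.Lib_MP_22d2c8_pm.Part

/-!
# FINAL: perfect matching and few negations
-/

namespace Pool.Agent.Lib_MP_22d2c8_pm

open Finset
open Pool.Agent.Lib_MP_22d2c8_gen (Op Circuit Disj cfgB cfgB_apply)
open Pool.Agent.Lib_MP_22d2c8_rsf
open Pool.Agent.Lib_MP_22d2c8_clq (Net)

/-! ### The inputs -/

/-- The places of the complete diagonal blocks. -/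
def pl {N m n : ℕ} {H : Fin N → Fin N → Prop}
    (hH : ∀ i j : Fin N, (i : ℕ) / m = (j : ℕ) / m → H i j) (e : HostEdge H ≃ Fin n) :
    Fin (N / m) → Fin (m * m) → Fin n :=
  fun b i => e (emb hH b (finProdFinEquiv.symm i))

/-- The background of the complemented inputs: one outside the diagonal blocks. -/
def bg {N n : ℕ} (m : ℕ) {H : Fin N → Fin N → Prop} (e : HostEdge H ≃ Fin n) : Fin n → Bool :=
  fun j => decide (((e.symm j).1.1 : ℕ) / m ≠ ((e.symm j).1.2 : ℕ) / m)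

theorem pl_disj {N m n : ℕ} {H : Fin N → Fin N → Prop}
    (hH : ∀ i j : Fin N, (i : ℕ) / m = (j : ℕ) / m → H i j) (e : HostEdge H ≃ Fin n) :
    Disj (pl hH e) := by
  intro b b' i i' h
  obtain ⟨h1, h2⟩ := emb_inj hH _ _ _ _ (e.injective h)
  exact ⟨h1, finProdFinEquiv.symm.injective h2⟩

theorem bg_pl {N m n : ℕ} {H : Fin N → Fin N → Prop}
    (hH : ∀ i j : Fin N, (i : ℕ) / m = (j : ℕ) / m → H i j) (e : HostEdge H ≃ Fin n)
    (b : Fin (N / m)) (i : Fin (m * m)) : bg m e (pl hH e b i) = false := by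
  unfold bg pl
  rw [Equiv.symm_apply_apply]
  refine decide_eq_false ?_
  intro h
  apply h
  show ((vtx b _ : Fin N) : ℕ) / m = ((vtx b _ : Fin N) : ℕ) / m
  rw [vtx_div, vtx_div]

/-- One block has a perfect matching. -/
def BlkPM (m : ℕ) (y : Fin (m * m) → Bool) : Prop :=
  ∃ σ : Equiv.Perm (Fin m), ∀ i, y (finProdFinEquiv (i, σ i)) = true

theorem blkPM_congr {m : ℕ} {y y' : Fin (m * m) → Bool} (h : ∀ i, y i = y' i) :
    BlkPM m y ↔ BlkPM m y' := by
  have : y = y' := funext h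
  rw [this]

theorem hasPM_cfg {N m n : ℕ} (hm : 1 ≤ m) {H : Fin N → Fin N → Prop}
    (hH : ∀ i j : Fin N, (i : ℕ) / m = (j : ℕ) / m → H i j) (e : HostEdge H ≃ Fin n)
    (y : Fin (N / m) → Fin (m * m) → Bool) :
    HasPM H (fun v => !(cfgB (bg m e) (pl hH e) y (e v))) ↔
      ∀ b, BlkPM m (fun i => !(y b i)) := by
  have h := hasPM_blocks hm hH (fun b p => !(y b (finProdFinEquiv p)))
    (fun v => !(cfgB (bg m e) (pl hH e) y (e v))) ?_ ?_ ?_
  · exact h
  · intro v hv
    have h1 : bg m e (e v) = true := by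
      unfold bg
      rw [Equiv.symm_apply_apply]
      exact decide_eq_true hv
    show (!(cfgB (bg m e) (pl hH e) y (e v))) = false
    unfold cfgB
    rw [h1]
    rfl
  · intro v h1 h2
    have h3 : bg m e (e v) = false := by
      unfold bg
      rw [Equiv.symm_apply_apply]
      refine decide_eq_false ?_
      rw [h1, h2]
      exact fun h => h rfl
    have h4 : ¬ ∃ b i, y b i = true ∧ pl hH e b i = e v := by
      rintro ⟨b, i, -, hbi⟩
      have h5 : emb hH b (finProdFinEquiv.symm i) = v := e.injective hbi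
      rw [← h5] at h1
      have h6 : ((vtx b ((finProdFinEquiv (m := m) (n := m)).symm i).1 : Fin N) : ℕ) / m =
          N / m := h1
      rw [vtx_div] at h6
      have := b.2
      omega
    show (!(cfgB (bg m e) (pl hH e) y (e v))) = true
    unfold cfgB
    rw [h3, decide_eq_false h4]
    rfl
  · intro b p
    show (!(cfgB (bg m e) (pl hH e) y (e (emb hH b p)))) = !(y b (finProdFinEquiv p))
    have h1 : e (emb hH b p) = pl hH e b (finProdFinEquiv p) := by
      unfold pl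
      rw [Equiv.symm_apply_apply]
    rw [h1, cfgB_apply (pl_disj hH e) (bg_pl hH e)]

/-- The bits of a bipartite graph. -/
noncomputable def bits {m : ℕ} (E : Finset (Ed m)) : Fin (m * m) → Bool :=
  fun i => decide ((finProdFinEquiv (m := m) (n := m)).symm i ∈ E)

theorem blkPM_bits {m : ℕ} (E : Finset (Ed m)) :
    BlkPM m (bits E) ↔ ∃ σ : Equiv.Perm (Fin m), permGraph σ ⊆ E := by
  unfold BlkPM bits
  refine exists_congr fun σ => ?_
  constructor
  · intro h p hp
    have h1 := h p.1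
    rw [Equiv.symm_apply_apply, decide_eq_true_eq, mem_permGraph.mp hp] at h1
    exact h1
  · intro h i
    rw [Equiv.symm_apply_apply, decide_eq_true_eq]
    exact h (mem_permGraph.mpr rfl)

theorem blkPM_ones {m : ℕ} : BlkPM m (fun _ => !false) := ⟨1, fun _ => rfl⟩

theorem blkPM_perm {m : ℕ} (σ : Equiv.Perm (Fin m)) : BlkPM m (bits (permGraph σ)) :=
  (blkPM_bits _).mpr ⟨σ, Finset.Subset.refl _⟩

theorem not_blkPM_cut {m : ℕ} [NeZero m] (x : Vx m → Bool) : ¬ BlkPM m (bits (cut x)) := by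
  rw [blkPM_bits]
  rintro ⟨σ, hσ⟩
  exact cut_no_matching x σ hσ

theorem cfg_outside {N m n : ℕ} {H : Fin N → Fin N → Prop}
    (hH : ∀ i j : Fin N, (i : ℕ) / m = (j : ℕ) / m → H i j) (e : HostEdge H ≃ Fin n)
    (y : Fin (N / m) → Fin (m * m) → Bool) (v : HostEdge H)
    (hv : (v.1.1 : ℕ) / m ≠ (v.1.2 : ℕ) / m) :
    (!(cfgB (bg m e) (pl hH e) y (e v))) = false := by
  have h1 : bg m e (e v) = true := by
    unfold bg
    rw [Equiv.symm_apply_apply]
    exact decide_eq_true hv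
  unfold cfgB
  rw [h1]
  rfl

/-- If one block is an odd cut then there is an odd part. -/
theorem oddPart_cfg {N m n : ℕ} [NeZero m] (hm : 1 ≤ m) {H : Fin N → Fin N → Prop}
    (hH : ∀ i j : Fin N, (i : ℕ) / m = (j : ℕ) / m → H i j) (e : HostEdge H ≃ Fin n)
    (y : Fin (N / m) → Fin (m * m) → Bool) (b : Fin (N / m)) (x : Vx m → Bool)
    (hb : y b = fun i => !(bits (cut x) i)) :
    HasOddPart H (fun v => !(cfgB (bg m e) (pl hH e) y (e v))) := by
  refine hasOddPart_block hm hH _ (fun v hv => cfg_outside hH e y v hv) b (fixOdd x)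
    (fixOdd_odd x) ?_
  intro p hp
  have h1 : e (emb hH b p) = pl hH e b (finProdFinEquiv p) := by
    unfold pl
    rw [Equiv.symm_apply_apply]
  rw [h1, cfgB_apply (pl_disj hH e) (bg_pl hH e), hb, Bool.not_not] at hp
  unfold bits at hp
  rw [Equiv.symm_apply_apply, decide_eq_true_eq] at hp
  exact hp

/-- A block input which is allowed before the end of the chain: empty or the complement of a
perfect matching. -/
def Neg (m : ℕ) (y : Fin (m * m) → Bool) : Prop :=
  y = (fun _ => false) ∨ ∃ σ : Equiv.Perm (Fin m), y = fun i => !(bits (permGraph σ) i)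

theorem blkPM_neg {m : ℕ} {y : Fin (m * m) → Bool} (h : Neg m y) : BlkPM m (fun i => !(y i)) := by
  rcases h with rfl | ⟨σ, rfl⟩
  · exact blkPM_ones
  · refine (blkPM_congr fun i => ?_).mp (blkPM_perm σ)
    rw [Bool.not_not]

/-- If all blocks are allowed then there is a perfect matching. -/
theorem hasPM_neg {N m n : ℕ} (hm : 1 ≤ m) {H : Fin N → Fin N → Prop}
    (hH : ∀ i j : Fin N, (i : ℕ) / m = (j : ℕ) / m → H i j) (e : HostEdge H ≃ Fin n)
    (y : Fin (N / m) → Fin (m * m) → Bool) (hy : ∀ b, Neg m (y b)) :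
    HasPM H (fun v => !(cfgB (bg m e) (pl hH e) y (e v))) :=
  (hasPM_cfg hm hH e y).mpr fun b => blkPM_neg (hy b)

/-! ### Circuits -/

theorem net_accepts_iff {V : Type} {s n : ℕ} (e : V ≃ Fin n) (C : Net V s)
    {P : (V → Bool) → Prop} (hC : C.Decides P) (x : V → Bool) : C.Accepts x ↔ P x := by
  obtain ⟨a, ha, hout⟩ := hC x
  rw [← hout]
  constructor
  · rintro ⟨a', ha', h'⟩
    have h1 := Net.isRun_toCircuit C e x a ha
    have h2 := Net.isRun_toCircuit C e x a' ha'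
    have h3 := Pool.Agent.Lib_MP_22d2c8_gen.run_unique _ h1 h2
    have h4 := congrFun h3 (Net.ren s e C.out)
    simp only [Equiv.symm_apply_apply] at h4
    rw [h4]
    exact h'
  · intro h
    exact ⟨a, ha, h⟩

theorem computes_of_accepts {n s : ℕ} (C : Circuit n s) (f : (Fin n → Bool) → Bool)
    (h : ∀ x, Accepts C x ↔ f x = true) : C.Computes f := by
  intro x
  obtain ⟨a, ha⟩ := Pool.Agent.Lib_MP_22d2c8_gen.exists_run C x
  refine ⟨a, ha, ?_⟩
  have h1 := (accepts_iff C ha).symm.trans (h x)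
  rw [Bool.eq_iff_iff]
  exact h1

/-- The dual circuit of a circuit with renamed inputs. -/
theorem accepts_dual_net {V : Type} {s n : ℕ} (e : V ≃ Fin n) (C : Net V s)
    (x : Fin n → Bool) :
    Accepts (dual (C.toCircuit e)) x ↔ ¬ C.Accepts (fun v => !(x (e v))) := by
  have h := accepts_not (C.toCircuit e) x
  rw [Net.accepts_toCircuit] at h
  rw [h, not_not]

theorem two_le_of_pow {v a : ℕ} (h : a + 4 ≤ 2 ^ v) : 2 ≤ v := by
  by_contra hv
  have : v ≤ 1 := by omega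
  have h2 : 2 ^ v ≤ 2 ^ 1 := Nat.pow_le_pow_right (by norm_num) this
  omega

/-- The error term. -/
theorem err_le {v m s : ℕ} (hs : m ^ 2 + s + 4 ≤ 2 ^ v) :
    (((m * m + (s + 3) + 1) ^ 2 : ℕ) : ℝ) * (2 * (1 / 8 : ℝ) ^ v) ≤ 2 * (1 / 2 : ℝ) ^ v := by
  have h2 : (m * m + (s + 3) + 1) ^ 2 ≤ (2 ^ v) ^ 2 := by
    apply Nat.pow_le_pow_left
    have : m ^ 2 = m * m := sq m
    omega
  have h3 : (((m * m + (s + 3) + 1) ^ 2 : ℕ) : ℝ) ≤ (2 ^ v) ^ 2 := by exact_mod_cast h2
  have h4 : ((2 : ℝ) ^ v) ^ 2 * (1 / 8 : ℝ) ^ v = (1 / 2 : ℝ) ^ v := by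
    rw [← pow_mul, mul_comm v 2, pow_mul, ← mul_pow]
    norm_num
  calc (((m * m + (s + 3) + 1) ^ 2 : ℕ) : ℝ) * (2 * (1 / 8 : ℝ) ^ v)
      ≤ (2 ^ v) ^ 2 * (2 * (1 / 8 : ℝ) ^ v) :=
        mul_le_mul_of_nonneg_right h3 (by positivity)
    _ = 2 * (1 / 2 : ℝ) ^ v := by rw [← h4]; ring

/-- The bound for a monotone circuit of one block, in the dual form. -/
theorem dual_hmono {v m s : ℕ} [NeZero m] (hv : 1 ≤ v)
    (hm : 2 ^ 28 * v ^ 6 * (Nat.log 2 m + 1) ^ 2 ≤ m) (hs : m ^ 2 + s + 4 ≤ 2 ^ v)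
    (C' : Circuit (m * m) (s + 3)) (hC' : C'.IsMonotone) :
    prob (fun x : Vx m → Bool => Accepts C' (fun i => !(bits (cut x) i))) ≤
      prob (fun σ : Equiv.Perm (Fin m) => Accepts C' (fun i => !(bits (permGraph σ) i))) +
        2 * (1 / 2 : ℝ) ^ v := by
  have h1 := pm_circuit hv hm (dual C') (dual_isMonotone C' hC')
  have h2 := err_le hs
  have h3 : prob (fun x : Vx m → Bool => Accepts C' (fun i => !(bits (cut x) i))) =
      1 - prob (fun x : Vx m → Bool => Accepts (dual C') (bits (cut x))) := by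
    rw [← prob_not]
    exact prob_congr fun x => accepts_not C' _
  have h4 : prob (fun σ : Equiv.Perm (Fin m) => Accepts C' (fun i => !(bits (permGraph σ) i))) =
      1 - prob (fun σ : Equiv.Perm (Fin m) => Accepts (dual C') (bits (permGraph σ))) := by
    rw [← prob_not]
    exact prob_congr fun x => accepts_not C' _
  rw [h3, h4]
  have h5 : prob (fun σ : Equiv.Perm (Fin m) => Accepts (dual C') (bits (permGraph σ))) ≤
      prob (fun x : Vx m → Bool => Accepts (dual C') (bits (cut x))) +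
        ((m * m + (s + 3) + 1) ^ 2 : ℕ) * (2 * (1 / 8 : ℝ) ^ v) := h1
  linarith

theorem one_le_of_params {v m : ℕ} (hv : 1 ≤ v)
    (hm : 2 ^ 28 * v ^ 6 * (Nat.log 2 m + 1) ^ 2 ≤ m) : 1 ≤ m := by
  have h1 : 1 ≤ 2 ^ 28 * v ^ 6 * (Nat.log 2 m + 1) ^ 2 := by
    have h2 : 0 < 2 ^ 28 * v ^ 6 * (Nat.log 2 m + 1) ^ 2 := by positivity
    omega
  omega

/-! ### The worst case -/

theorem matching_bound {N m v s T : ℕ} {H : Fin N → Fin N → Prop}
    {P : (HostEdge H → Bool) → Prop} (hP1 : ∀ x, HasPM H x → P x)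
    (hP0 : ∀ x, HasOddPart H x → ¬ P x) (hv : 1 ≤ v)
    (hm : 2 ^ 28 * v ^ 6 * (Nat.log 2 m + 1) ^ 2 ≤ m)
    (hH : ∀ i j : Fin N, (i : ℕ) / m = (j : ℕ) / m → H i j)
    (C : Net (HostEdge H) s) (hC : C.Decides P) (hT : C.EntryChangesLE T)
    (hTN : T < N / m) : 2 ^ v < m ^ 2 + s + 4 := by
  classical
  by_contra hcon
  have hs : m ^ 2 + s + 4 ≤ 2 ^ v := not_lt.mp hcon
  have hm1 := one_le_of_params hv hm
  have : NeZero m := ⟨by omega⟩
  obtain ⟨n, ⟨e⟩⟩ := Finite.exists_equiv_fin (HostEdge H)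
  let f : (Fin n → Bool) → Bool := fun x => decide (¬ P (fun v => !(x (e v))))
  let f0 : (Fin (m * m) → Bool) → Bool := fun y => decide (¬ Neg m y)
  have hacc : ∀ x, Accepts (dual (C.toCircuit e)) x ↔ ¬ P (fun v => !(x (e v))) := by
    intro x
    rw [accepts_dual_net, net_accepts_iff e C hC]
  have hcomp : (dual (C.toCircuit e)).Computes f := by
    refine computes_of_accepts _ _ fun x => ?_
    rw [hacc]
    show _ ↔ decide (¬ P (fun v => !(x (e v)))) = true
    rw [decide_eq_true_eq]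
  refine absurd (Pool.Agent.Lib_MP_22d2c8_gen.chain_genB (dual (C.toCircuit e)) f hcomp T
    (dual_changes _ T (Net.changes_toCircuit C e T hT)) (bg m e) (pl hH e) f0
    (decide_eq_false (not_not.mpr (Or.inl rfl))) ?_) (by omega)
  intro x b hxb hx a0 ha0
  have hneg : ∀ b', Neg m (x b') := by
    intro b'
    have h1 : decide (¬ Neg m (x b')) = false := hx b'
    rw [decide_eq_false_iff_not, not_not] at h1
    exact h1
  have h1 := stage (dual (C.toCircuit e)) (bg m e) (pl hH e) (pl_disj hH e) (bg_pl hH e)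
    (fun (σ : Equiv.Perm (Fin m)) i => !(bits (permGraph σ) i))
    (fun (y : Vx m → Bool) i => !(bits (cut y) i)) (2 * (1 / 2 : ℝ) ^ v)
    (fun C' hC' => dual_hmono hv hm hs C' hC') x b hxb
  have h2 : prob (fun y : Vx m → Bool => Accepts (dual (C.toCircuit e))
      (cfgB (bg m e) (pl hH e) (Function.update x b (fun i => !(bits (cut y) i))))) = 1 := by
    refine prob_true fun y => (hacc _).mpr (hP0 _ ?_)
    exact oddPart_cfg hm1 hH e _ b y (Function.update_self _ _ _)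
  have h3 : prob (fun σ : Equiv.Perm (Fin m) => Accepts (dual (C.toCircuit e))
      (cfgB (bg m e) (pl hH e) (Function.update x b
        (fun i => !(bits (permGraph σ) i))))) = 0 := by
    refine prob_false fun σ h => (hacc _).mp h (hP1 _ ?_)
    refine hasPM_neg hm1 hH e _ fun b' => ?_
    by_cases hb : b' = b
    · rw [hb, Function.update_self]
      exact Or.inr ⟨σ, rfl⟩
    · rw [Function.update_of_ne hb]
      exact hneg b'
  rw [h2, h3] at h1
  have h4 : (1 / 2 : ℝ) ^ v ≤ (1 / 2 : ℝ) ^ 2 :=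
    pow_le_pow_of_le_one (by norm_num) (by norm_num) (two_le_of_pow hs)
  norm_num at h4
  have h5 : ∃ σ : Equiv.Perm (Fin m), Changes (dual (C.toCircuit e))
      (cfgB (bg m e) (pl hH e) x) (cfgB (bg m e) (pl hH e) (Function.update x b
        (fun i => !(bits (permGraph σ) i)))) := by
    by_contra hno
    push Not at hno
    rw [prob_false hno] at h1
    linarith
  obtain ⟨σ, a, a', ha, ha', w, hw, hne⟩ := h5
  refine ⟨fun i => !(bits (permGraph σ) i),
    decide_eq_false (not_not.mpr (Or.inr ⟨σ, rfl⟩)), fun a1 ha1 => ⟨w, hw, ?_⟩⟩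
  rw [Pool.Agent.Lib_MP_22d2c8_gen.run_unique _ ha0 ha,
    Pool.Agent.Lib_MP_22d2c8_gen.run_unique _ ha1 ha']
  exact hne

/-! ### The average case -/

theorem matching_avg {N m : ℕ} {H : Fin N → Fin N → Prop} (hm1 : 1 ≤ m) (hmN : m ≤ N)
    (hH : ∀ i j : Fin N, (i : ℕ) / m = (j : ℕ) / m → H i j) :
    ∃ (Ω : Type) (_ : Fintype Ω) (_ : Nonempty Ω) (Z : Ω → HostEdge H → Bool),
      (∀ ω, HasPM H (Z ω) ∨ HasOddPart H (Z ω)) ∧
      ∀ (v s T : ℕ) (C : Net (HostEdge H) s), 1 ≤ v →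
        2 ^ 28 * v ^ 6 * (Nat.log 2 m + 1) ^ 2 ≤ m → m ^ 2 + s + 4 ≤ 2 ^ v →
        C.EntryChangesLE T →
        prob (fun ω => C.Accepts (Z ω) ↔ HasPM H (Z ω)) ≤
          1 / 2 + (T : ℝ) / (2 * (N / m : ℕ)) + (1 / 2 : ℝ) ^ v := by
  classical
  have : NeZero m := ⟨by omega⟩
  obtain ⟨n, ⟨e⟩⟩ := Finite.exists_equiv_fin (HostEdge H)
  have hB : 0 < N / m := Nat.div_pos hmN (by omega)
  have : Nonempty (Fin (N / m)) := ⟨⟨0, hB⟩⟩
  let ΩU := Equiv.Perm (Fin m)
  let ΩY := Vx m → Bool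
  let U : ΩU → Fin (m * m) → Bool := fun σ i => !(bits (permGraph σ) i)
  let Y : ΩY → Fin (m * m) → Bool := fun x i => !(bits (cut x) i)
  let X1 : Fin (N / m) × ((Fin (N / m) → ΩU) × ΩY) → Fin n → Bool := fun p =>
    cfgB (bg m e) (pl hH e) (Function.update (fill U p.1 p.2.1) p.1 (Y p.2.2))
  let X0 : Fin (N / m) × ((Fin (N / m) → ΩU) × ΩY) → Fin n → Bool := fun p =>
    cfgB (bg m e) (pl hH e) (fill U ((p.1 : ℕ) + 1) p.2.1)
  have hO1 : ∀ p, HasOddPart H (fun v => !(X1 p (e v))) := by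
    rintro ⟨b, ω, x⟩
    exact oddPart_cfg hm1 hH e _ b x (Function.update_self _ _ _)
  have hX1 : ∀ p, ¬ HasPM H (fun v => !(X1 p (e v))) := fun p h =>
    not_oddPart_of_hasPM h (hO1 p)
  have hX0 : ∀ p, HasPM H (fun v => !(X0 p (e v))) := by
    rintro ⟨b, ω, x⟩
    refine hasPM_neg hm1 hH e _ fun b' => ?_
    unfold fill
    split_ifs with hlt
    · exact Or.inr ⟨ω b', rfl⟩
    · exact Or.inl rfl
  refine ⟨Bool × (Fin (N / m) × ((Fin (N / m) → ΩU) × ΩY)), inferInstance, inferInstance,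
    fun p j => if p.1 = true then !(X1 p.2 (e j)) else !(X0 p.2 (e j)), ?_, ?_⟩
  · rintro ⟨b, p⟩
    cases b with
    | true => exact Or.inr (by simpa using hO1 p)
    | false => exact Or.inl (by simpa using hX0 p)
  intro v s T C hv hm hs hT
  have h1 := avg_transfer (dual (C.toCircuit e)) T
    (dual_changes _ T (Net.changes_toCircuit C e T hT)) (bg m e) (pl hH e) (pl_disj hH e)
    (bg_pl hH e) U Y (2 * (1 / 2 : ℝ) ^ v) (fun C' hC' => dual_hmono hv hm hs C' hC') hB
  have hpos : prob (fun p : Fin (N / m) × ((Fin (N / m) → ΩU) × ΩY) =>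
      C.Accepts (fun j => !(X1 p (e j))) ↔ HasPM H (fun j => !(X1 p (e j)))) =
      prob (fun p => Accepts (dual (C.toCircuit e)) (X1 p)) :=
    prob_congr fun p => by
      rw [accepts_dual_net]
      simp [hX1 p]
  have hneg : prob (fun p : Fin (N / m) × ((Fin (N / m) → ΩU) × ΩY) =>
      C.Accepts (fun j => !(X0 p (e j))) ↔ HasPM H (fun j => !(X0 p (e j)))) =
      1 - prob (fun p => Accepts (dual (C.toCircuit e)) (X0 p)) := by
    rw [← prob_not]
    exact prob_congr fun p => by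
      rw [accepts_dual_net]
      simp [hX0 p]
  rw [prob_bool]
  simp only [if_true, Bool.false_eq_true, if_false]
  rw [hpos, hneg]
  have h7 : (T : ℝ) / (2 * ((N / m : ℕ) : ℝ)) = (T : ℝ) / ((N / m : ℕ) : ℝ) / 2 := by
    rw [div_div, mul_comm]
  rw [h7]
  have h8 : prob (fun p => Accepts (dual (C.toCircuit e)) (X1 p)) ≤
      prob (fun p => Accepts (dual (C.toCircuit e)) (X0 p)) + (T : ℝ) / ((N / m : ℕ) : ℝ) +
        2 * (1 / 2 : ℝ) ^ v := h1
  linarith

end Pool.Agent.Lib_MP_22d2c8_pm
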