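import Pool.Agent.Lib_MP_22d2c8_pm.IndepA

/-!
# INDEP: events which depend on disjoint sets of coordinates

PROOF of `prob_and_indep`: by `prob_pair_piecewise`, with `p x = A x ∧ B x`:
`prob (A ∧ B) = prob over pairs of (A (pw y1 y2) ∧ B (pw y1 y2)) = prob over pairs of
(A y1 ∧ B y2) = prob A * prob B` (`prob_prod_and`).
PROOF of `prob_groups`: for every finset `s` of `Fin r`:
`prob (fun x => ∀ i ∈ s, bad i x) ≤ (1/2) ^ s.card`, by `Finset.induction_on`; the step is
`prob_and_indep` with `H = {u | c u = i₀}`, `A = bad i₀`, `B = ∀ i ∈ s, bad i` (which depends only on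
coordinates `u` with `c u ≠ i₀`).
-/

namespace Pool.Agent.Lib_MP_22d2c8_pm

open Finset
open Pool.Agent.Lib_MP_22d2c8_rsf

theorem prob_and_indep {X : Type} [Fintype X] [DecidableEq X] (H : Finset X)
    (A B : (X → Bool) → Prop) (hA : ∀ x x', (∀ u ∈ H, x u = x' u) → A x → A x')
    (hB : ∀ x x', (∀ u, u ∉ H → x u = x' u) → B x → B x') :
    prob (fun x => A x ∧ B x) = prob A * prob B := by
  rw [← prob_pair_piecewise H (fun x => A x ∧ B x), ← prob_prod_and A B]
  refine prob_congr fun y => ?_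
  have h1 : ∀ u ∈ H, (H.piecewise y.1 y.2) u = y.1 u := fun u hu =>
    Finset.piecewise_eq_of_mem _ _ _ hu
  have h2 : ∀ u, u ∉ H → (H.piecewise y.1 y.2) u = y.2 u := fun u hu =>
    Finset.piecewise_eq_of_notMem _ _ _ hu
  constructor
  · rintro ⟨ha, hb⟩
    exact ⟨hA _ _ h1 ha, hB _ _ h2 hb⟩
  · rintro ⟨ha, hb⟩
    exact ⟨hA _ _ (fun u hu => (h1 u hu).symm) ha, hB _ _ (fun u hu => (h2 u hu).symm) hb⟩

/-- Events which depend on disjoint sets of coordinates are independent. -/
theorem prob_groups {X : Type} [Fintype X] [DecidableEq X] {r : ℕ} (c : X → Fin r)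
    (bad : Fin r → (X → Bool) → Prop)
    (hdep : ∀ i x x', (∀ u, c u = i → x u = x' u) → bad i x → bad i x') (s : Finset (Fin r))
    (h : ∀ i ∈ s, prob (bad i) ≤ 1 / 2) :
    prob (fun x => ∀ i ∈ s, bad i x) ≤ (1 / 2 : ℝ) ^ s.card := by
  induction s using Finset.induction_on with
  | empty =>
    rw [Finset.card_empty, pow_zero]
    exact prob_le_one _
  | insert i₀ s hi ih =>
    have h1 : prob (fun x : X → Bool => ∀ i ∈ insert i₀ s, bad i x) =
        prob (fun x : X → Bool => bad i₀ x ∧ ∀ i ∈ s, bad i x) :=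
      prob_congr fun x => Finset.forall_mem_insert _ _ _
    have h2 := prob_and_indep (univ.filter fun u => c u = i₀) (bad i₀)
      (fun x => ∀ i ∈ s, bad i x)
      (fun x x' hx hb => hdep i₀ x x'
        (fun u hu => hx u (Finset.mem_filter.2 ⟨Finset.mem_univ _, hu⟩)) hb)
      (fun x x' hx hb i his => hdep i x x' (fun u hu => hx u (fun hmem => by
        have hu0 : c u = i₀ := (Finset.mem_filter.1 hmem).2
        rw [hu] at hu0
        exact hi (hu0 ▸ his))) (hb i his))
    rw [h1, h2, Finset.card_insert_of_notMem hi, pow_succ, mul_comm]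
    exact mul_le_mul (ih fun i his => h i (Finset.mem_insert_of_mem his))
      (h i₀ (Finset.mem_insert_self _ _)) (prob_nonneg _) (by positivity)

end Pool.Agent.Lib_MP_22d2c8_pm
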