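import Pool.Agent.Lib_MP_22d2c8_pm.Defs

/-!
# INDEP A: resampling some coordinates

PROOF. The map `(x', x) ↦ (H.piecewise x' x, H.piecewise x x')` is an involution of the pairs
(`(X → Bool) × (X → Bool)`), so by `prob_equiv` the probability over the pairs of
`p (H.piecewise x' x)` is the probability over the pairs of `p x'`, which is `prob p`
(`prob_prod_eq_avg`, or `prob_prod_and` with a true second event). By `prob_prod_eq_avg` it is also
the average on the right-hand side.
-/

namespace Pool.Agent.Lib_MP_22d2c8_pm

open Finset
open Pool.Agent.Lib_MP_22d2c8_rsf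

/-- The involution which exchanges the coordinates outside `H` of two colourings. -/
private def swapPair {X : Type} [DecidableEq X] (H : Finset X) :
    ((X → Bool) × (X → Bool)) ≃ ((X → Bool) × (X → Bool)) where
  toFun y := (H.piecewise y.1 y.2, H.piecewise y.2 y.1)
  invFun y := (H.piecewise y.1 y.2, H.piecewise y.2 y.1)
  left_inv y := by
    ext u <;> by_cases h : u ∈ H <;> simp [Finset.piecewise, h]
  right_inv y := by
    ext u <;> by_cases h : u ∈ H <;> simp [Finset.piecewise, h]

/-- The pairs with the coordinates in `H` of the first and the others of the second. -/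
theorem prob_pair_piecewise {X : Type} [Fintype X] [DecidableEq X] (H : Finset X)
    (p : (X → Bool) → Prop) :
    prob (fun y : (X → Bool) × (X → Bool) => p (H.piecewise y.1 y.2)) = prob p := by
  have h1 := prob_equiv (swapPair H) (fun y : (X → Bool) × (X → Bool) => p y.1)
  have h2 : (fun y : (X → Bool) × (X → Bool) => p ((swapPair H) y).1)
      = fun y : (X → Bool) × (X → Bool) => p (H.piecewise y.1 y.2) := rfl
  rw [h2] at h1
  rw [h1]
  have h3 := prob_prod_and p (fun _ : X → Bool => True)
  rw [prob_true (p := fun _ : X → Bool => True) (fun _ => trivial), mul_one] at h3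
  rw [← h3]
  exact prob_congr (fun ω => by simp)

/-- Resampling the coordinates in `H`. -/
theorem prob_piecewise {X : Type} [Fintype X] [DecidableEq X] (H : Finset X)
    (p : (X → Bool) → Prop) :
    prob p = (∑ x' : X → Bool, prob (fun x => p (H.piecewise x' x))) /
      (Fintype.card (X → Bool) : ℝ) := by
  rw [← prob_pair_piecewise H p]
  exact prob_prod_eq_avg (fun x' x : X → Bool => p (H.piecewise x' x))

end Pool.Agent.Lib_MP_22d2c8_pm
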