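import Pool.Agent.Lib_MP_22d2c8_pm.Final

/-!
# INPUTS: perfect matchings of all bipartite graphs, negations at the inputs only

If fewer than about `N ^ 2 / m` variables are negated then there are `m` rows and `m` columns
without a negated variable in common.
-/

namespace Pool.Agent.Lib_MP_22d2c8_pm

open Finset
open Pool.Agent.Lib_MP_22d2c8_gen (Op Circuit Disj cfgB cfgB_apply)
open Pool.Agent.Lib_MP_22d2c8_rsf
open Pool.Agent.Lib_MP_22d2c8_clq (Net)

/-- There are `m` rows (a block) and `m` columns with no element of `W` in common. -/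
theorem exists_free {N m : ℕ} (hm : 1 ≤ m) (hmN : m ≤ N) (W : Finset (HostEdge (Full N)))
    (hW : W.card ≤ (N / m) * (N - m)) :
    ∃ (b : Fin (N / m)) (c : Fin m → Fin N), Function.Injective c ∧
      ∀ (i j : Fin m) (h : Full N (vtx b i) (c j)), (⟨(vtx b i, c j), h⟩ : HostEdge (Full N)) ∉ W := by
  classical
  have hB : 0 < N / m := Nat.div_pos hmN (by omega)
  have hpig : ∃ b : Fin (N / m),
      (W.filter (fun e => ((e.1.1 : Fin N) : ℕ) / m = (b : ℕ))).card ≤ N - m := by
    by_contra hno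
    push Not at hno
    have h1 : ∑ b : Fin (N / m),
        (W.filter (fun e => ((e.1.1 : Fin N) : ℕ) / m = (b : ℕ))).card ≤ W.card := by
      rw [← Finset.card_biUnion]
      · refine Finset.card_le_card ?_
        intro e he
        rw [Finset.mem_biUnion] at he
        obtain ⟨b, -, hb⟩ := he
        exact (Finset.mem_filter.mp hb).1
      · intro b _ b' _ hbb
        rw [Function.onFun, Finset.disjoint_left]
        intro e he he'
        have h2 := (Finset.mem_filter.mp he).2
        have h3 := (Finset.mem_filter.mp he').2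
        exact hbb (Fin.ext (h2.symm.trans h3))
    have h2 : ∑ _b : Fin (N / m), (N - m + 1) ≤ ∑ b : Fin (N / m),
        (W.filter (fun e => ((e.1.1 : Fin N) : ℕ) / m = (b : ℕ))).card :=
      Finset.sum_le_sum fun b _ => hno b
    rw [Finset.sum_const, Finset.card_univ, Fintype.card_fin, smul_eq_mul] at h2
    have h3 : (N / m) * (N - m + 1) = (N / m) * (N - m) + N / m := by ring
    omega
  obtain ⟨b, hb⟩ := hpig
  let D : Finset (Fin N) := (W.filter (fun e => ((e.1.1 : Fin N) : ℕ) / m = (b : ℕ))).image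
    (fun e => e.1.2)
  have hD : D.card ≤ N - m := Finset.card_image_le.trans hb
  have hc : m ≤ (univ \ D).card := by
    rw [Finset.card_sdiff_of_subset (Finset.subset_univ _), Finset.card_univ, Fintype.card_fin]
    omega
  obtain ⟨E, hE, hEc⟩ := Finset.exists_subset_card_eq hc
  let f : Fin m ≃ E := (finCongr hEc.symm).trans E.equivFin.symm
  refine ⟨b, fun j => (f j : Fin N), fun j j' h => f.injective (Subtype.ext h), ?_⟩
  intro i j h hmem
  have h1 := hE (f j).2
  rw [Finset.mem_sdiff] at h1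
  apply h1.2
  refine Finset.mem_image.mpr ⟨_, Finset.mem_filter.mpr ⟨hmem, ?_⟩, rfl⟩
  exact vtx_div b i

section Block

variable {N m : ℕ} (b : Fin (N / m)) (c : Fin m → Fin N)

/-- The edge `p` of the block with the rows of the block number `b` and the columns `c`. -/
def emb2 (p : Ed m) : HostEdge (Full N) := ⟨(vtx b p.1, c p.2), trivial⟩

open Classical in
/-- The background of the complemented inputs: one if exactly one of the row and the column is in
the block. -/
noncomputable def bg2 {n : ℕ} (e : HostEdge (Full N) ≃ Fin n) : Fin n → Bool :=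
  fun j => decide (¬ ((∃ i, vtx b i = (e.symm j).1.1) ↔ ∃ i, c i = (e.symm j).1.2))

/-- The places of the block. -/
def pl2 {n : ℕ} (e : HostEdge (Full N) ≃ Fin n) : Fin 1 → Fin (m * m) → Fin n :=
  fun _ i => e (emb2 b c (finProdFinEquiv.symm i))

variable {b c}

theorem emb2_inj (hc : Function.Injective c) {p p' : Ed m} (h : emb2 b c p = emb2 b c p') :
    p = p' := by
  have h1 := congrArg (fun e : HostEdge (Full N) => e.1) h
  have h2 : vtx b p.1 = vtx b p'.1 := congrArg Prod.fst h1
  have h3 : c p.2 = c p'.2 := congrArg Prod.snd h1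
  exact Prod.ext (vtx_inj _ _ _ _ h2).2 (hc h3)

theorem pl2_disj (hc : Function.Injective c) {n : ℕ} (e : HostEdge (Full N) ≃ Fin n) :
    Disj (pl2 b c e) := by
  intro b1 b2 i i' h
  exact ⟨Subsingleton.elim _ _, finProdFinEquiv.symm.injective (emb2_inj hc (e.injective h))⟩

theorem bg2_pl2 {n : ℕ} (e : HostEdge (Full N) ≃ Fin n) (b1 : Fin 1) (i : Fin (m * m)) :
    bg2 b c e (pl2 b c e b1 i) = false := by
  classical
  unfold bg2 pl2
  rw [Equiv.symm_apply_apply]
  refine decide_eq_false (not_not.mpr ?_)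
  exact iff_of_true ⟨_, rfl⟩ ⟨_, rfl⟩

theorem cfg2_in (hc : Function.Injective c) {n : ℕ} (e : HostEdge (Full N) ≃ Fin n)
    (y : Fin 1 → Fin (m * m) → Bool) (p : Ed m) :
    (!(cfgB (bg2 b c e) (pl2 b c e) y (e (emb2 b c p)))) = !(y 0 (finProdFinEquiv p)) := by
  have h1 : e (emb2 b c p) = pl2 b c e 0 (finProdFinEquiv p) := by
    unfold pl2
    rw [Equiv.symm_apply_apply]
  rw [h1, cfgB_apply (pl2_disj hc e) (bg2_pl2 e)]

theorem cfg2_mixed {n : ℕ} (e : HostEdge (Full N) ≃ Fin n)
    (y : Fin 1 → Fin (m * m) → Bool) (v : HostEdge (Full N))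
    (hv : ¬ ((∃ i, vtx b i = v.1.1) ↔ ∃ i, c i = v.1.2)) :
    (!(cfgB (bg2 b c e) (pl2 b c e) y (e v))) = false := by
  classical
  have h1 : bg2 b c e (e v) = true := by
    unfold bg2
    rw [Equiv.symm_apply_apply]
    exact decide_eq_true hv
  unfold cfgB
  rw [h1]
  rfl

theorem cfg2_out {n : ℕ} (e : HostEdge (Full N) ≃ Fin n)
    (y : Fin 1 → Fin (m * m) → Bool) (v : HostEdge (Full N))
    (h1 : ¬ ∃ i, vtx b i = v.1.1) (h2 : ¬ ∃ i, c i = v.1.2) :
    (!(cfgB (bg2 b c e) (pl2 b c e) y (e v))) = true := by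
  classical
  have h3 : bg2 b c e (e v) = false := by
    unfold bg2
    rw [Equiv.symm_apply_apply]
    exact decide_eq_false (not_not.mpr (iff_of_false h1 h2))
  have h4 : ¬ ∃ b1 i, y b1 i = true ∧ pl2 b c e b1 i = e v := by
    rintro ⟨b1, i, -, hbi⟩
    have h5 : emb2 b c (finProdFinEquiv.symm i) = v := e.injective hbi
    apply h1
    rw [← h5]
    exact ⟨_, rfl⟩
  unfold cfgB
  rw [h3, decide_eq_false h4]
  rfl

/-- A perfect matching in the block gives a perfect matching. -/
theorem hasPM_cfg2 (hc : Function.Injective c) {n : ℕ} (e : HostEdge (Full N) ≃ Fin n)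
    (y : Fin 1 → Fin (m * m) → Bool) (h : BlkPM m (fun i => !(y 0 i))) :
    HasPM (Full N) (fun v => !(cfgB (bg2 b c e) (pl2 b c e) y (e v))) := by
  classical
  obtain ⟨σ, hσ⟩ := h
  have hvi : Function.Injective (fun i : Fin m => (vtx b i : Fin N)) := fun i i' h =>
    (vtx_inj _ _ _ _ h).2
  let f : {u : Fin N // ∃ i, vtx b i = u} ≃ {u : Fin N // ∃ i, c i = u} :=
    (Equiv.ofInjective _ hvi).symm.trans (σ.trans (Equiv.ofInjective c hc))
  refine ⟨f.extendSubtype, fun u => ⟨trivial, ?_⟩⟩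
  by_cases hu : ∃ i, vtx b i = u
  · have h1 : f.extendSubtype u = f ⟨u, hu⟩ := f.extendSubtype_apply_of_mem u hu
    obtain ⟨i, rfl⟩ := hu
    have h2 : ((f ⟨vtx b i, ⟨i, rfl⟩⟩ : {u : Fin N // ∃ i, c i = u}) : Fin N) = c (σ i) := by
      have h3 : (Equiv.ofInjective (fun i : Fin m => (vtx b i : Fin N)) hvi).symm
          ⟨vtx b i, ⟨i, rfl⟩⟩ = i := by
        rw [Equiv.symm_apply_eq]
        rfl
      show ((Equiv.ofInjective c hc (σ ((Equiv.ofInjective
        (fun i : Fin m => (vtx b i : Fin N)) hvi).symm ⟨vtx b i, ⟨i, rfl⟩⟩))) : Fin N) = c (σ i)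
      rw [h3]
      rfl
    have h4 : (⟨(vtx b i, f.extendSubtype (vtx b i)), trivial⟩ : HostEdge (Full N)) =
        emb2 b c (i, σ i) := by
      apply Subtype.ext
      show (vtx b i, f.extendSubtype (vtx b i)) = (vtx b i, c (σ i))
      rw [h1, h2]
    rw [h4]
    exact (cfg2_in hc e y (i, σ i)).trans (hσ i)
  · have h1 : ¬ ∃ i, c i = f.extendSubtype u := f.extendSubtype_not_mem u hu
    exact cfg2_out e y ⟨(u, f.extendSubtype u), trivial⟩ hu h1

/-- If the block is an odd cut then there is an odd part. -/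
theorem oddPart_cfg2 [NeZero m] (hc : Function.Injective c) {n : ℕ}
    (e : HostEdge (Full N) ≃ Fin n) (y : Fin 1 → Fin (m * m) → Bool) (x : Vx m → Bool)
    (hb : y 0 = fun i => !(bits (cut x) i)) :
    HasOddPart (Full N) (fun v => !(cfgB (bg2 b c e) (pl2 b c e) y (e v))) := by
  classical
  have hvi : Function.Injective (fun i : Fin m => (vtx b i : Fin N)) := fun i i' h =>
    (vtx_inj _ _ _ _ h).2
  let ψ : Vx m → Fin N ⊕ Fin N := Sum.map (fun i => vtx b i) c
  have hψ : Function.Injective ψ := Sum.map_injective.mpr ⟨hvi, hc⟩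
  refine ⟨(univ.filter (fun u => fixOdd x u = true)).map ⟨ψ, hψ⟩, ?_, ?_⟩
  · rw [Finset.card_map]
    exact fixOdd_odd x
  · intro v hv
    have key : ∀ u, ψ u ∈ (univ.filter (fun u => fixOdd x u = true)).map ⟨ψ, hψ⟩ ↔
        fixOdd x u = true := by
      intro u
      rw [Finset.mem_map]
      constructor
      · rintro ⟨u', hu', huu⟩
        have : u' = u := hψ huu
        rw [← this]
        exact (Finset.mem_filter.mp hu').2
      · intro hu
        exact ⟨u, Finset.mem_filter.mpr ⟨Finset.mem_univ _, hu⟩, rfl⟩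
    have hl : ∀ r : Fin N, (Sum.inl r : Fin N ⊕ Fin N) ∈
        (univ.filter (fun u => fixOdd x u = true)).map ⟨ψ, hψ⟩ → ∃ i, vtx b i = r := by
      intro r hr
      rw [Finset.mem_map] at hr
      obtain ⟨u, -, hu⟩ := hr
      rcases u with i | j
      · exact ⟨i, Sum.inl_injective hu⟩
      · exact absurd hu (by simp [ψ])
    have hr : ∀ r : Fin N, (Sum.inr r : Fin N ⊕ Fin N) ∈
        (univ.filter (fun u => fixOdd x u = true)).map ⟨ψ, hψ⟩ → ∃ i, c i = r := by
      intro r hr
      rw [Finset.mem_map] at hr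
      obtain ⟨u, -, hu⟩ := hr
      rcases u with i | j
      · exact absurd hu (by simp [ψ])
      · exact ⟨j, Sum.inr_injective hu⟩
    by_cases h1 : ∃ i, vtx b i = v.1.1
    · by_cases h2 : ∃ i, c i = v.1.2
      · obtain ⟨i, hi⟩ := h1
        obtain ⟨j, hj⟩ := h2
        have hv' : v = emb2 b c (i, j) := by
          apply Subtype.ext
          exact Prod.ext hi.symm hj.symm
        rw [hv'] at hv
        have hv2 : (!(y 0 (finProdFinEquiv (i, j)))) = true :=
          (cfg2_in hc e y (i, j)).symm.trans hv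
        rw [hb, Bool.not_not] at hv2
        unfold bits at hv2
        rw [Equiv.symm_apply_apply, decide_eq_true_eq] at hv2
        have h3 := mem_agree.mp hv2
        have e1 : (Sum.inl v.1.1 : Fin N ⊕ Fin N) = ψ (Sum.inl i) := by
          rw [← hi]; rfl
        have e2 : (Sum.inr v.1.2 : Fin N ⊕ Fin N) = ψ (Sum.inr j) := by
          rw [← hj]; rfl
        rw [e1, e2, key, key]
        exact Bool.eq_iff_iff.mp h3
      · exact absurd ((cfg2_mixed e y v (fun h => h2 (h.mp h1))).symm.trans hv) (by simp)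
    · by_cases h2 : ∃ i, c i = v.1.2
      · exact absurd ((cfg2_mixed e y v (fun h => h1 (h.mpr h2))).symm.trans hv) (by simp)
      · exact iff_of_false (fun h => h1 (hl _ h)) (fun h => h2 (hr _ h))

end Block

/-- **Negations at the inputs only.** -/
theorem inputs_bound {N m v s : ℕ} {P : (HostEdge (Full N) → Bool) → Prop}
    (hP1 : ∀ x, HasPM (Full N) x → P x) (hP0 : ∀ x, HasOddPart (Full N) x → ¬ P x) (hv : 1 ≤ v)
    (hm : 2 ^ 28 * v ^ 6 * (Nat.log 2 m + 1) ^ 2 ≤ m) (hmN : m ≤ N)
    (C : Net (HostEdge (Full N)) s) (hC : C.Decides P) (W : Finset (HostEdge (Full N)))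
    (hW : ∀ u, C.IsEntry u → ∃ e ∈ W, u = Sum.inl e) (hWc : W.card ≤ (N / m) * (N - m)) :
    2 ^ v < m ^ 2 + s + 4 := by
  classical
  by_contra hcon
  have hs : m ^ 2 + s + 4 ≤ 2 ^ v := not_lt.mp hcon
  have hm1 := one_le_of_params hv hm
  have : NeZero m := ⟨by omega⟩
  obtain ⟨n, ⟨e⟩⟩ := Finite.exists_equiv_fin (HostEdge (Full N))
  obtain ⟨b, c, hc, hfree⟩ := exists_free hm1 hmN W hWc
  have hacc : ∀ x, Accepts (dual (C.toCircuit e)) x ↔ ¬ P (fun v => !(x (e v))) := by
    intro x
    rw [accepts_dual_net, net_accepts_iff e C hC]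
  let x0 : Fin 1 → Fin (m * m) → Bool := fun _ _ => false
  have h1 := stage (dual (C.toCircuit e)) (bg2 b c e) (pl2 b c e) (pl2_disj hc e) (bg2_pl2 e)
    (fun (σ : Equiv.Perm (Fin m)) i => !(bits (permGraph σ) i))
    (fun (y : Vx m → Bool) i => !(bits (cut y) i)) (2 * (1 / 2 : ℝ) ^ v)
    (fun C' hC' => dual_hmono hv hm hs C' hC') x0 0 rfl
  have h2 : prob (fun y : Vx m → Bool => Accepts (dual (C.toCircuit e))
      (cfgB (bg2 b c e) (pl2 b c e) (Function.update x0 0 (fun i => !(bits (cut y) i))))) = 1 := by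
    refine prob_true fun y => (hacc _).mpr (hP0 _ ?_)
    exact oddPart_cfg2 hc e _ y (Function.update_self _ _ _)
  have h3 : prob (fun σ : Equiv.Perm (Fin m) => Accepts (dual (C.toCircuit e))
      (cfgB (bg2 b c e) (pl2 b c e) (Function.update x0 0
        (fun i => !(bits (permGraph σ) i))))) = 0 := by
    refine prob_false fun σ h => (hacc _).mp h (hP1 _ ?_)
    refine hasPM_cfg2 hc e _ ?_
    rw [Function.update_self]
    exact blkPM_neg (Or.inr ⟨σ, rfl⟩)
  have h4 : (1 / 2 : ℝ) ^ v ≤ (1 / 2 : ℝ) ^ 2 :=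
    pow_le_pow_of_le_one (by norm_num) (by norm_num) (two_le_of_pow hs)
  norm_num at h4
  have h5 : ∀ σ : Equiv.Perm (Fin m), ¬ Changes (dual (C.toCircuit e))
      (cfgB (bg2 b c e) (pl2 b c e) x0) (cfgB (bg2 b c e) (pl2 b c e) (Function.update x0 0
        (fun i => !(bits (permGraph σ) i)))) := by
    rintro σ ⟨a, a', ha, ha', w, hw, hne⟩
    rw [Pool.Agent.Lib_MP_22d2c8_gen.mem_entry] at hw
    obtain ⟨g, hg, hgw⟩ := hw
    have hw2 : w ∈ (C.toCircuit e).entry := by
      rw [Pool.Agent.Lib_MP_22d2c8_gen.mem_entry]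
      refine ⟨g, ?_, ?_⟩
      · have h6 : (dualOp ((C.toCircuit e).op g)).isArb = true := hg
        rwa [dualOp_isArb] at h6
      · have h6 : w ∈ (dualOp ((C.toCircuit e).op g)).preds := hgw
        rwa [dualOp_preds] at h6
    rw [Net.mem_entry_toCircuit] at hw2
    obtain ⟨e0, he0, hwe⟩ := hW _ hw2
    have hw3 : w = Sum.inl (e e0) := by
      have h6 : w = (Net.ren s e) ((Net.ren s e).symm w) := (Equiv.apply_symm_apply _ _).symm
      rw [h6, hwe]
      rfl
    apply hne
    rw [hw3, ha.1, ha'.1]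
    have h7 : ∀ i, pl2 b c e 0 i ≠ e e0 := by
      intro i h8
      have h9 : emb2 b c (finProdFinEquiv.symm i) = e0 := e.injective h8
      apply hfree ((finProdFinEquiv.symm i : Ed m)).1 ((finProdFinEquiv.symm i : Ed m)).2 trivial
      have h10 : (⟨(vtx b ((finProdFinEquiv.symm i : Ed m)).1,
          c ((finProdFinEquiv.symm i : Ed m)).2), trivial⟩ : HostEdge (Full N)) = e0 := h9
      rw [h10]
      exact he0
    have h8 : ∀ y : Fin 1 → Fin (m * m) → Bool,
        ¬ ∃ b1 i, y b1 i = true ∧ pl2 b c e b1 i = e e0 := by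
      rintro y ⟨b1, i, -, hbi⟩
      rw [Subsingleton.elim b1 0] at hbi
      exact h7 i hbi
    unfold cfgB
    rw [decide_eq_false (h8 _), decide_eq_false (h8 _)]
  rw [h2, h3, prob_false h5] at h1
  linarith

end Pool.Agent.Lib_MP_22d2c8_pm
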