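import Pool.Agent.Lib_MP_22d2c8_pm.LocalC
import Pool.Agent.Lib_MP_22d2c8_ln.Restrict

/-!
# LOCAL: the number of negations above a set of inputs
-/

namespace Pool.Agent.Lib_MP_22d2c8_pm

open Finset
open Pool.Agent.Lib_MP_22d2c8_rsf
open Pool.Agent.Lib_MP_22d2c8_clq (Net)
open Pool.Agent.Lib_MP_22d2c8_ln (Above ChangesOnLE wiresOn exists_restrict changesOn_wires)

theorem good_of_room {N m B : ℕ} [NeZero m] {H : Fin N → Fin N → Prop} {U : Set (HostEdge H)}
    (h : Room H U B m) : Good H U B m := by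
  classical
  rcases h with ⟨l, r, τ, hl, hr, hU, hτ⟩ | ⟨hH, hN, M, hMU, hM, hcard⟩
  · exact good_full hl hr hU hτ
  · obtain ⟨g⟩ : Nonempty ((Fin B × Ed m) ↪ {e // e ∈ M}) := by
      apply Function.Embedding.nonempty_of_card_le
      simp only [Fintype.card_prod, Fintype.card_fin, Fintype.card_coe]
      rw [← sq]
      exact hcard
    refine good_match hH hN (fun k => (g k : HostEdge H)) (fun k => hMU _ (g k).2) ?_ ?_
    · intro k k' hkk
      by_contra hne
      exact (hM _ (g k).2 _ (g k').2 (fun h => hne (g.injective (Subtype.ext h)))).1 hkk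
    · intro k k' hkk
      by_contra hne
      exact (hM _ (g k).2 _ (g k').2 (fun h => hne (g.injective (Subtype.ext h)))).2 hkk

/-- **The theorem**, worst case and average case. -/
theorem local_main {N m B : ℕ} {H : Fin N → Fin N → Prop} {U : Set (HostEdge H)} (hm1 : 1 ≤ m)
    (hB : 1 ≤ B) (hR : Room H U B m) :
    ∃ (z : HostEdge H → Bool) (Ω : Type) (_ : Fintype Ω) (_ : Nonempty Ω)
      (Z : Ω → HostEdge H → Bool), (∀ ω e, e ∉ U → Z ω e = z e) ∧
      ∀ (v s T : ℕ) (P : (HostEdge H → Bool) → Prop) (C : Net (HostEdge H) s),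
        (∀ x, HasPM H x → P x) → (∀ x, HasOddPart H x → ¬ P x) → 1 ≤ v →
        2 ^ 28 * v ^ 6 * (Nat.log 2 m + 1) ^ 2 ≤ m → ChangesOnLE C U z T →
        ((∀ x, (∀ e, e ∉ U → x e = z e) → (C.Accepts x ↔ P x)) → T < B →
          2 ^ v < m ^ 2 + s + 4) ∧
        (m ^ 2 + s + 4 ≤ 2 ^ v → prob (fun ω => C.Accepts (Z ω) ↔ P (Z ω)) ≤
          1 / 2 + (T : ℝ) / (2 * B) + (1 / 2 : ℝ) ^ v) := by
  classical
  have : NeZero m := ⟨by omega⟩
  obtain ⟨z, φ, hφ, hz, hφU, hG1, hG0⟩ := good_of_room hR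
  obtain ⟨Ω, i1, i2, W, hW, hmain⟩ := local_avg (m := m) (B := B) hB
  have hout : ∀ (E : Fin B → Finset (Ed m)) (e : HostEdge H), e ∉ U → inpL z φ E e = z e := by
    intro E e he
    apply inpL_out
    rintro b p rfl
    exact he (hφU b p)
  refine ⟨z, Ω, i1, i2, fun ω => inpL z φ (W ω), fun ω e he => hout _ e he, ?_⟩
  intro v s T P C hP1 hP0 hv hm hT
  obtain ⟨R, hRC, hRT⟩ := exists_restrict C U z
  constructor
  · intro hC hTB
    refine local_bound hv hm R z φ hφ hz ?_ ?_ (hRT T hT) hTB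
    · intro E hE
      rw [hRC _ (hout E), hC _ (hout E)]
      exact hP1 _ (hG1 E hE)
    · intro E b x hb
      rw [hRC _ (hout E), hC _ (hout E)]
      exact hP0 _ (hG0 E b x hb)
  · intro hs
    have h1 := hmain (HostEdge H) z φ v s T R P hφ hz (fun E hE => hP1 _ (hG1 E hE))
      (fun E b x hb => hP0 _ (hG0 E b x hb)) hv hm hs (hRT T hT)
    refine le_trans (le_of_eq ?_) h1
    refine prob_congr fun ω => ?_
    rw [hRC _ (hout (W ω))]

/-- All inputs, if the host graph contains the diagonal blocks of side `m`. -/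
theorem room_blocks {N m : ℕ} {H : Fin N → Fin N → Prop}
    (hH : ∀ i j : Fin N, (i : ℕ) / m = (j : ℕ) / m → H i j) : Room H Set.univ (N / m) m := by
  refine Or.inl ⟨fun a => vtx a.1 a.2, fun a => vtx a.1 a.2, 1, ?_, ?_, ?_, ?_⟩
  · rintro ⟨b, i⟩ ⟨b', i'⟩ h
    obtain ⟨h1, h2⟩ := vtx_inj b b' i i' h
    rw [h1, h2]
  · rintro ⟨b, i⟩ ⟨b', i'⟩ h
    obtain ⟨h1, h2⟩ := vtx_inj b b' i i' h
    rw [h1, h2]
  · intro b i j
    exact ⟨hH _ _ (by rw [vtx_div, vtx_div]), Set.mem_univ _⟩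
  · intro u hu
    exact ⟨hH u u rfl, hu⟩

/-- A maximal matching. -/
theorem exists_matching {N : ℕ} (U : Finset (HostEdge (Full N))) :
    ∃ M : Finset (HostEdge (Full N)), M ⊆ U ∧
      (∀ e ∈ M, ∀ e' ∈ M, e ≠ e' → e.1.1 ≠ e'.1.1 ∧ e.1.2 ≠ e'.1.2) ∧
      U.card ≤ 2 * M.card * N := by
  classical
  obtain ⟨M, hM, hmax⟩ := Finset.exists_max_image
    (U.powerset.filter (fun M : Finset (HostEdge (Full N)) =>
      ∀ e ∈ M, ∀ e' ∈ M, e ≠ e' → e.1.1 ≠ e'.1.1 ∧ e.1.2 ≠ e'.1.2)) (fun M => M.card)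
    ⟨∅, Finset.mem_filter.mpr ⟨Finset.empty_mem_powerset _, fun e he => absurd he (by simp)⟩⟩
  obtain ⟨hMU, hdis⟩ := Finset.mem_filter.mp hM
  rw [Finset.mem_powerset] at hMU
  refine ⟨M, hMU, hdis, ?_⟩
  have hcov : U ⊆ M.biUnion (fun f =>
      (univ.image (fun j : Fin N => (⟨(f.1.1, j), trivial⟩ : HostEdge (Full N)))) ∪
      (univ.image (fun i : Fin N => (⟨(i, f.1.2), trivial⟩ : HostEdge (Full N))))) := by
    intro e he
    rw [Finset.mem_biUnion]
    by_contra hno
    push Not at hno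
    have hne : ∀ f ∈ M, f.1.1 ≠ e.1.1 ∧ f.1.2 ≠ e.1.2 := by
      intro f hf
      have h1 := hno f hf
      rw [Finset.mem_union, not_or] at h1
      constructor
      · intro h2
        apply h1.1
        refine Finset.mem_image.mpr ⟨e.1.2, Finset.mem_univ _, ?_⟩
        apply Subtype.ext
        exact Prod.ext h2 rfl
      · intro h2
        apply h1.2
        refine Finset.mem_image.mpr ⟨e.1.1, Finset.mem_univ _, ?_⟩
        apply Subtype.ext
        exact Prod.ext rfl h2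
    have heM : e ∉ M := fun h => (hne e h).1 rfl
    have h3 : insert e M ∈ U.powerset.filter (fun M : Finset (HostEdge (Full N)) =>
        ∀ e ∈ M, ∀ e' ∈ M, e ≠ e' → e.1.1 ≠ e'.1.1 ∧ e.1.2 ≠ e'.1.2) := by
      rw [Finset.mem_filter, Finset.mem_powerset]
      refine ⟨Finset.insert_subset he hMU, ?_⟩
      intro f hf f' hf' hff
      rw [Finset.mem_insert] at hf hf'
      rcases hf with rfl | hf <;> rcases hf' with rfl | hf'
      · exact absurd rfl hff
      · exact ⟨(hne f' hf').1.symm, (hne f' hf').2.symm⟩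
      · exact hne f hf
      · exact hdis f hf f' hf' hff
    have h4 := hmax _ h3
    rw [Finset.card_insert_of_notMem heM] at h4
    omega
  refine (Finset.card_le_card hcov).trans ?_
  refine (Finset.card_biUnion_le_card_mul _ _ (2 * N) fun f _ => ?_).trans ?_
  · refine (Finset.card_union_le _ _).trans ?_
    have h1 : (univ.image (fun j : Fin N =>
        (⟨(f.1.1, j), trivial⟩ : HostEdge (Full N)))).card ≤ N :=
      Finset.card_image_le.trans (by rw [Finset.card_univ, Fintype.card_fin])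
    have h2 : (univ.image (fun i : Fin N =>
        (⟨(i, f.1.2), trivial⟩ : HostEdge (Full N)))).card ≤ N :=
      Finset.card_image_le.trans (by rw [Finset.card_univ, Fintype.card_fin])
    omega
  · exact le_of_eq (by ring)

/-- Every set of more than `2 * B * m ^ 2 * N` edges of the complete bipartite graph. -/
theorem room_of_card {N m B : ℕ} (hN : 3 * B * m ^ 2 ≤ N) {U : Set (HostEdge (Full N))}
    (hU : 2 * B * m ^ 2 * N < U.ncard) : Room (Full N) U B m := by
  classical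
  have hfin : U.Finite := Set.toFinite U
  obtain ⟨M, hMU, hM, hcard⟩ := exists_matching hfin.toFinset
  refine Or.inr ⟨fun _ _ => trivial, hN, M, fun e he => hfin.mem_toFinset.mp (hMU he), hM, ?_⟩
  rw [← Set.ncard_eq_toFinset_card U hfin] at hcard
  by_contra hlt
  push Not at hlt
  have h1 : 2 * M.card * N ≤ 2 * (B * m ^ 2) * N :=
    Nat.mul_le_mul_right _ (Nat.mul_le_mul_left _ hlt.le)
  have h2 : 2 * (B * m ^ 2) * N = 2 * B * m ^ 2 * N := by ring
  omega

theorem above_single {V : Type} {s : ℕ} {C : Net V s} {U : Set V} {u : V ⊕ Fin s}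
    (h : Above C U u) : ∃ e ∈ U, Above C {e} u := by
  induction h with
  | var j hj => exact ⟨j, hj, Above.var j rfl⟩
  | gate g u hu _ ih =>
    obtain ⟨e, he, h1⟩ := ih
    exact ⟨e, he, Above.gate g u hu h1⟩

/-- **All but `2 * m ^ 2 * N` inputs lie below an arbitrary gate.** -/
theorem all_below {N m v s : ℕ} {P : (HostEdge (Full N) → Bool) → Prop}
    (C : Net (HostEdge (Full N)) s) (hP1 : ∀ x, HasPM (Full N) x → P x)
    (hP0 : ∀ x, HasOddPart (Full N) x → ¬ P x) (hC : ∀ x, C.Accepts x ↔ P x) (hv : 1 ≤ v)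
    (hm : 2 ^ 28 * v ^ 6 * (Nat.log 2 m + 1) ^ 2 ≤ m) (hN : 3 * m ^ 2 ≤ N)
    (hs : m ^ 2 + s + 4 ≤ 2 ^ v) :
    {e : HostEdge (Full N) | ∀ u, C.IsEntry u → ¬ Above C {e} u}.ncard ≤ 2 * m ^ 2 * N := by
  classical
  by_contra hcon
  push Not at hcon
  have hR : Room (Full N) {e | ∀ u, C.IsEntry u → ¬ Above C {e} u} 1 m :=
    room_of_card (by simpa using hN) (by simpa using hcon)
  obtain ⟨z, Ω, i1, i2, Z, hZ, hmain⟩ := local_main (one_le_of_params hv hm) le_rfl hR
  have hw : wiresOn C {e | ∀ u, C.IsEntry u → ¬ Above C {e} u} = 0 := by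
    unfold wiresOn
    refine Finset.sum_eq_zero fun g hg => ?_
    rw [Finset.mem_filter] at hg
    rw [Finset.card_eq_zero, Finset.filter_eq_empty_iff]
    intro u hu hA
    obtain ⟨e, he, h1⟩ := above_single hA
    exact he u ⟨g, hg.2, hu⟩ h1
  have hT : ChangesOnLE C {e | ∀ u, C.IsEntry u → ¬ Above C {e} u} z 0 := by
    have h1 := changesOn_wires C {e | ∀ u, C.IsEntry u → ¬ Above C {e} u} z
    rw [hw] at h1
    exact h1
  have h2 := (hmain v s 0 P C hP1 hP0 hv hm hT).1 (fun x _ => hC x) (by omega)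
  omega

end Pool.Agent.Lib_MP_22d2c8_pm
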