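import Pool.Agent.Lib_MP_22d2c8_pm.Final

/-!
# LOCAL A: blocks of variables inside an arbitrary set of variables

The input `inpL z φ E` has the values `z` outside the blocks and the bipartite graph `E b` in the
block number `b`; `φ b p` is the variable of the edge `p` of this block.
-/

namespace Pool.Agent.Lib_MP_22d2c8_pm

open Finset
open Pool.Agent.Lib_MP_22d2c8_gen (Op Circuit Disj cfgB cfgB_apply)
open Pool.Agent.Lib_MP_22d2c8_rsf
open Pool.Agent.Lib_MP_22d2c8_clq (Net)

section Inp

variable {V : Type} {B m n : ℕ}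

/-- The input with the graph `E b` in the block number `b` and the values `z` elsewhere. -/
noncomputable def inpL (z : V → Bool) (φ : Fin B → Ed m → V) (E : Fin B → Finset (Ed m))
    (v : V) : Bool :=
  z v && @decide (∀ b p, φ b p = v → p ∈ E b) (Classical.propDecidable _)

theorem inpL_iff {z : V → Bool} {φ : Fin B → Ed m → V} {E : Fin B → Finset (Ed m)} {v : V} :
    inpL z φ E v = true ↔ z v = true ∧ ∀ b p, φ b p = v → p ∈ E b := by
  unfold inpL
  rw [Bool.and_eq_true]
  exact and_congr Iff.rfl (@decide_eq_true_iff _ (Classical.propDecidable _))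

/-- The contents of the blocks for which there is a perfect matching: everything or one perfect
matching. -/
def AllowE (E : Finset (Ed m)) : Prop := E = univ ∨ ∃ σ : Equiv.Perm (Fin m), E = permGraph σ

/-- The complemented content of a block. -/
noncomputable def negE (E : Finset (Ed m)) : Fin (m * m) → Bool := fun i => !(bits E i)

theorem negE_univ : negE (univ : Finset (Ed m)) = fun _ => false := by
  funext i
  unfold negE bits
  rw [decide_eq_true (Finset.mem_univ _)]
  rfl

/-- The places of the blocks. -/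
def plL (e : V ≃ Fin n) (φ : Fin B → Ed m → V) : Fin B → Fin (m * m) → Fin n :=
  fun b i => e (φ b (finProdFinEquiv.symm i))

/-- The background of the complemented inputs. -/
def bgL (e : V ≃ Fin n) (z : V → Bool) : Fin n → Bool := fun j => !(z (e.symm j))

theorem plL_disj (e : V ≃ Fin n) {φ : Fin B → Ed m → V}
    (hφ : ∀ b b' p p', φ b p = φ b' p' → b = b' ∧ p = p') : Disj (plL e φ) := by
  intro b b' i i' h
  obtain ⟨h1, h2⟩ := hφ _ _ _ _ (e.injective h)
  exact ⟨h1, finProdFinEquiv.symm.injective h2⟩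

theorem bgL_plL (e : V ≃ Fin n) {φ : Fin B → Ed m → V} {z : V → Bool}
    (hz : ∀ b p, z (φ b p) = true) (b : Fin B) (i : Fin (m * m)) :
    bgL e z (plL e φ b i) = false := by
  unfold bgL plL
  rw [Equiv.symm_apply_apply, hz]
  rfl

theorem cfg_inpL (e : V ≃ Fin n) (φ : Fin B → Ed m → V) (z : V → Bool)
    (E : Fin B → Finset (Ed m)) :
    (fun v => !(cfgB (bgL e z) (plL e φ) (fun b => negE (E b)) (e v))) = inpL z φ E := by
  classical
  funext v
  have key : (!(cfgB (bgL e z) (plL e φ) (fun b => negE (E b)) (e v))) = true ↔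
      inpL z φ E v = true := by
    rw [inpL_iff]
    unfold cfgB bgL plL
    rw [Equiv.symm_apply_apply, Bool.not_or, Bool.not_not, Bool.and_eq_true]
    refine and_congr Iff.rfl ?_
    rw [Bool.not_eq_true', decide_eq_false_iff_not]
    constructor
    · intro h b p hp
      by_contra hne
      apply h
      refine ⟨b, finProdFinEquiv p, ?_, ?_⟩
      · show (!(bits (E b) (finProdFinEquiv p))) = true
        unfold bits
        rw [Equiv.symm_apply_apply, decide_eq_false hne]
        rfl
      · rw [Equiv.symm_apply_apply, hp]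
    · rintro h ⟨b, i, hi, hbi⟩
      have h1 := h b _ (e.injective hbi)
      have h2 : (!(bits (E b) i)) = true := hi
      unfold bits at h2
      rw [decide_eq_true h1] at h2
      exact absurd h2 (by simp)
  rw [Bool.eq_iff_iff]
  exact key

theorem inpL_place {φ : Fin B → Ed m → V}
    (hφ : ∀ b b' p p', φ b p = φ b' p' → b = b' ∧ p = p') {z : V → Bool}
    (hz : ∀ b p, z (φ b p) = true) (E : Fin B → Finset (Ed m)) (b : Fin B) (p : Ed m) :
    inpL z φ E (φ b p) = true ↔ p ∈ E b := by
  rw [inpL_iff]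
  constructor
  · intro h
    exact h.2 b p rfl
  · intro h
    refine ⟨hz b p, ?_⟩
    intro b' p' hp
    obtain ⟨h1, h2⟩ := hφ _ _ _ _ hp
    rw [h1, h2]
    exact h

theorem inpL_le {φ : Fin B → Ed m → V} {z : V → Bool} {E : Fin B → Finset (Ed m)} {v : V}
    (h : inpL z φ E v = true) : z v = true := by
  exact (inpL_iff.mp h).1

theorem inpL_out {φ : Fin B → Ed m → V} {z : V → Bool} {E : Fin B → Finset (Ed m)} {v : V}
    (h : ∀ b p, φ b p ≠ v) : inpL z φ E v = z v := by
  rw [Bool.eq_iff_iff, inpL_iff]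
  exact ⟨fun h1 => h1.1, fun h1 => ⟨h1, fun b p hp => absurd hp (h b p)⟩⟩

end Inp

theorem accepts_dual_inpL {V : Type} {s n B m : ℕ} (e : V ≃ Fin n) (C : Net V s)
    (φ : Fin B → Ed m → V) (z : V → Bool) (E : Fin B → Finset (Ed m)) :
    Accepts (dual (C.toCircuit e)) (cfgB (bgL e z) (plL e φ) (fun b => negE (E b))) ↔
      ¬ C.Accepts (inpL z φ E) := by
  rw [accepts_dual_net, cfg_inpL]

theorem upd_negE {B m : ℕ} (E : Fin B → Finset (Ed m)) (b : Fin B) (F : Finset (Ed m)) :
    Function.update (fun b => negE (E b)) b (negE F) =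
      fun b' => negE (Function.update E b F b') := by
  funext b'
  by_cases hb : b' = b
  · subst hb
    rw [Function.update_self, Function.update_self]
  · rw [Function.update_of_ne hb, Function.update_of_ne hb]

/-- **The worst case**, for the blocks given by `φ`. -/
theorem local_bound {V : Type} [Fintype V] {B m v s T : ℕ} [NeZero m] (hv : 1 ≤ v)
    (hm : 2 ^ 28 * v ^ 6 * (Nat.log 2 m + 1) ^ 2 ≤ m) (C : Net V s) (z : V → Bool)
    (φ : Fin B → Ed m → V) (hφ : ∀ b b' p p', φ b p = φ b' p' → b = b' ∧ p = p')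
    (hz : ∀ b p, z (φ b p) = true)
    (h1 : ∀ E : Fin B → Finset (Ed m), (∀ b, AllowE (E b)) → C.Accepts (inpL z φ E))
    (h0 : ∀ (E : Fin B → Finset (Ed m)) (b : Fin B) (x : Vx m → Bool), E b = cut x →
      ¬ C.Accepts (inpL z φ E))
    (hT : C.EntryChangesLE T) (hTB : T < B) : 2 ^ v < m ^ 2 + s + 4 := by
  classical
  by_contra hcon
  have hs : m ^ 2 + s + 4 ≤ 2 ^ v := not_lt.mp hcon
  obtain ⟨n, ⟨e⟩⟩ := Finite.exists_equiv_fin V
  let f : (Fin n → Bool) → Bool := fun x => decide (Accepts (dual (C.toCircuit e)) x)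
  let f0 : (Fin (m * m) → Bool) → Bool := fun y => decide (¬ Neg m y)
  have hcomp : (dual (C.toCircuit e)).Computes f := by
    refine computes_of_accepts _ _ fun x => ?_
    show _ ↔ decide (Accepts (dual (C.toCircuit e)) x) = true
    rw [decide_eq_true_eq]
  refine absurd (Pool.Agent.Lib_MP_22d2c8_gen.chain_genB (dual (C.toCircuit e)) f hcomp T
    (dual_changes _ T (Net.changes_toCircuit C e T hT)) (bgL e z) (plL e φ) f0
    (decide_eq_false (not_not.mpr (Or.inl rfl))) ?_) (by omega)
  intro x b hxb hx a0 ha0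
  have hneg : ∀ b', ∃ E : Finset (Ed m), AllowE E ∧ x b' = negE E := by
    intro b'
    have h2 : decide (¬ Neg m (x b')) = false := hx b'
    rw [decide_eq_false_iff_not, not_not] at h2
    rcases h2 with h2 | ⟨σ, h2⟩
    · exact ⟨univ, Or.inl rfl, h2.trans negE_univ.symm⟩
    · exact ⟨permGraph σ, Or.inr ⟨σ, rfl⟩, h2⟩
  choose E hE hxE using hneg
  have hx' : x = fun b => negE (E b) := funext hxE
  have h3 := stage (dual (C.toCircuit e)) (bgL e z) (plL e φ) (plL_disj e hφ) (bgL_plL e hz)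
    (fun (σ : Equiv.Perm (Fin m)) => negE (permGraph σ))
    (fun (y : Vx m → Bool) => negE (cut y)) (2 * (1 / 2 : ℝ) ^ v)
    (fun C' hC' => dual_hmono hv hm hs C' hC') x b hxb
  have h4 : prob (fun y : Vx m → Bool => Accepts (dual (C.toCircuit e))
      (cfgB (bgL e z) (plL e φ) (Function.update x b (negE (cut y))))) = 1 := by
    refine prob_true fun y => ?_
    rw [hx', upd_negE, accepts_dual_inpL]
    exact h0 _ b y (Function.update_self _ _ _)
  have h5 : prob (fun σ : Equiv.Perm (Fin m) => Accepts (dual (C.toCircuit e))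
      (cfgB (bgL e z) (plL e φ) (Function.update x b (negE (permGraph σ))))) = 0 := by
    refine prob_false fun σ h => ?_
    rw [hx', upd_negE, accepts_dual_inpL] at h
    refine h (h1 _ fun b' => ?_)
    by_cases hb : b' = b
    · rw [hb, Function.update_self]
      exact Or.inr ⟨σ, rfl⟩
    · rw [Function.update_of_ne hb]
      exact hE b'
  rw [h4, h5] at h3
  have h6 : (1 / 2 : ℝ) ^ v ≤ (1 / 2 : ℝ) ^ 2 :=
    pow_le_pow_of_le_one (by norm_num) (by norm_num) (two_le_of_pow hs)
  norm_num at h6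
  have h7 : ∃ σ : Equiv.Perm (Fin m), Changes (dual (C.toCircuit e))
      (cfgB (bgL e z) (plL e φ) x) (cfgB (bgL e z) (plL e φ) (Function.update x b
        (negE (permGraph σ)))) := by
    by_contra hno
    push Not at hno
    rw [prob_false hno] at h3
    linarith
  obtain ⟨σ, a, a', ha, ha', w, hw, hne⟩ := h7
  refine ⟨negE (permGraph σ),
    decide_eq_false (not_not.mpr (Or.inr ⟨σ, rfl⟩)), fun a1 ha1 => ⟨w, hw, ?_⟩⟩
  rw [Pool.Agent.Lib_MP_22d2c8_gen.run_unique _ ha0 ha,
    Pool.Agent.Lib_MP_22d2c8_gen.run_unique _ ha1 ha']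
  exact hne

/-- The first `i` blocks are perfect matchings, the others are complete. -/
def fillE {B m : ℕ} (i : ℕ) (ω : Fin B → Equiv.Perm (Fin m)) : Fin B → Finset (Ed m) :=
  fun b => if (b : ℕ) < i then permGraph (ω b) else univ

theorem negE_fillE {B m : ℕ} (i : ℕ) (ω : Fin B → Equiv.Perm (Fin m)) :
    (fun b => negE (fillE i ω b)) =
      fill (fun σ : Equiv.Perm (Fin m) => negE (permGraph σ)) i ω := by
  funext b
  unfold fillE fill
  split_ifs
  · rfl
  · exact negE_univ

theorem allow_fillE {B m : ℕ} (i : ℕ) (ω : Fin B → Equiv.Perm (Fin m)) (b : Fin B) :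
    AllowE (fillE i ω b) := by
  unfold fillE
  split_ifs
  · exact Or.inr ⟨_, rfl⟩
  · exact Or.inl rfl

/-- **The average case**, for the blocks given by `φ`. -/
theorem local_avg {B m : ℕ} [NeZero m] (hB : 0 < B) :
    ∃ (Ω : Type) (_ : Fintype Ω) (_ : Nonempty Ω) (W : Ω → Fin B → Finset (Ed m)),
      (∀ ω, (∀ b, AllowE (W ω b)) ∨ ∃ b x, W ω b = cut x) ∧
      ∀ (V : Type) [Fintype V] (z : V → Bool) (φ : Fin B → Ed m → V)
        (v s T : ℕ) (C : Net V s) (P : (V → Bool) → Prop),
        (∀ b b' p p', φ b p = φ b' p' → b = b' ∧ p = p') → (∀ b p, z (φ b p) = true) →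
        (∀ E : Fin B → Finset (Ed m), (∀ b, AllowE (E b)) → P (inpL z φ E)) →
        (∀ (E : Fin B → Finset (Ed m)) (b : Fin B) (x : Vx m → Bool), E b = cut x →
          ¬ P (inpL z φ E)) → 1 ≤ v →
        2 ^ 28 * v ^ 6 * (Nat.log 2 m + 1) ^ 2 ≤ m → m ^ 2 + s + 4 ≤ 2 ^ v →
        C.EntryChangesLE T →
        prob (fun ω => C.Accepts (inpL z φ (W ω)) ↔ P (inpL z φ (W ω))) ≤
          1 / 2 + (T : ℝ) / (2 * B) + (1 / 2 : ℝ) ^ v := by
  classical
  have : Nonempty (Fin B) := ⟨⟨0, hB⟩⟩
  refine ⟨Bool × (Fin B × ((Fin B → Equiv.Perm (Fin m)) × (Vx m → Bool))), inferInstance,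
    inferInstance, fun p => if p.1 = true then
      Function.update (fillE p.2.1 p.2.2.1) p.2.1 (cut p.2.2.2)
      else fillE ((p.2.1 : ℕ) + 1) p.2.2.1, ?_, ?_⟩
  · rintro ⟨t, b, ω, x⟩
    cases t with
    | true => exact Or.inr ⟨b, x, by simp⟩
    | false => exact Or.inl fun b' => by simpa using allow_fillE _ ω b'
  intro V _ z φ v s T C P hφ hz h1 h0 hv hm hs hT
  obtain ⟨n, ⟨e⟩⟩ := Finite.exists_equiv_fin V
  have h2 := avg_transfer (dual (C.toCircuit e)) T
    (dual_changes _ T (Net.changes_toCircuit C e T hT)) (bgL e z) (plL e φ) (plL_disj e hφ)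
    (bgL_plL e hz) (fun σ : Equiv.Perm (Fin m) => negE (permGraph σ))
    (fun x : Vx m → Bool => negE (cut x)) (2 * (1 / 2 : ℝ) ^ v)
    (fun C' hC' => dual_hmono hv hm hs C' hC') hB
  rw [prob_bool]
  simp only [if_true, Bool.false_eq_true, if_false]
  have hpos : prob (fun p : Fin B × ((Fin B → Equiv.Perm (Fin m)) × (Vx m → Bool)) =>
      C.Accepts (inpL z φ (Function.update (fillE p.1 p.2.1) p.1 (cut p.2.2))) ↔
        P (inpL z φ (Function.update (fillE p.1 p.2.1) p.1 (cut p.2.2)))) =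
      prob (fun p : Fin B × ((Fin B → Equiv.Perm (Fin m)) × (Vx m → Bool)) =>
        Accepts (dual (C.toCircuit e)) (cfgB (bgL e z) (plL e φ) (Function.update
          (fill (fun σ : Equiv.Perm (Fin m) => negE (permGraph σ)) p.1 p.2.1) p.1
          (negE (cut p.2.2))))) := by
    refine prob_congr fun p => ?_
    have h3 : ¬ P (inpL z φ (Function.update (fillE p.1 p.2.1) p.1 (cut p.2.2))) :=
      h0 _ p.1 p.2.2 (Function.update_self _ _ _)
    rw [← negE_fillE, upd_negE, accepts_dual_inpL]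
    simp [h3]
  have hneg : prob (fun p : Fin B × ((Fin B → Equiv.Perm (Fin m)) × (Vx m → Bool)) =>
      C.Accepts (inpL z φ (fillE ((p.1 : ℕ) + 1) p.2.1)) ↔
        P (inpL z φ (fillE ((p.1 : ℕ) + 1) p.2.1))) =
      1 - prob (fun p : Fin B × ((Fin B → Equiv.Perm (Fin m)) × (Vx m → Bool)) =>
        Accepts (dual (C.toCircuit e)) (cfgB (bgL e z) (plL e φ)
          (fill (fun σ : Equiv.Perm (Fin m) => negE (permGraph σ)) ((p.1 : ℕ) + 1) p.2.1))) := by
    rw [← prob_not]
    refine prob_congr fun p => ?_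
    have h3 : P (inpL z φ (fillE ((p.1 : ℕ) + 1) p.2.1)) :=
      h1 _ fun b => allow_fillE _ _ b
    rw [← negE_fillE, accepts_dual_inpL]
    simp [h3]
  have h7 : (T : ℝ) / (2 * (B : ℝ)) = (T : ℝ) / (B : ℝ) / 2 := by
    rw [div_div, mul_comm]
  rw [hpos, hneg, h7]
  linarith

end Pool.Agent.Lib_MP_22d2c8_pm
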