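import Pool.Agent.Lib_MP_22d2c8_pm.LocalA

/-!
# LOCAL B: gadgets in a bipartite host graph

The vertices of the gadget are `L a` (left) and `R a` (right) for `a : X`; `G a a'` says that the
edge between `L a` and `R a'` belongs to the gadget; the variable edges are the pairs `pr b p`;
outside the gadget there is the perfect matching `τ`.
-/

namespace Pool.Agent.Lib_MP_22d2c8_pm

open Finset

section Gadget

variable {N B m : ℕ} {H : Fin N → Fin N → Prop} {X : Type}

/-- The values of the inputs which are not in the blocks (and one in the blocks). -/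
noncomputable def zG (L R : X → Fin N) (G : X → X → Prop) (τ : Equiv.Perm (Fin N))
    (v : HostEdge H) : Bool :=
  @decide ((∃ a a', L a = v.1.1 ∧ R a' = v.1.2 ∧ G a a') ∨
    ((∀ a, L a ≠ v.1.1) ∧ τ v.1.1 = v.1.2)) (Classical.propDecidable _)

theorem zG_iff {L R : X → Fin N} {G : X → X → Prop} {τ : Equiv.Perm (Fin N)}
    {v : HostEdge H} : zG L R G τ v = true ↔
      ((∃ a a', L a = v.1.1 ∧ R a' = v.1.2 ∧ G a a') ∨
        ((∀ a, L a ≠ v.1.1) ∧ τ v.1.1 = v.1.2)) := by
  unfold zG
  exact @decide_eq_true_iff _ (Classical.propDecidable _)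

/-- The edges of the gadget with the contents `E` of the blocks. -/
def GE (G : X → X → Prop) (pr : Fin B → Ed m → X × X) (E : Fin B → Finset (Ed m)) (a a' : X) :
    Prop :=
  G a a' ∧ ∀ b p, pr b p = (a, a') → p ∈ E b

variable {L R : X → Fin N} {G : X → X → Prop} {τ : Equiv.Perm (Fin N)}
  {φ : Fin B → Ed m → HostEdge H} {pr : Fin B → Ed m → X × X}

theorem val_gad (hL : Function.Injective L) (hR : Function.Injective R)
    (hφ : ∀ b p, (φ b p).1 = (L (pr b p).1, R (pr b p).2))
    (E : Fin B → Finset (Ed m)) (v : HostEdge H) (a a' : X) (h1 : L a = v.1.1)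
    (h2 : R a' = v.1.2) :
    inpL (zG L R G τ) φ E v = true ↔ GE G pr E a a' := by
  rw [inpL_iff, zG_iff]
  unfold GE
  refine and_congr ?_ ?_
  · constructor
    · rintro (⟨c, c', hc, hc', hG⟩ | ⟨h, -⟩)
      · rw [hL (hc.trans h1.symm), hR (hc'.trans h2.symm)] at hG
        exact hG
      · exact absurd h1 (h a)
    · intro hG
      exact Or.inl ⟨a, a', h1, h2, hG⟩
  · constructor
    · intro h b p hp
      refine h b p (Subtype.ext ?_)
      rw [hφ, hp]
      exact Prod.ext h1 h2
    · intro h b p hp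
      refine h b p ?_
      have h3 := hφ b p
      rw [hp] at h3
      have h4 : v.1.1 = L (pr b p).1 := congrArg Prod.fst h3
      have h5 : v.1.2 = R (pr b p).2 := congrArg Prod.snd h3
      exact Prod.ext (hL (h4.symm.trans h1.symm)) (hR (h5.symm.trans h2.symm))

theorem val_rest (hφ : ∀ b p, (φ b p).1 = (L (pr b p).1, R (pr b p).2))
    (E : Fin B → Finset (Ed m)) (v : HostEdge H) (h1 : ∀ a, L a ≠ v.1.1) :
    inpL (zG L R G τ) φ E v = true ↔ τ v.1.1 = v.1.2 := by
  rw [inpL_out]
  · rw [zG_iff]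
    constructor
    · rintro (⟨c, c', hc, -⟩ | ⟨-, h⟩)
      · exact absurd hc (h1 c)
      · exact h
    · intro h
      exact Or.inr ⟨h1, h⟩
  · intro b p hp
    have h3 := hφ b p
    rw [hp] at h3
    exact h1 _ (congrArg Prod.fst h3).symm

/-- The input has a perfect matching if the gadget has one. -/
theorem hasPM_gad (hL : Function.Injective L) (hR : Function.Injective R)
    (hφ : ∀ b p, (φ b p).1 = (L (pr b p).1, R (pr b p).2))
    (hG : ∀ a a', G a a' → H (L a) (R a'))
    (hτ : ∀ u, (∀ a, L a ≠ u) → H u (τ u) ∧ ∀ a, R a ≠ τ u)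
    (E : Fin B → Finset (Ed m)) (f : X → X) (hf : Function.Injective f)
    (hE : ∀ a, GE G pr E a (f a)) : HasPM H (inpL (zG L R G τ) φ E) := by
  classical
  have hex : ∀ u : Fin N, ∃ w : Fin N, (∀ a, L a = u → w = R (f a)) ∧
      ((∀ a, L a ≠ u) → w = τ u) := by
    intro u
    by_cases hu : ∃ a, L a = u
    · obtain ⟨a, ha⟩ := hu
      refine ⟨R (f a), fun a' ha' => ?_, fun h => absurd ha (h a)⟩
      rw [hL (ha.trans ha'.symm)]
    · push Not at hu
      exact ⟨τ u, fun a ha => absurd ha (hu a), fun _ => rfl⟩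
  choose g hg1 hg2 using hex
  have hinj : Function.Injective g := by
    intro u u' huu
    by_cases hu : ∃ a, L a = u <;> by_cases hu' : ∃ a, L a = u'
    · obtain ⟨a, ha⟩ := hu
      obtain ⟨a', ha'⟩ := hu'
      rw [hg1 u a ha, hg1 u' a' ha'] at huu
      rw [← ha, ← ha', hf (hR huu)]
    · obtain ⟨a, ha⟩ := hu
      push Not at hu'
      rw [hg1 u a ha, hg2 u' hu'] at huu
      exact absurd huu ((hτ u' hu').2 _)
    · obtain ⟨a', ha'⟩ := hu'
      push Not at hu
      rw [hg1 u' a' ha', hg2 u hu] at huu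
      exact absurd huu.symm ((hτ u hu).2 _)
    · push Not at hu hu'
      rw [hg2 u hu, hg2 u' hu'] at huu
      exact τ.injective huu
  refine ⟨Equiv.ofBijective g (Finite.injective_iff_bijective.1 hinj), fun u => ?_⟩
  show ∃ h : H u (g u), _ = true
  by_cases hu : ∃ a, L a = u
  · obtain ⟨a, ha⟩ := hu
    have h1 : g u = R (f a) := hg1 u a ha
    have h2 : H u (g u) := by
      rw [h1, ← ha]
      exact hG _ _ (hE a).1
    exact ⟨h2, (val_gad hL hR hφ E ⟨(u, g u), h2⟩ a (f a) ha h1.symm).mpr (hE a)⟩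
  · push Not at hu
    have h1 : g u = τ u := hg2 u hu
    have h2 : H u (g u) := by
      rw [h1]
      exact (hτ u hu).1
    exact ⟨h2, (val_rest hφ E ⟨(u, g u), h2⟩ hu).mpr h1.symm⟩

open Classical in
/-- The input has an odd part if the gadget has one. -/
theorem hasOdd_gad [Fintype X] (hL : Function.Injective L) (hR : Function.Injective R)
    (hφ : ∀ b p, (φ b p).1 = (L (pr b p).1, R (pr b p).2))
    (hτ : ∀ u, (∀ a, L a ≠ u) → H u (τ u) ∧ ∀ a, R a ≠ τ u)
    (E : Fin B → Finset (Ed m)) (mL mR : X → Prop)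
    (hm : ∀ a a', GE G pr E a a' → (mL a ↔ mR a'))
    (hodd : Odd ((univ.filter mL).card + (univ.filter mR).card)) :
    HasOddPart H (inpL (zG L R G τ) φ E) := by
  refine ⟨((univ.filter mL).map ⟨L, hL⟩).disjSum ((univ.filter mR).map ⟨R, hR⟩), ?_, ?_⟩
  · rw [Finset.card_disjSum, Finset.card_map, Finset.card_map]
    exact hodd
  · intro v hv
    rw [Finset.inl_mem_disjSum, Finset.inr_mem_disjSum]
    have kL : ∀ a, L a = v.1.1 → (v.1.1 ∈ (univ.filter mL).map ⟨L, hL⟩ ↔ mL a) := by
      intro a ha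
      rw [Finset.mem_map]
      constructor
      · rintro ⟨c, hc, hcv⟩
        have : c = a := hL ((show L c = v.1.1 from hcv).trans ha.symm)
        rw [← this]
        exact (Finset.mem_filter.mp hc).2
      · intro h
        exact ⟨a, Finset.mem_filter.mpr ⟨Finset.mem_univ _, h⟩, ha⟩
    have kR : ∀ a, R a = v.1.2 → (v.1.2 ∈ (univ.filter mR).map ⟨R, hR⟩ ↔ mR a) := by
      intro a ha
      rw [Finset.mem_map]
      constructor
      · rintro ⟨c, hc, hcv⟩
        have : c = a := hR ((show R c = v.1.2 from hcv).trans ha.symm)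
        rw [← this]
        exact (Finset.mem_filter.mp hc).2
      · intro h
        exact ⟨a, Finset.mem_filter.mpr ⟨Finset.mem_univ _, h⟩, ha⟩
    have hz : (∃ a a', L a = v.1.1 ∧ R a' = v.1.2 ∧ G a a') ∨
        ((∀ a, L a ≠ v.1.1) ∧ τ v.1.1 = v.1.2) := zG_iff.mp (inpL_le hv)
    rcases hz with ⟨a, a', ha, ha', -⟩ | ⟨h1, h2⟩
    · rw [kL a ha, kR a' ha']
      exact hm a a' ((val_gad hL hR hφ E v a a' ha ha').mp hv)
    · refine iff_of_false ?_ ?_
      · intro h
        obtain ⟨c, -, hc⟩ := Finset.mem_map.mp h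
        exact h1 c hc
      · intro h
        obtain ⟨c, -, hc⟩ := Finset.mem_map.mp h
        exact (hτ _ h1).2 c (Eq.trans (show R c = v.1.2 from hc) h2.symm)

end Gadget

/-- There are `B` blocks whose variables belong to `U`. -/
def Good {N : ℕ} (H : Fin N → Fin N → Prop) (U : Set (HostEdge H)) (B m : ℕ) [NeZero m] : Prop :=
  ∃ (z : HostEdge H → Bool) (φ : Fin B → Ed m → HostEdge H),
    (∀ b b' p p', φ b p = φ b' p' → b = b' ∧ p = p') ∧ (∀ b p, z (φ b p) = true) ∧
    (∀ b p, φ b p ∈ U) ∧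
    (∀ E : Fin B → Finset (Ed m), (∀ b, AllowE (E b)) → HasPM H (inpL z φ E)) ∧
    (∀ (E : Fin B → Finset (Ed m)) (b : Fin B) (x : Vx m → Bool), E b = cut x →
      HasOddPart H (inpL z φ E))

theorem allowE_perm {m : ℕ} {E : Finset (Ed m)} (h : AllowE E) :
    ∃ σ : Equiv.Perm (Fin m), ∀ i, (i, σ i) ∈ E := by
  rcases h with rfl | ⟨σ, rfl⟩
  · exact ⟨1, fun i => Finset.mem_univ _⟩
  · exact ⟨σ, fun i => mem_permGraph.mpr rfl⟩

/-- The number of the elements of a sum type with a property. -/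
theorem card_filter_sum {α β : Type} [Fintype α] [Fintype β] (p : α ⊕ β → Prop)
    [DecidablePred p] :
    (univ.filter p).card = (univ.filter (fun a => p (Sum.inl a))).card +
      (univ.filter (fun b => p (Sum.inr b))).card := by
  rw [Finset.card_filter, Fintype.sum_sum_type, ← Finset.card_filter, ← Finset.card_filter]

/-- The number of the elements of one block with a property. -/
theorem card_filter_blk {B : ℕ} {α : Type} [Fintype α] (b0 : Fin B) (p : α → Prop)
    [DecidablePred p] [DecidablePred fun a : Fin B × α => a.1 = b0 ∧ p a.2] :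
    (univ.filter (fun a : Fin B × α => a.1 = b0 ∧ p a.2)).card = (univ.filter p).card := by
  symm
  refine Finset.card_bij (fun a _ => (b0, a)) ?_ ?_ ?_
  · intro a ha
    rw [Finset.mem_filter] at ha ⊢
    exact ⟨Finset.mem_univ _, rfl, ha.2⟩
  · intro a _ a' _ h
    exact congrArg Prod.snd h
  · rintro ⟨b, a⟩ ha
    rw [Finset.mem_filter] at ha
    refine ⟨a, Finset.mem_filter.mpr ⟨Finset.mem_univ _, ha.2.2⟩, ?_⟩
    exact Prod.ext ha.2.1.symm rfl

/-- `U` contains disjoint complete bipartite graphs, the other vertices have a perfect matching. -/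
theorem good_full {N B m : ℕ} [NeZero m] {H : Fin N → Fin N → Prop} {U : Set (HostEdge H)}
    {l r : Fin B × Fin m → Fin N} (hl : Function.Injective l) (hr : Function.Injective r)
    (hU : ∀ b i j, ∃ h : H (l (b, i)) (r (b, j)), (⟨(l (b, i), r (b, j)), h⟩ : HostEdge H) ∈ U)
    {τ : Equiv.Perm (Fin N)} (hτ : ∀ u, (∀ a, l a ≠ u) → H u (τ u) ∧ ∀ a, r a ≠ τ u) :
    Good H U B m := by
  classical
  let G : Fin B × Fin m → Fin B × Fin m → Prop := fun a a' => a.1 = a'.1
  let pr : Fin B → Ed m → (Fin B × Fin m) × (Fin B × Fin m) := fun b p => ((b, p.1), (b, p.2))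
  let φ : Fin B → Ed m → HostEdge H := fun b p => ⟨(l (b, p.1), r (b, p.2)), (hU b p.1 p.2).1⟩
  have hφ : ∀ b p, (φ b p).1 = (l (pr b p).1, r (pr b p).2) := fun _ _ => rfl
  refine ⟨zG l r G τ, φ, ?_, ?_, ?_, ?_, ?_⟩
  · intro b b' p p' h
    have h1 := congrArg Subtype.val h
    have h2 : l (b, p.1) = l (b', p'.1) := congrArg Prod.fst h1
    have h3 : r (b, p.2) = r (b', p'.2) := congrArg Prod.snd h1
    obtain ⟨h4, h5⟩ := Prod.mk.inj (hl h2)
    obtain ⟨-, h6⟩ := Prod.mk.inj (hr h3)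
    exact ⟨h4, Prod.ext h5 h6⟩
  · intro b p
    exact zG_iff.mpr (Or.inl ⟨(b, p.1), (b, p.2), rfl, rfl, rfl⟩)
  · intro b p
    exact (hU b p.1 p.2).2
  · intro E hE
    choose σ hσ using fun b => allowE_perm (hE b)
    refine hasPM_gad hl hr hφ ?_ hτ E (fun a => (a.1, σ a.1 a.2)) ?_ ?_
    · rintro ⟨b, i⟩ ⟨b', j⟩ h
      have h : b = b' := h
      subst h
      exact (hU b i j).1
    · rintro ⟨b, i⟩ ⟨b', i'⟩ h
      obtain ⟨h1, h2⟩ := Prod.mk.inj h
      have h1 : b = b' := h1
      subst h1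
      have h2 : σ b i = σ b i' := h2
      rw [(σ b).injective h2]
    · rintro ⟨b, i⟩
      refine ⟨rfl, fun b' p hp => ?_⟩
      obtain ⟨h1, h2⟩ := Prod.mk.inj hp
      obtain ⟨h3, h4⟩ := Prod.mk.inj h1
      obtain ⟨-, h5⟩ := Prod.mk.inj h2
      have h5 : p.2 = σ b i := h5
      rw [h3, show p = (i, σ b i) from Prod.ext h4 h5]
      exact hσ b i
  · intro E b0 x hb
    refine hasOdd_gad hl hr hφ hτ E (fun a => a.1 = b0 ∧ fixOdd x (Sum.inl a.2) = true)
      (fun a => a.1 = b0 ∧ fixOdd x (Sum.inr a.2) = true) ?_ ?_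
    · rintro ⟨b, i⟩ ⟨b', j⟩ ⟨h1, h2⟩
      have h1 : b = b' := h1
      subst h1
      refine and_congr_right fun h3 => ?_
      have h3 : b = b0 := h3
      have h4 := h2 b (i, j) rfl
      rw [h3, hb] at h4
      exact Bool.eq_iff_iff.mp (mem_agree.mp h4)
    · have h1 := fixOdd_odd x
      unfold OddOnes at h1
      rw [card_filter_sum, ← card_filter_blk b0 (fun i => fixOdd x (Sum.inl i) = true),
        ← card_filter_blk b0 (fun j => fixOdd x (Sum.inr j) = true)] at h1
      convert h1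

end Pool.Agent.Lib_MP_22d2c8_pm
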