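import Pool.Agent.Lib_MP_22d2c8_pm.LocalB

/-!
# LOCAL C: disjoint variable edges in the complete bipartite host graph

Every edge `(i, j)` of a block is replaced by the path `P i - d1 - c1 - d2 - c2 - Q j`; only its
middle edge `(c1, d2)` is a variable, the others are constantly present. Left vertices: `c1`
(`inl`), `c2`, `P i`; right vertices: `d2` (`inl`), `d1`, `Q j`.
-/

namespace Pool.Agent.Lib_MP_22d2c8_pm

open Finset

/-- The left vertices and the right vertices of the gadget. -/
abbrev Kx (B m : ℕ) : Type := (Fin B × Ed m) ⊕ ((Fin B × Ed m) ⊕ (Fin B × Fin m))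

variable {B m : ℕ}

/-- The edges of the gadget. -/
def pG : Kx B m → Kx B m → Prop
  | .inl k, .inl k' => k = k'
  | .inl k, .inr (.inl k') => k = k'
  | .inl _, .inr (.inr _) => False
  | .inr (.inl k), .inl k' => k = k'
  | .inr (.inl _), .inr (.inl _) => False
  | .inr (.inl k), .inr (.inr a) => a = (k.1, k.2.2)
  | .inr (.inr _), .inl _ => False
  | .inr (.inr a), .inr (.inl k) => a = (k.1, k.2.1)
  | .inr (.inr _), .inr (.inr _) => False

/-- The matching of the gadget. -/
def pF (σ : Fin B → Equiv.Perm (Fin m)) : Kx B m → Kx B m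
  | .inl k => if σ k.1 k.2.1 = k.2.2 then .inl k else .inr (.inl k)
  | .inr (.inl k) => if σ k.1 k.2.1 = k.2.2 then .inr (.inr (k.1, k.2.2)) else .inl k
  | .inr (.inr a) => .inr (.inl (a.1, (a.2, σ a.1 a.2)))

/-- The variable edges. -/
def pP (b : Fin B) (p : Ed m) : Kx B m × Kx B m := (.inl (b, p), .inl (b, p))

theorem pF_inj (σ : Fin B → Equiv.Perm (Fin m)) : Function.Injective (pF σ) := by
  rintro (k | k | a) (k' | k' | a') h
  · unfold pF at h
    dsimp only at h
    split_ifs at h with h1 h2 h2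
    · exact h
    · exact congrArg Sum.inl (Sum.inl_injective (Sum.inr_injective h))
  · unfold pF at h
    dsimp only at h
    split_ifs at h with h1 h2 h2
    · have h3 : k = k' := Sum.inl_injective h
      rw [h3] at h1
      exact absurd h1 h2
    · exact absurd (Sum.inr_injective h) (by simp)
  · unfold pF at h
    dsimp only at h
    split_ifs at h with h1
    have h3 : k = (a'.1, (a'.2, σ a'.1 a'.2)) := Sum.inl_injective (Sum.inr_injective h)
    rw [h3] at h1
    exact absurd rfl h1
  · unfold pF at h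
    dsimp only at h
    split_ifs at h with h1 h2 h2
    · exact absurd (Sum.inr_injective h) (by simp)
    · have h3 : k = k' := Sum.inl_injective h
      rw [← h3] at h2
      exact absurd h2 h1
  · unfold pF at h
    dsimp only at h
    split_ifs at h with h1 h2 h2
    · have h3 := Sum.inr_injective (Sum.inr_injective h)
      obtain ⟨h4, h5⟩ := Prod.mk.inj h3
      rcases k with ⟨b, i, j⟩
      rcases k' with ⟨b', i', j'⟩
      have h4 : b = b' := h4
      have h5 : j = j' := h5
      subst h4
      subst h5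
      have h6 : σ b i = j := h1
      have h7 : σ b i' = j := h2
      rw [(σ b).injective (h6.trans h7.symm)]
    · have h3 : k = k' := Sum.inl_injective h
      rw [h3]
  · unfold pF at h
    dsimp only at h
    split_ifs at h with h1
    exact absurd (Sum.inr_injective h) (by simp)
  · unfold pF at h
    dsimp only at h
    split_ifs at h with h1
    have h3 : (a.1, (a.2, σ a.1 a.2)) = k' := Sum.inl_injective (Sum.inr_injective h)
    rw [← h3] at h1
    exact absurd rfl h1
  · unfold pF at h
    dsimp only at h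
    split_ifs at h with h1
    exact absurd (Sum.inr_injective h) (by simp)
  · unfold pF at h
    have h3 : (a.1, (a.2, σ a.1 a.2)) = (a'.1, (a'.2, σ a'.1 a'.2)) :=
      Sum.inl_injective (Sum.inr_injective h)
    obtain ⟨h4, h5⟩ := Prod.mk.inj h3
    obtain ⟨h6, -⟩ := Prod.mk.inj h5
    rw [show a = a' from Prod.ext h4 h6]

theorem pF_edge (σ : Fin B → Equiv.Perm (Fin m)) (E : Fin B → Finset (Ed m))
    (hσ : ∀ b i, (i, σ b i) ∈ E b) (a : Kx B m) : GE pG pP E a (pF σ a) := by
  rcases a with k | k | a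
  · unfold pF
    dsimp only
    split_ifs with h1
    · refine ⟨rfl, fun b p hp => ?_⟩
      have h2 : (b, p) = k := Sum.inl_injective (Prod.mk.inj hp).1
      rw [← h2] at h1
      have h3 : σ b p.1 = p.2 := h1
      rw [show p = (p.1, σ b p.1) from Prod.ext rfl h3.symm]
      exact hσ b p.1
    · refine ⟨rfl, fun b p hp => ?_⟩
      exact absurd (Prod.mk.inj hp).2 (by simp)
  · unfold pF
    dsimp only
    split_ifs with h1
    · exact ⟨rfl, fun b p hp => absurd (Prod.mk.inj hp).1 (by simp)⟩
    · exact ⟨rfl, fun b p hp => absurd (Prod.mk.inj hp).1 (by simp)⟩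
  · exact ⟨rfl, fun b p hp => absurd (Prod.mk.inj hp).1 (by simp)⟩

/-- The left vertices of the odd part. -/
def pL (b0 : Fin B) (y : Vx m → Bool) : Kx B m → Prop
  | .inl k => k.1 = b0 ∧ y (Sum.inl k.2.1) = true
  | .inr (.inl k) => k.1 = b0 ∧ y (Sum.inr k.2.2) = true
  | .inr (.inr a) => a.1 = b0 ∧ y (Sum.inl a.2) = true

/-- The right vertices of the odd part. -/
def pR (b0 : Fin B) (y : Vx m → Bool) : Kx B m → Prop
  | .inl k => k.1 = b0 ∧ y (Sum.inr k.2.2) = true
  | .inr (.inl k) => k.1 = b0 ∧ y (Sum.inl k.2.1) = true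
  | .inr (.inr a) => a.1 = b0 ∧ y (Sum.inr a.2) = true

theorem pLR (E : Fin B → Finset (Ed m)) (b0 : Fin B) (y : Vx m → Bool)
    (hb : ∀ p ∈ E b0, y (Sum.inl p.1) = y (Sum.inr p.2)) (a a' : Kx B m)
    (h : GE pG pP E a a') : pL b0 y a ↔ pR b0 y a' := by
  obtain ⟨h1, h2⟩ := h
  rcases a with k | k | a <;> rcases a' with k' | k' | a'
  · have h3 : k = k' := h1
    subst h3
    refine and_congr_right fun h4 => ?_
    have h5 := h2 k.1 k.2 rfl
    rw [h4] at h5
    rw [hb _ h5]
  · have h3 : k = k' := h1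
    rw [h3]
    exact Iff.rfl
  · exact absurd h1 id
  · have h3 : k = k' := h1
    rw [h3]
    exact Iff.rfl
  · exact absurd h1 id
  · have h3 : a' = (k.1, k.2.2) := h1
    rw [h3]
    exact Iff.rfl
  · exact absurd h1 id
  · have h3 : a = (k'.1, k'.2.1) := h1
    rw [h3]
    exact Iff.rfl
  · exact absurd h1 id

open Classical in
theorem pLR_odd (b0 : Fin B) (y : Vx m → Bool) (hy : OddOnes y) :
    Odd ((univ.filter (pL b0 y)).card + (univ.filter (pR b0 y)).card) := by
  have h1 := hy
  unfold OddOnes at h1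
  rw [card_filter_sum, ← card_filter_blk b0 (fun i => y (Sum.inl i) = true),
    ← card_filter_blk b0 (fun j => y (Sum.inr j) = true)] at h1
  rw [card_filter_sum, card_filter_sum, card_filter_sum, card_filter_sum]
  have e3 : (univ.filter (fun k : Fin B × Ed m => pR b0 y (Sum.inr (Sum.inl k)))).card =
      (univ.filter (fun k : Fin B × Ed m => pL b0 y (Sum.inl k))).card := rfl
  have e4 : (univ.filter (fun k : Fin B × Ed m => pR b0 y (Sum.inl k))).card =
      (univ.filter (fun k : Fin B × Ed m => pL b0 y (Sum.inr (Sum.inl k)))).card := rfl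
  rw [e3, e4]
  have e5 : (univ.filter (fun a : Fin B × Fin m => pL b0 y (Sum.inr (Sum.inr a)))).card =
      (univ.filter (fun a : Fin B × Fin m => a.1 = b0 ∧ y (Sum.inl a.2) = true)).card := by
    apply congrArg Finset.card
    ext a
    rw [Finset.mem_filter, Finset.mem_filter]
    exact Iff.rfl
  have e6 : (univ.filter (fun a : Fin B × Fin m => pR b0 y (Sum.inr (Sum.inr a)))).card =
      (univ.filter (fun a : Fin B × Fin m => a.1 = b0 ∧ y (Sum.inr a.2) = true)).card := by
    apply congrArg Finset.card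
    ext a
    rw [Finset.mem_filter, Finset.mem_filter]
    exact Iff.rfl
  rw [e5, e6]
  generalize (univ.filter (fun k : Fin B × Ed m => pL b0 y (Sum.inl k))).card = A
  generalize (univ.filter (fun k : Fin B × Ed m => pL b0 y (Sum.inr (Sum.inl k)))).card = D
  have h2 : Odd ((univ.filter (fun a : Fin B × Fin m => a.1 = b0 ∧ y (Sum.inl a.2) = true)).card +
      (univ.filter (fun a : Fin B × Fin m => a.1 = b0 ∧ y (Sum.inr a.2) = true)).card) := by
    convert h1
  obtain ⟨k, hk⟩ := h2
  exact ⟨A + D + k, by omega⟩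

/-- Some of the vertices have prescribed places. -/
theorem exists_place {N : ℕ} {X1 X2 : Type} [Fintype X1] [Fintype X2] (f : X1 → Fin N)
    (hf : Function.Injective f) (h : Fintype.card X1 + Fintype.card X2 ≤ N) :
    ∃ g : X2 → Fin N, Function.Injective g ∧ ∀ a b, f a ≠ g b := by
  classical
  have h1 : Fintype.card {u : Fin N // u ∉ Set.range f} = N - Fintype.card X1 := by
    rw [Fintype.card_subtype_compl, Fintype.card_fin]
    congr 1
    exact Fintype.card_congr (Equiv.ofInjective f hf).symm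
  obtain ⟨g⟩ : Nonempty (X2 ↪ {u : Fin N // u ∉ Set.range f}) :=
    Function.Embedding.nonempty_of_card_le (by rw [h1]; omega)
  exact ⟨fun b => (g b : Fin N), fun b b' hb => g.injective (Subtype.ext hb),
    fun a b hab => (g b).2 ⟨a, hab⟩⟩

theorem exists_place' {N : ℕ} (hm : 1 ≤ m) (f : Fin B × Ed m → Fin N)
    (hf : Function.Injective f) (h : 3 * B * m ^ 2 ≤ N) :
    ∃ L : Kx B m → Fin N, Function.Injective L ∧ ∀ k, L (Sum.inl k) = f k := by
  have h1 : Fintype.card (Fin B × Ed m) +
      Fintype.card ((Fin B × Ed m) ⊕ (Fin B × Fin m)) ≤ N := by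
    simp only [Fintype.card_sum, Fintype.card_prod, Fintype.card_fin]
    have h2 : B * m ≤ B * (m * m) := Nat.mul_le_mul_left _ (Nat.le_mul_of_pos_left m hm)
    have h3 : 3 * B * m ^ 2 = B * (m * m) + (B * (m * m) + B * (m * m)) := by ring
    omega
  obtain ⟨g, hg, hfg⟩ := exists_place f hf h1
  refine ⟨Sum.elim f g, ?_, fun k => rfl⟩
  exact hf.sumElim hg hfg

/-- The complement of the left vertices and the complement of the right vertices are matched. -/
theorem exists_rest {N : ℕ} {X : Type} [Finite X] {L R : X → Fin N}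
    (hL : Function.Injective L) (hR : Function.Injective R) :
    ∃ τ : Equiv.Perm (Fin N), ∀ u, (∀ a, L a ≠ u) → ∀ a, R a ≠ τ u := by
  classical
  let f : {u : Fin N // ∃ a, L a = u} ≃ {u : Fin N // ∃ a, R a = u} :=
    (Equiv.ofInjective L hL).symm.trans (Equiv.ofInjective R hR)
  refine ⟨f.extendSubtype, fun u hu a ha => ?_⟩
  have h1 : ¬ ∃ a, R a = f.extendSubtype u :=
    f.extendSubtype_not_mem u (fun ⟨a, ha⟩ => hu a ha)
  exact h1 ⟨a, ha⟩

/-- `U` contains disjoint edges of the complete bipartite host graph. -/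
theorem good_match {N : ℕ} [NeZero m] {H : Fin N → Fin N → Prop} (hH : ∀ i j, H i j)
    {U : Set (HostEdge H)} (hN : 3 * B * m ^ 2 ≤ N) (c : Fin B × Ed m → HostEdge H)
    (hcU : ∀ k, c k ∈ U) (h1 : Function.Injective fun k => (c k).1.1)
    (h2 : Function.Injective fun k => (c k).1.2) : Good H U B m := by
  classical
  have hm1 : 1 ≤ m := NeZero.one_le
  obtain ⟨L, hL, hLc⟩ := exists_place' hm1 _ h1 hN
  obtain ⟨R, hR, hRc⟩ := exists_place' hm1 _ h2 hN
  obtain ⟨τ, hτ⟩ := exists_rest hL hR
  have hφ : ∀ b p, (c (b, p)).1 = (L (pP b p).1, R (pP b p).2) := by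
    intro b p
    refine Prod.ext ?_ ?_
    · exact (hLc (b, p)).symm
    · exact (hRc (b, p)).symm
  refine ⟨zG L R pG τ, fun b p => c (b, p), ?_, ?_, fun b p => hcU _, ?_, ?_⟩
  · intro b b' p p' h
    have h3 : (b, p) = (b', p') := h1 (congrArg (fun e : HostEdge H => e.1.1) h)
    exact Prod.mk.inj h3
  · intro b p
    exact zG_iff.mpr (Or.inl ⟨.inl (b, p), .inl (b, p), hLc _, hRc _, rfl⟩)
  · intro E hE
    choose σ hσ using fun b => allowE_perm (hE b)
    exact hasPM_gad hL hR hφ (fun _ _ _ => hH _ _) (fun u hu => ⟨hH _ _, hτ u hu⟩) E (pF σ)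
      (pF_inj σ) (pF_edge σ E hσ)
  · intro E b0 x hb
    refine hasOdd_gad hL hR hφ (fun u hu => ⟨hH _ _, hτ u hu⟩) E (pL b0 (fixOdd x))
      (pR b0 (fixOdd x)) (pLR E b0 (fixOdd x) fun p hp => ?_) ?_
    · rw [hb] at hp
      exact mem_agree.mp hp
    · convert pLR_odd b0 (fixOdd x) (fixOdd_odd x)

end Pool.Agent.Lib_MP_22d2c8_pm
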