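import Pool.Agent.Lib_MP_22d2c8_pm.Defs

/-!
# PARITY A: the correction of the parity

PROOF. Changing the colour of one vertex changes the number of ones by one, so it changes the
parity (`odd_update`): `fixOdd x` has an odd number of ones. `x ↦ update x (inl 0) (!x (inl 0))` is an
involution of the colourings, so `prob (p ∘ agree ∘ this map) = prob (p ∘ agree)` (`prob_equiv`),
and `p (cut x)` implies `p (agree x)` or `p (agree (changed x))`.
No perfect matching: if `permGraph σ ⊆ agree y` then `y (inl i) = y (inr (σ i))` for all `i`, so
the ones of `y` on the left and on the right are equally many, so the number of ones is even;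
but `fixOdd x` is odd.
-/

namespace Pool.Agent.Lib_MP_22d2c8_pm

open Finset
open Pool.Agent.Lib_MP_22d2c8_rsf

/-- Changing one colour changes the parity. -/
theorem odd_update {m : ℕ} (x : Vx m → Bool) (u : Vx m) :
    OddOnes (Function.update x u (!x u)) ↔ ¬ OddOnes x := by
  unfold OddOnes
  by_cases hu : x u = true
  · have h1 : univ.filter (fun v => Function.update x u (!x u) v = true) =
        (univ.filter (fun v => x v = true)).erase u := by
      ext v
      by_cases hv : v = u
      · subst hv
        simp [hu]
      · simp [Function.update_of_ne hv, hv]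
    have h2 : u ∈ univ.filter (fun v => x v = true) := by simp [hu]
    have h3 := Finset.card_erase_add_one h2
    rw [h1, ← h3, Nat.odd_add_one, not_not]
  · have h1 : univ.filter (fun v => Function.update x u (!x u) v = true) =
        insert u (univ.filter (fun v => x v = true)) := by
      ext v
      by_cases hv : v = u
      · subst hv
        simp [hu]
      · simp [Function.update_of_ne hv, hv]
    have h2 : u ∉ univ.filter (fun v => x v = true) := by simp [hu]
    rw [h1, Finset.card_insert_of_notMem h2, Nat.odd_add_one]

theorem fixOdd_odd {m : ℕ} [NeZero m] (x : Vx m → Bool) : OddOnes (fixOdd x) := by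
  unfold fixOdd
  split_ifs with h
  · exact h
  · exact (odd_update x _).2 h

/-- The change of the colour of one vertex, as an equivalence. -/
private def flipAt {m : ℕ} (u : Vx m) : (Vx m → Bool) ≃ (Vx m → Bool) where
  toFun x := Function.update x u (!x u)
  invFun x := Function.update x u (!x u)
  left_inv x := by
    funext v
    by_cases hv : v = u
    · subst hv
      simp
    · simp [Function.update_of_ne hv]
  right_inv x := by
    funext v
    by_cases hv : v = u
    · subst hv
      simp
    · simp [Function.update_of_ne hv]

/-- The correction of the parity at most doubles a probability. -/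
theorem prob_cut_le {m : ℕ} [NeZero m] (p : Finset (Ed m) → Prop) :
    prob (fun x : Vx m → Bool => p (cut x)) ≤ 2 * prob (fun x : Vx m → Bool => p (agree x)) := by
  have h1 : prob (fun x : Vx m → Bool => p (cut x)) ≤
      prob (fun x : Vx m → Bool => p (agree x) ∨ p (agree (flipAt (Sum.inl 0) x))) := by
    refine prob_mono fun x hx => ?_
    unfold cut fixOdd at hx
    split_ifs at hx with h
    · exact Or.inl hx
    · exact Or.inr hx
  have h2 := prob_or_le (fun x : Vx m → Bool => p (agree x))
    (fun x : Vx m → Bool => p (agree (flipAt (Sum.inl 0) x)))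
  have h3 : prob (fun x : Vx m → Bool => p (agree (flipAt (Sum.inl 0) x))) =
      prob (fun x : Vx m → Bool => p (agree x)) :=
    prob_equiv (flipAt (Sum.inl 0)) (fun x => p (agree x))
  linarith

private theorem not_odd_of_agree {m : ℕ} (y : Vx m → Bool) (σ : Equiv.Perm (Fin m))
    (h : permGraph σ ⊆ agree y) : ¬ OddOnes y := by
  have h0 : ∀ i, y (Sum.inl i) = y (Sum.inr (σ i)) := fun i =>
    mem_agree.1 (h (mem_permGraph.2 (rfl : σ (i, σ i).1 = (i, σ i).2)))
  have h1 : (univ.filter (fun u : Vx m => y u = true)).card =
      (univ.filter (fun i : Fin m => y (Sum.inl i) = true)).card +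
      (univ.filter (fun i : Fin m => y (Sum.inr i) = true)).card := by
    rw [Finset.card_filter, Finset.card_filter, Finset.card_filter, Fintype.sum_sum_type]
  have h2 : (univ.filter (fun i : Fin m => y (Sum.inl i) = true)).card =
      (univ.filter (fun i : Fin m => y (Sum.inr i) = true)).card := by
    rw [Finset.card_filter, Finset.card_filter]
    rw [← Equiv.sum_comp σ (fun i => if y (Sum.inr i) = true then 1 else 0)]
    exact Finset.sum_congr rfl fun i _ => by rw [h0 i]
  unfold OddOnes
  rw [h1, h2]
  exact Nat.not_odd_iff_even.2 (Even.add_self _)

/-- The graph `cut x` has no perfect matching. -/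
theorem cut_no_matching {m : ℕ} [NeZero m] (x : Vx m → Bool) (σ : Equiv.Perm (Fin m)) :
    ¬ permGraph σ ⊆ cut x :=
  fun h => not_odd_of_agree (fixOdd x) σ h (fixOdd_odd x)

end Pool.Agent.Lib_MP_22d2c8_pm
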