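import Pool.Agent.Lib_MP_22d2c8_pm.SmA

/-!
# SM B: a good colouring

PROOF. For `c : X → Fin r` and `i : Fin r` let `G c i = F.filter (fun R => ∀ u ∈ L R, c u = i)`,
`N c i` its size, `S c i` the sum of `2 ^ |L R ∩ L R'|` over the pairs in `G c i`, `μ = F.card / r ^ t`
and `D c i = S c i - 2 μ N c i + μ ^ 2`. As `S c i ≥ (N c i) ^ 2` (every term is `≥ 1`),
`D c i ≥ (N c i - μ) ^ 2 ≥ 0`. Sum over all `c`: the number of `c` with `c = i` on a set `W` is
`r ^ (card X - |W|)` (`card_colourings`, in the form `r ^ |W| * number = r ^ card X`), so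
`∑ c, N c i = r ^ (card X) * F.card / r ^ t = r ^ (card X) * μ` and
`∑ c, S c i = r ^ (card X) * ∑ R R', 2 ^ |L R ∩ L R'| / r ^ |L R ∪ L R'|
= r ^ (card X) * r ^ (-2 t) * ∑ R R', (2 r) ^ |L R ∩ L R'|` (`|L R ∪ L R'| + |L R ∩ L R'| = 2 t`),
which by `sum_inter_le` is at most `r ^ (card X) * μ ^ 2 * (1 + 1 / 4)`. So
`∑ c, ∑ i, D c i ≤ r ^ (card X) * (r * μ ^ 2 / 4)`, hence some `c` has
`∑ i, D c i ≤ r * μ ^ 2 / 4` (`Finset.exists_le_of_sum_le`), so `D c i > μ ^ 2 / 2` for at most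
`r / 2` colours `i`. For the other colours `S c i ≤ 2 μ N c i - μ ^ 2 / 2 ≤ 2 (N c i) ^ 2` (as
`(2 N - μ) ^ 2 ≥ 0`), and `N c i > 0` because `S c i ≥ 0` and `μ > 0`.
-/

namespace Pool.Agent.Lib_MP_22d2c8_pm

open Finset

/-- The number of the colourings which are constant on `W`. -/
theorem card_colourings {X : Type} [Fintype X] [DecidableEq X] {r : ℕ} (W : Finset X) (i : Fin r) :
    r ^ W.card * (univ.filter (fun c : X → Fin r => ∀ u ∈ W, c u = i)).card =
      r ^ Fintype.card X := by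
  have h1 : (univ.filter (fun c : X → Fin r => ∀ u ∈ W, c u = i)) =
      Fintype.piFinset (fun u => if u ∈ W then ({i} : Finset (Fin r)) else univ) := by
    ext c
    simp only [mem_filter, mem_univ, true_and, Fintype.mem_piFinset]
    constructor
    · intro h u
      by_cases hu : u ∈ W
      · simp [hu, h u hu]
      · simp [hu]
    · intro h u hu
      have := h u
      simpa [hu] using this
  have h2 : r ^ W.card = ∏ u : X, (if u ∈ W then r else 1) := by
    rw [Finset.prod_ite_mem, Finset.univ_inter, Finset.prod_const]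
  rw [h1, Fintype.card_piFinset, h2, ← Finset.prod_mul_distrib]
  have h3 : ∀ u : X, (if u ∈ W then r else 1) *
      (if u ∈ W then ({i} : Finset (Fin r)) else univ).card = r := by
    intro u
    by_cases hu : u ∈ W <;> simp [hu]
  rw [Finset.prod_congr rfl (fun u _ => h3 u), Finset.prod_const, Finset.card_univ]

private theorem card_col_real {X : Type} [Fintype X] [DecidableEq X] {r : ℕ} (hr : 1 ≤ r)
    (W : Finset X) (i : Fin r) :
    ((univ.filter (fun c : X → Fin r => ∀ u ∈ W, c u = i)).card : ℝ) =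
      (r : ℝ) ^ Fintype.card X / (r : ℝ) ^ W.card := by
  have h := card_colourings W i
  have hr0 : (r : ℝ) ^ W.card ≠ 0 := pow_ne_zero _ (by positivity)
  rw [eq_div_iff hr0]
  have h' : ((r ^ W.card * (univ.filter (fun c : X → Fin r => ∀ u ∈ W, c u = i)).card : ℕ) : ℝ) =
      ((r ^ Fintype.card X : ℕ) : ℝ) := by rw [h]
  push_cast at h'
  linarith

private theorem sum_N {X ι : Type} [Fintype X] [DecidableEq X] (F : Finset ι)
    (L : ι → Finset X) {t r : ℕ} (hr : 1 ≤ r) (hL : ∀ R ∈ F, (L R).card = t) (i : Fin r) :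
    ∑ c : X → Fin r, ((F.filter (fun R => ∀ u ∈ L R, c u = i)).card : ℝ) =
      (r : ℝ) ^ Fintype.card X * (F.card / (r : ℝ) ^ t) := by
  have h1 : ∀ c : X → Fin r, ((F.filter (fun R => ∀ u ∈ L R, c u = i)).card : ℝ) =
      ∑ R ∈ F, (if ∀ u ∈ L R, c u = i then (1 : ℝ) else 0) := by
    intro c
    rw [Finset.card_filter]
    push_cast
    rfl
  rw [Finset.sum_congr rfl (fun c _ => h1 c), Finset.sum_comm]
  have h2 : ∀ R ∈ F, ∑ c : X → Fin r, (if ∀ u ∈ L R, c u = i then (1 : ℝ) else 0) =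
      (r : ℝ) ^ Fintype.card X / (r : ℝ) ^ t := by
    intro R hR
    rw [← hL R hR, ← card_col_real hr (L R) i, Finset.card_filter]
    push_cast
    rfl
  rw [Finset.sum_congr rfl h2, Finset.sum_const, nsmul_eq_mul]
  ring

private theorem sum_S {X ι : Type} [Fintype X] [DecidableEq X] (F : Finset ι)
    (L : ι → Finset X) {t r κ : ℕ} (ht : 1 ≤ t)
    (hr : 1 ≤ r) (hL : ∀ R ∈ F, (L R).card = t) (hκ : 16 * r * t ≤ κ)
    (hsp : ∀ J : Finset X, J.Nonempty →
      3 * ((F.filter (fun R => J ⊆ L R)).card * κ ^ J.card) ≤ 4 * F.card) (i : Fin r) :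
    ∑ c : X → Fin r, ∑ R ∈ F.filter (fun R => ∀ u ∈ L R, c u = i),
        ∑ R' ∈ F.filter (fun R => ∀ u ∈ L R, c u = i), (2 : ℝ) ^ (L R ∩ L R').card ≤
      (r : ℝ) ^ Fintype.card X * ((F.card / (r : ℝ) ^ t) ^ 2 * (1 + 1 / 4 : ℝ)) := by
  have hr0 : (0 : ℝ) < r := by exact_mod_cast hr
  have h1 : ∀ c : X → Fin r, ∑ R ∈ F.filter (fun R => ∀ u ∈ L R, c u = i),
        ∑ R' ∈ F.filter (fun R => ∀ u ∈ L R, c u = i), (2 : ℝ) ^ (L R ∩ L R').card =
      ∑ R ∈ F, ∑ R' ∈ F, (2 : ℝ) ^ (L R ∩ L R').card *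
        (if ∀ u ∈ L R ∪ L R', c u = i then (1 : ℝ) else 0) := by
    intro c
    rw [Finset.sum_filter]
    refine Finset.sum_congr rfl (fun R _ => ?_)
    rw [Finset.sum_filter]
    by_cases hR : ∀ u ∈ L R, c u = i
    · rw [if_pos hR]
      refine Finset.sum_congr rfl (fun R' _ => ?_)
      by_cases hR' : ∀ u ∈ L R', c u = i
      · rw [if_pos hR', if_pos, mul_one]
        intro u hu
        rcases Finset.mem_union.mp hu with h | h
        · exact hR u h
        · exact hR' u h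
      · rw [if_neg hR', if_neg, mul_zero]
        intro h
        exact hR' (fun u hu => h u (Finset.mem_union_right _ hu))
    · rw [if_neg hR]
      symm
      refine Finset.sum_eq_zero (fun R' _ => ?_)
      rw [if_neg, mul_zero]
      intro h
      exact hR (fun u hu => h u (Finset.mem_union_left _ hu))
  rw [Finset.sum_congr rfl (fun c _ => h1 c), Finset.sum_comm]
  have h2 : ∀ R ∈ F, ∑ c : X → Fin r, ∑ R' ∈ F, (2 : ℝ) ^ (L R ∩ L R').card *
        (if ∀ u ∈ L R ∪ L R', c u = i then (1 : ℝ) else 0) ≤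
      (r : ℝ) ^ Fintype.card X / ((r : ℝ) ^ t) ^ 2 * (F.card * (1 + 1 / 4 : ℝ)) := by
    intro R hR
    rw [Finset.sum_comm]
    have h3 : ∀ R' ∈ F, ∑ c : X → Fin r, (2 : ℝ) ^ (L R ∩ L R').card *
        (if ∀ u ∈ L R ∪ L R', c u = i then (1 : ℝ) else 0) =
        (r : ℝ) ^ Fintype.card X / ((r : ℝ) ^ t) ^ 2 * (2 * r : ℝ) ^ (L R ∩ L R').card := by
      intro R' hR'
      rw [← Finset.mul_sum]
      have h4 : ∑ c : X → Fin r, (if ∀ u ∈ L R ∪ L R', c u = i then (1 : ℝ) else 0) =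
          (r : ℝ) ^ Fintype.card X / (r : ℝ) ^ (L R ∪ L R').card := by
        rw [← card_col_real hr (L R ∪ L R') i, Finset.card_filter]
        push_cast
        rfl
      rw [h4]
      have h5 : (r : ℝ) ^ (L R ∪ L R').card * (r : ℝ) ^ (L R ∩ L R').card =
          ((r : ℝ) ^ t) ^ 2 := by
        rw [← pow_add, Finset.card_union_add_card_inter, hL R hR, hL R' hR', ← pow_mul]
        congr 1
        ring
      have h6 : (r : ℝ) ^ (L R ∪ L R').card ≠ 0 := pow_ne_zero _ hr0.ne'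
      have h7 : (r : ℝ) ^ (L R ∩ L R').card ≠ 0 := pow_ne_zero _ hr0.ne'
      rw [← h5, mul_pow]
      field_simp
    rw [Finset.sum_congr rfl h3, ← Finset.mul_sum]
    refine mul_le_mul_of_nonneg_left ?_ (by positivity)
    exact sum_inter_le F L ht hr hκ hsp R (hL R hR)
  refine (Finset.sum_le_sum h2).trans (le_of_eq ?_)
  rw [Finset.sum_const, nsmul_eq_mul]
  have h6 : (r : ℝ) ^ t ≠ 0 := pow_ne_zero _ hr0.ne'
  field_simp

theorem exists_colouring {X ι : Type} [Fintype X] [DecidableEq X] (F : Finset ι)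
    (hF : F.Nonempty) (L : ι → Finset X) {t r κ : ℕ} (ht : 1 ≤ t)
    (hr : 1 ≤ r) (hL : ∀ R ∈ F, (L R).card = t) (hκ : 16 * r * t ≤ κ)
    (hsp : ∀ J : Finset X, J.Nonempty →
      3 * ((F.filter (fun R => J ⊆ L R)).card * κ ^ J.card) ≤ 4 * F.card) :
    ∃ (c : X → Fin r) (A : Finset (Fin r)), r ≤ 2 * A.card ∧
      ∀ i ∈ A, (F.filter (fun R => ∀ u ∈ L R, c u = i)).Nonempty ∧
      ∑ R ∈ F.filter (fun R => ∀ u ∈ L R, c u = i),
        ∑ R' ∈ F.filter (fun R => ∀ u ∈ L R, c u = i), (2 : ℝ) ^ (L R ∩ L R').card ≤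
      2 * ((F.filter (fun R => ∀ u ∈ L R, c u = i)).card : ℝ) ^ 2 := by
  have hr0 : (0 : ℝ) < r := by exact_mod_cast hr
  obtain ⟨μ, hμ⟩ : ∃ μ : ℝ, μ = F.card / (r : ℝ) ^ t := ⟨_, rfl⟩
  have hμ0 : 0 < μ := by
    rw [hμ]
    have : (0 : ℝ) < F.card := by exact_mod_cast hF.card_pos
    positivity
  let N : (X → Fin r) → Fin r → ℝ := fun c i =>
    ((F.filter (fun R => ∀ u ∈ L R, c u = i)).card : ℝ)
  let S : (X → Fin r) → Fin r → ℝ := fun c i =>
    ∑ R ∈ F.filter (fun R => ∀ u ∈ L R, c u = i),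
        ∑ R' ∈ F.filter (fun R => ∀ u ∈ L R, c u = i), (2 : ℝ) ^ (L R ∩ L R').card
  let D : (X → Fin r) → Fin r → ℝ := fun c i => S c i - 2 * μ * N c i + μ ^ 2
  have hSN : ∀ c i, N c i ^ 2 ≤ S c i := by
    intro c i
    have h1 : N c i ^ 2 = ∑ R ∈ F.filter (fun R => ∀ u ∈ L R, c u = i),
        ∑ R' ∈ F.filter (fun R => ∀ u ∈ L R, c u = i), (1 : ℝ) := by
      simp only [N, Finset.sum_const, nsmul_eq_mul, mul_one]
      ring
    rw [h1]
    refine Finset.sum_le_sum (fun R _ => Finset.sum_le_sum (fun R' _ => ?_))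
    exact one_le_pow₀ (by norm_num)
  have hD0 : ∀ c i, 0 ≤ D c i := by
    intro c i
    have := hSN c i
    have h2 := sq_nonneg (N c i - μ)
    simp only [D]
    nlinarith
  have hDsum : ∀ i : Fin r, ∑ c : X → Fin r, D c i ≤
      (r : ℝ) ^ Fintype.card X * (μ ^ 2 / 4) := by
    intro i
    have h1 : ∑ c : X → Fin r, D c i = ∑ c : X → Fin r, S c i -
        2 * μ * ∑ c : X → Fin r, N c i + (r : ℝ) ^ Fintype.card X * μ ^ 2 := by
      simp only [D, Finset.sum_add_distrib, Finset.sum_sub_distrib, ← Finset.mul_sum]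
      rw [Finset.sum_const, Finset.card_univ, Fintype.card_fun, Fintype.card_fin, nsmul_eq_mul]
      push_cast
      ring
    have h2 : ∑ c : X → Fin r, N c i = (r : ℝ) ^ Fintype.card X * μ := by
      rw [hμ]
      exact sum_N F L hr hL i
    have h3 : ∑ c : X → Fin r, S c i ≤
        (r : ℝ) ^ Fintype.card X * (μ ^ 2 * (1 + 1 / 4 : ℝ)) := by
      rw [hμ]
      exact sum_S F L ht hr hL hκ hsp i
    rw [h1, h2]
    have h4 : (r : ℝ) ^ Fintype.card X * (μ ^ 2 * (1 + 1 / 4 : ℝ)) -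
        2 * μ * ((r : ℝ) ^ Fintype.card X * μ) + (r : ℝ) ^ Fintype.card X * μ ^ 2 =
        (r : ℝ) ^ Fintype.card X * (μ ^ 2 / 4) := by
      ring
    linarith
  have htot : ∑ c : X → Fin r, ∑ i : Fin r, D c i ≤ ∑ _c : X → Fin r, r * (μ ^ 2 / 4) := by
    rw [Finset.sum_comm]
    refine (Finset.sum_le_sum (fun i _ => hDsum i)).trans (le_of_eq ?_)
    rw [Finset.sum_const, Finset.sum_const, Finset.card_univ, Finset.card_univ, Fintype.card_fun,
      Fintype.card_fin, nsmul_eq_mul, nsmul_eq_mul]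
    push_cast
    ring
  haveI : NeZero r := ⟨by omega⟩
  obtain ⟨c, -, hc⟩ := Finset.exists_le_of_sum_le
    (⟨fun _ => 0, Finset.mem_univ _⟩ : (univ : Finset (X → Fin r)).Nonempty) htot
  refine ⟨c, univ.filter (fun i => D c i ≤ μ ^ 2 / 2), ?_, fun i hiA => ?_⟩
  · -- the bad colours
    have hbad : ((univ.filter (fun i : Fin r => ¬ D c i ≤ μ ^ 2 / 2)).card : ℝ) * (μ ^ 2 / 2) ≤
        r * (μ ^ 2 / 4) := by
      have h1 : ∑ i ∈ univ.filter (fun i : Fin r => ¬ D c i ≤ μ ^ 2 / 2), (μ ^ 2 / 2) ≤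
          ∑ i ∈ univ.filter (fun i : Fin r => ¬ D c i ≤ μ ^ 2 / 2), D c i :=
        Finset.sum_le_sum fun i hi => (not_le.mp (Finset.mem_filter.mp hi).2).le
      have h2 : ∑ i ∈ univ.filter (fun i : Fin r => ¬ D c i ≤ μ ^ 2 / 2), D c i ≤
          ∑ i : Fin r, D c i :=
        Finset.sum_le_sum_of_subset_of_nonneg (Finset.filter_subset _ _) fun i _ _ => hD0 c i
      rw [Finset.sum_const, nsmul_eq_mul] at h1
      linarith
    have hμ2 : 0 < μ ^ 2 / 2 := by positivity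
    have hbad2 : 2 * ((univ.filter (fun i : Fin r => ¬ D c i ≤ μ ^ 2 / 2)).card : ℝ) ≤ r := by
      have h3 : (2 * ((univ.filter (fun i : Fin r => ¬ D c i ≤ μ ^ 2 / 2)).card : ℝ)) *
          (μ ^ 2 / 2) ≤ r * (μ ^ 2 / 2) := by linarith
      exact le_of_mul_le_mul_right h3 hμ2
    have hbad3 : 2 * (univ.filter (fun i : Fin r => ¬ D c i ≤ μ ^ 2 / 2)).card ≤ r := by
      exact_mod_cast hbad2
    have h4 := Finset.card_filter_add_card_filter_not (s := (univ : Finset (Fin r)))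
      (fun i => D c i ≤ μ ^ 2 / 2)
    rw [Finset.card_univ, Fintype.card_fin] at h4
    omega
  have hi : D c i ≤ μ ^ 2 / 2 := (Finset.mem_filter.mp hiA).2
  constructor
  · by_contra hne
    rw [Finset.not_nonempty_iff_eq_empty] at hne
    have hN : N c i = 0 := by simp only [N, hne, Finset.card_empty, Nat.cast_zero]
    have hS : S c i = 0 := by simp only [S, hne, Finset.sum_empty]
    simp only [D, hN, hS] at hi
    nlinarith [sq_nonneg μ, mul_pos hμ0 hμ0]
  · have h5 : S c i ≤ 2 * N c i ^ 2 := by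
      simp only [D] at hi
      nlinarith [sq_nonneg (2 * N c i - μ)]
    exact h5

end Pool.Agent.Lib_MP_22d2c8_pm
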