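import Pool.Agent.Lib_MP_22d2c8_pm.Defs

/-!
# SM C: the second moment

PROOF. For `x : X → Bool` let `Z x` be the number of the `R ∈ G` with `x u = a R u` for all
`u ∈ L R`. The number of the `x` which agree with a given pattern on a set `W` is
`2 ^ (card X - |W|)` (`card_agree`), so `∑ x, Z x = G.card * 2 ^ (card X - t)`, that is
`2 ^ t * ∑ x, Z x = G.card * 2 ^ card X`, and
`∑ x, (Z x) ^ 2 = ∑ R R', #{x agrees with a R on L R and with a R' on L R'}`; each of these numbers
is zero or `2 ^ (card X - |L R ∪ L R'|)`, so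
`2 ^ (2 t) * ∑ x, (Z x) ^ 2 ≤ 2 ^ card X * ∑ R R', 2 ^ |L R ∩ L R'| ≤ 2 ^ card X * 2 * G.card ^ 2`.
Cauchy-Schwarz (`sq_sum_le_card_mul_sum_sq`) over the support `P = {x | Z x ≠ 0}`:
`(∑ x, Z x) ^ 2 ≤ P.card * ∑ x, (Z x) ^ 2`, so `G.card ^ 2 * 4 ^ card X ≤
P.card * 2 ^ card X * 2 * G.card ^ 2`, that is `P.card ≥ 2 ^ card X / 2`, and the event is the
complement of `P`.
-/

namespace Pool.Agent.Lib_MP_22d2c8_pm

open Finset
open Pool.Agent.Lib_MP_22d2c8_rsf

theorem card_agree {X : Type} [Fintype X] [DecidableEq X] (W : Finset X) (a : X → Bool) :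
    2 ^ W.card * (univ.filter (fun x : X → Bool => ∀ u ∈ W, x u = a u)).card =
      2 ^ Fintype.card X := by
  have h1 : (univ.filter (fun x : X → Bool => ∀ u ∈ W, x u = a u)) =
      Fintype.piFinset (fun u => if u ∈ W then {a u} else (univ : Finset Bool)) := by
    ext x
    simp only [mem_filter, mem_univ, true_and, Fintype.mem_piFinset]
    constructor
    · intro h u
      by_cases hu : u ∈ W
      · rw [if_pos hu, mem_singleton]
        exact h u hu
      · rw [if_neg hu]
        exact mem_univ _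
    · intro h u hu
      have h2 := h u
      rwa [if_pos hu, mem_singleton] at h2
  have h2 : (2 : ℕ) ^ W.card = ∏ u : X, if u ∈ W then 2 else 1 := by
    rw [prod_ite_mem, univ_inter, prod_const]
  rw [h1, Fintype.card_piFinset, h2, ← prod_mul_distrib, ← card_univ, ← prod_const]
  refine prod_congr rfl fun u _ => ?_
  by_cases hu : u ∈ W
  · rw [if_pos hu, if_pos hu, card_singleton, mul_one]
  · rw [if_neg hu, if_neg hu, card_univ, Fintype.card_bool, one_mul]

private theorem pair_card {X : Type} [Fintype X] [DecidableEq X] (A B : Finset X)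
    (a b : X → Bool) {t : ℕ} (hA : A.card = t) (hB : B.card = t) :
    2 ^ (2 * t) * (univ.filter (fun x : X → Bool =>
      (∀ u ∈ A, x u = a u) ∧ (∀ u ∈ B, x u = b u))).card ≤
      2 ^ (A ∩ B).card * 2 ^ Fintype.card X := by
  rcases (univ.filter (fun x : X → Bool =>
      (∀ u ∈ A, x u = a u) ∧ (∀ u ∈ B, x u = b u))).eq_empty_or_nonempty with h | ⟨x0, h0⟩
  · rw [h, card_empty, mul_zero]
    exact Nat.zero_le _
  · simp only [mem_filter, mem_univ, true_and] at h0
    have hsub : (univ.filter (fun x : X → Bool =>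
        (∀ u ∈ A, x u = a u) ∧ (∀ u ∈ B, x u = b u))).card ≤
        (univ.filter (fun x : X → Bool => ∀ u ∈ A ∪ B, x u = x0 u)).card := by
      apply card_le_card
      intro x hx
      simp only [mem_filter, mem_univ, true_and] at hx ⊢
      intro u hu
      rcases mem_union.1 hu with hu | hu
      · rw [hx.1 u hu, h0.1 u hu]
      · rw [hx.2 u hu, h0.2 u hu]
    have hc := card_agree (A ∪ B) x0
    have ht : 2 * t = (A ∩ B).card + (A ∪ B).card := by
      have := card_union_add_card_inter A B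
      omega
    rw [ht, pow_add, mul_assoc, ← hc]
    exact Nat.mul_le_mul_left _ (Nat.mul_le_mul_left _ hsub)

theorem second_moment {X ι : Type} [Fintype X] [DecidableEq X] (G : Finset ι)
    (hG : G.Nonempty) (L : ι → Finset X) (a : ι → X → Bool) {t : ℕ}
    (hL : ∀ R ∈ G, (L R).card = t)
    (hS : ∑ R ∈ G, ∑ R' ∈ G, (2 : ℝ) ^ (L R ∩ L R').card ≤ 2 * (G.card : ℝ) ^ 2) :
    prob (fun x : X → Bool => ∀ R ∈ G, ∃ u ∈ L R, x u ≠ a R u) ≤ 1 / 2 := by
  classical
  have hG0 : (0 : ℝ) < G.card := by exact_mod_cast hG.card_pos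
  have hcard : Fintype.card (X → Bool) = 2 ^ Fintype.card X := by
    rw [Fintype.card_fun, Fintype.card_bool]
  let z : (X → Bool) → ι → ℝ := fun x R => if ∀ u ∈ L R, x u = a R u then 1 else 0
  let Z : (X → Bool) → ℝ := fun x => ∑ R ∈ G, z x R
  let P : Finset (X → Bool) := univ.filter (fun x => Z x ≠ 0)
  have hz0 : ∀ x R, 0 ≤ z x R := fun x R => by
    simp only [z]
    split_ifs <;> norm_num
  -- first moment
  have h1 : (2 : ℝ) ^ t * ∑ x, Z x = G.card * 2 ^ Fintype.card X := by
    have h2 : ∑ x, Z x = ∑ R ∈ G, ∑ x, z x R := sum_comm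
    rw [h2, mul_sum]
    have h3 : ∀ R ∈ G, (2 : ℝ) ^ t * ∑ x, z x R = 2 ^ Fintype.card X := by
      intro R hR
      have h4 := card_agree (L R) (a R)
      rw [hL R hR] at h4
      have h5 : ∑ x, z x R =
          ((univ.filter (fun x : X → Bool => ∀ u ∈ L R, x u = a R u)).card : ℝ) := by
        simp only [z]
        rw [sum_boole]
      rw [h5]
      exact_mod_cast h4
    rw [sum_congr rfl h3, sum_const, nsmul_eq_mul]
  -- second moment
  have h2 : (2 : ℝ) ^ (2 * t) * ∑ x, Z x ^ 2 ≤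
      2 ^ Fintype.card X * (2 * (G.card : ℝ) ^ 2) := by
    have h3 : ∑ x, Z x ^ 2 = ∑ R ∈ G, ∑ R' ∈ G, ∑ x, z x R * z x R' := by
      have h4 : ∀ x, Z x ^ 2 = ∑ R ∈ G, ∑ R' ∈ G, z x R * z x R' := by
        intro x
        simp only [Z]
        rw [sq, sum_mul_sum]
      rw [sum_congr rfl fun x _ => h4 x, sum_comm]
      refine sum_congr rfl fun R _ => ?_
      rw [sum_comm]
    have h5 : ∀ R ∈ G, ∀ R' ∈ G, (2 : ℝ) ^ (2 * t) * ∑ x, z x R * z x R' ≤
        2 ^ Fintype.card X * 2 ^ (L R ∩ L R').card := by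
      intro R hR R' hR'
      have h6 := pair_card (L R) (L R') (a R) (a R') (hL R hR) (hL R' hR')
      have h7 : ∑ x, z x R * z x R' = ((univ.filter (fun x : X → Bool =>
          (∀ u ∈ L R, x u = a R u) ∧ (∀ u ∈ L R', x u = a R' u))).card : ℝ) := by
        rw [← sum_boole]
        refine sum_congr rfl fun x _ => ?_
        have key : ∀ A B : Prop, ∀ [Decidable A] [Decidable B],
            (if A then (1 : ℝ) else 0) * (if B then (1 : ℝ) else 0) =
              if A ∧ B then (1 : ℝ) else 0 := by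
          intro A B _ _
          by_cases hA : A <;> by_cases hB : B <;> simp [hA, hB]
        exact key _ _
      rw [h7, mul_comm ((2 : ℝ) ^ Fintype.card X)]
      exact_mod_cast h6
    calc (2 : ℝ) ^ (2 * t) * ∑ x, Z x ^ 2
        = ∑ R ∈ G, ∑ R' ∈ G, (2 : ℝ) ^ (2 * t) * ∑ x, z x R * z x R' := by
          rw [h3, mul_sum]
          refine sum_congr rfl fun R _ => ?_
          rw [mul_sum]
      _ ≤ ∑ R ∈ G, ∑ R' ∈ G, (2 : ℝ) ^ Fintype.card X * 2 ^ (L R ∩ L R').card :=
          sum_le_sum fun R hR => sum_le_sum fun R' hR' => h5 R hR R' hR'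
      _ = 2 ^ Fintype.card X * ∑ R ∈ G, ∑ R' ∈ G, (2 : ℝ) ^ (L R ∩ L R').card := by
          rw [mul_sum]
          refine sum_congr rfl fun R _ => ?_
          rw [mul_sum]
      _ ≤ 2 ^ Fintype.card X * (2 * (G.card : ℝ) ^ 2) :=
          mul_le_mul_of_nonneg_left hS (by positivity)
  -- Cauchy-Schwarz
  have h3 : (∑ x, Z x) ^ 2 ≤ P.card * ∑ x, Z x ^ 2 := by
    have h4 : ∑ x, Z x = ∑ x ∈ P, Z x := by
      symm
      apply sum_subset (subset_univ _)
      intro x _ hx
      by_contra h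
      exact hx (by simp only [P, mem_filter, mem_univ, true_and]; exact h)
    have h5 : ∑ x ∈ P, Z x ^ 2 ≤ ∑ x, Z x ^ 2 :=
      sum_le_sum_of_subset_of_nonneg (subset_univ _) fun x _ _ => sq_nonneg _
    rw [h4]
    exact (sq_sum_le_card_mul_sum_sq (s := P) (f := Z)).trans
      (mul_le_mul_of_nonneg_left h5 (Nat.cast_nonneg _))
  have hX : (0 : ℝ) < 2 ^ Fintype.card X := by positivity
  have h4 : (2 : ℝ) ^ Fintype.card X ≤ 2 * P.card := by
    have h5 : (G.card * (2 : ℝ) ^ Fintype.card X) ^ 2 ≤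
        P.card * (2 ^ Fintype.card X * (2 * (G.card : ℝ) ^ 2)) := by
      rw [← h1, mul_pow, ← pow_mul, mul_comm t 2]
      calc (2 : ℝ) ^ (2 * t) * (∑ x, Z x) ^ 2
          ≤ (2 : ℝ) ^ (2 * t) * (P.card * ∑ x, Z x ^ 2) :=
            mul_le_mul_of_nonneg_left h3 (by positivity)
        _ = P.card * ((2 : ℝ) ^ (2 * t) * ∑ x, Z x ^ 2) := by ring
        _ ≤ _ := mul_le_mul_of_nonneg_left h2 (Nat.cast_nonneg _)
    have h6 : ((G.card : ℝ) ^ 2 * 2 ^ Fintype.card X) * 2 ^ Fintype.card X ≤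
        ((G.card : ℝ) ^ 2 * 2 ^ Fintype.card X) * (2 * P.card) := by
      calc ((G.card : ℝ) ^ 2 * 2 ^ Fintype.card X) * 2 ^ Fintype.card X
          = (G.card * (2 : ℝ) ^ Fintype.card X) ^ 2 := by ring
        _ ≤ P.card * (2 ^ Fintype.card X * (2 * (G.card : ℝ) ^ 2)) := h5
        _ = _ := by ring
    exact le_of_mul_le_mul_left h6 (by positivity)
  -- the event is the complement of P
  have h5 : (univ.filter (fun x : X → Bool => ∀ R ∈ G, ∃ u ∈ L R, x u ≠ a R u)).card +
      P.card = 2 ^ Fintype.card X := by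
    have h6 : (univ.filter (fun x : X → Bool => ∀ R ∈ G, ∃ u ∈ L R, x u ≠ a R u)) = Pᶜ := by
      ext x
      simp only [P, mem_filter, mem_univ, true_and, mem_compl, not_not]
      simp only [Z]
      rw [sum_eq_zero_iff_of_nonneg (fun R _ => hz0 x R)]
      refine forall₂_congr fun R hR => ?_
      simp only [z]
      constructor
      · rintro ⟨u, hu, hne⟩
        rw [if_neg (fun h => hne (h u hu))]
      · intro h
        by_contra hcon
        push Not at hcon
        rw [if_pos hcon] at h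
        exact one_ne_zero h
    rw [h6, card_compl, hcard]
    have := card_le_univ P
    rw [hcard] at this
    omega
  rw [prob_eq, hcard, div_le_iff₀ (by positivity)]
  have h7 : ((univ.filter (fun x : X → Bool => ∀ R ∈ G, ∃ u ∈ L R, x u ≠ a R u)).card : ℝ) +
      P.card = 2 ^ Fintype.card X := by exact_mod_cast h5
  push_cast
  linarith

end Pool.Agent.Lib_MP_22d2c8_pm
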