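import Pool.Agent.Lib_MP_22d2c8_pm.Indep
import Pool.Agent.Lib_MP_22d2c8_pm.SmB
import Pool.Agent.Lib_MP_22d2c8_pm.SmC

/-!
# SM: a robust sunflower lemma for spread families of patterns
-/

namespace Pool.Agent.Lib_MP_22d2c8_pm

open Finset
open Pool.Agent.Lib_MP_22d2c8_rsf

theorem pattern_sunflower {X ι : Type} [Fintype X] [DecidableEq X] (F : Finset ι)
    (hF : F.Nonempty) (L : ι → Finset X) (a : ι → X → Bool) {t r κ : ℕ} (ht : 1 ≤ t)
    (hr : 1 ≤ r) (hL : ∀ R ∈ F, (L R).card = t) (hκ : 32 * r * t ≤ κ)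
    (hsp : ∀ J : Finset X, J.Nonempty →
      3 * ((F.filter (fun R => J ⊆ L R)).card * κ ^ J.card) ≤ 4 * F.card) :
    prob (fun x : X → Bool => ∀ R ∈ F, ∃ u ∈ L R, x u ≠ a R u) ≤ (1 / 2 : ℝ) ^ r := by
  classical
  obtain ⟨c, A, hA, hc⟩ := exists_colouring (r := 2 * r) F hF L ht (by omega) hL
    (by rw [← mul_assoc]; exact hκ) hsp
  refine (prob_mono (q := fun x => ∀ i ∈ A,
    ∀ R ∈ F.filter (fun R => ∀ u ∈ L R, c u = i), ∃ u ∈ L R, x u ≠ a R u) ?_).trans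
    ((prob_groups c _ ?_ A ?_).trans ?_)
  · intro x hx i _ R hR
    exact hx R (Finset.mem_filter.mp hR).1
  · intro i x x' hxx h R hR
    obtain ⟨u, hu, hne⟩ := h R hR
    refine ⟨u, hu, ?_⟩
    rw [← hxx u ((Finset.mem_filter.mp hR).2 u hu)]
    exact hne
  · intro i hi
    exact second_moment _ (hc i hi).1 L a (fun R hR => hL R (Finset.mem_filter.mp hR).1)
      (hc i hi).2
  · exact pow_le_pow_of_le_one (by norm_num) (by norm_num) (by omega)

end Pool.Agent.Lib_MP_22d2c8_pm
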