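import Pool.Agent.Lib_MP_22d2c8_pm.Defs

/-!
# SM A: the sum of the intersections in a spread family

PROOF. `((2 * r : ℝ)) ^ (L R ∩ L R').card = ∑ J ∈ (L R ∩ L R').powerset, (2 r - 1) ^ J.card`
(`Finset.sum_pow_mul_eq_add_pow`, with `b = 1`). Exchange the sums: the left-hand side is
`∑ J ∈ (L R).powerset, (2 r - 1) ^ J.card * #{R' ∈ F | J ⊆ L R'}`. The term of `J = ∅` is `F.card`;
the others are at most `(2 r - 1) ^ J.card * (4 / 3) * F.card / κ ^ J.card` by `hsp`. So the sum is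
at most `F.card * (1 + (4 / 3) * ((1 + y) ^ t - 1))` with `y = (2 r - 1) / κ ≤ 1 / (8 t)`.
Finally `(1 + y) ^ t ≤ 1 / (1 - t y) ≤ 8 / 7 ≤ 1 + 3 / 16`. So the factor is at most
`1 + (4 / 3) * (3 / 16) = 1 + 1 / 4`.
-/

namespace Pool.Agent.Lib_MP_22d2c8_pm

open Finset

private theorem pow_bound {t : ℕ} (ht : 1 ≤ t) {y : ℝ} (hy : 0 ≤ y)
    (hty : (t : ℝ) * y ≤ 1 / 8) : (1 + y) ^ t ≤ 1 + 3 / 16 := by
  have ht1 : (1 : ℝ) ≤ t := by exact_mod_cast ht
  have hy1 : y ≤ 1 := by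
    have h1 : y ≤ t * y := le_mul_of_one_le_left hy ht1
    linarith
  have hP : 0 ≤ (1 + y) ^ t := pow_nonneg (by linarith) t
  have h1 : 1 + (t : ℝ) * (-y) ≤ (1 + (-y)) ^ t := one_add_mul_le_pow (by linarith) t
  have h2 : (1 + y) ^ t * (1 + (-y)) ^ t ≤ 1 := by
    rw [← mul_pow]
    exact pow_le_one₀ (mul_nonneg (by linarith) (by linarith)) (by nlinarith)
  have h3 : (1 + y) ^ t * (1 - 1 / 8) ≤ 1 := by
    refine le_trans (mul_le_mul_of_nonneg_left ?_ hP) h2
    linarith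
  linarith

theorem sum_inter_le {X ι : Type} [DecidableEq X] (F : Finset ι) (L : ι → Finset X)
    {t r κ : ℕ} (ht : 1 ≤ t) (hr : 1 ≤ r) (hκ : 16 * r * t ≤ κ)
    (hsp : ∀ J : Finset X, J.Nonempty →
      3 * ((F.filter (fun R => J ⊆ L R)).card * κ ^ J.card) ≤ 4 * F.card)
    (R : ι) (hR : (L R).card = t) :
    ∑ R' ∈ F, (2 * r : ℝ) ^ (L R ∩ L R').card ≤ F.card * (1 + 1 / 4 : ℝ) := by
  classical
  set b : ℝ := 2 * r - 1 with hb
  have hr1 : (1 : ℝ) ≤ r := by exact_mod_cast hr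
  have ht1 : (1 : ℝ) ≤ t := by exact_mod_cast ht
  have hb0 : 0 ≤ b := by
    rw [hb]
    linarith
  have hκ1 : 16 * (r : ℝ) * t ≤ κ := by exact_mod_cast hκ
  have hκ0 : (0 : ℝ) < κ := lt_of_lt_of_le (by positivity) hκ1
  set y : ℝ := b / κ with hy
  have hy0 : 0 ≤ y := div_nonneg hb0 hκ0.le
  have hexp : ∀ A : Finset X, (2 * r : ℝ) ^ A.card = ∑ J ∈ A.powerset, b ^ J.card := by
    intro A
    have h := Finset.sum_pow_mul_eq_add_pow b 1 A
    simp only [one_pow, mul_one] at h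
    rw [h, hb]
    congr 1
    ring
  have h1 : ∑ R' ∈ F, (2 * r : ℝ) ^ (L R ∩ L R').card =
      ∑ J ∈ (L R).powerset, b ^ J.card * ((F.filter (fun R' => J ⊆ L R')).card : ℝ) := by
    have h2 : ∀ R' ∈ F, (2 * r : ℝ) ^ (L R ∩ L R').card =
        ∑ J ∈ (L R).powerset, if J ⊆ L R' then b ^ J.card else 0 := by
      intro R' _
      rw [hexp, ← Finset.sum_filter]
      refine Finset.sum_congr ?_ fun _ _ => rfl
      ext J
      simp only [Finset.mem_powerset, Finset.mem_filter, Finset.subset_inter_iff]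
    rw [Finset.sum_congr rfl h2, Finset.sum_comm]
    refine Finset.sum_congr rfl fun J _ => ?_
    rw [← Finset.sum_filter, Finset.sum_const, nsmul_eq_mul, mul_comm]
  have h3 : ∀ J ∈ (L R).powerset, b ^ J.card * ((F.filter (fun R' => J ⊆ L R')).card : ℝ) ≤
      4 / 3 * F.card * y ^ J.card - if J = ∅ then 1 / 3 * (F.card : ℝ) else 0 := by
    intro J _
    rcases J.eq_empty_or_nonempty with hJ | hJ
    · rw [if_pos hJ, hJ]
      have h4 : F.filter (fun R' => (∅ : Finset X) ⊆ L R') = F :=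
        Finset.filter_true_of_mem fun _ _ => Finset.empty_subset _
      rw [h4, Finset.card_empty, pow_zero, pow_zero]
      linarith
    · rw [if_neg hJ.ne_empty, sub_zero]
      have h4 : 3 * (((F.filter (fun R => J ⊆ L R)).card : ℝ) * (κ : ℝ) ^ J.card) ≤
          4 * (F.card : ℝ) := by exact_mod_cast hsp J hJ
      have h5 : 0 < (κ : ℝ) ^ J.card := pow_pos hκ0 _
      rw [hy, div_pow, mul_div_assoc', le_div_iff₀ h5]
      have h6 := mul_le_mul_of_nonneg_left h4 (pow_nonneg hb0 J.card)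
      linarith
  rw [h1]
  refine (Finset.sum_le_sum h3).trans ?_
  rw [Finset.sum_sub_distrib, ← Finset.mul_sum, Finset.sum_ite_eq', if_pos (Finset.empty_mem_powerset _)]
  have h7 : ∑ J ∈ (L R).powerset, y ^ J.card = (1 + y) ^ t := by
    have h := Finset.sum_pow_mul_eq_add_pow y 1 (L R)
    simp only [one_pow, mul_one] at h
    rw [h, hR, add_comm]
  rw [h7]
  have h8 : (t : ℝ) * y ≤ 1 / 8 := by
    rw [hy, mul_div_assoc', div_le_div_iff₀ hκ0 (by norm_num)]
    have h10 : b ≤ 2 * r := by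
      rw [hb]
      linarith
    have h11 := mul_le_mul_of_nonneg_left h10 (by positivity : (0 : ℝ) ≤ t * 8)
    nlinarith
  have h12 := pow_bound ht hy0 h8
  have h13 := mul_le_mul_of_nonneg_left h12 (by positivity : (0 : ℝ) ≤ 4 / 3 * (F.card : ℝ))
  have h14 : 4 / 3 * (F.card : ℝ) * (1 + 3 / 16) - 1 / 3 * (F.card : ℝ) =
      F.card * (1 + 1 / 4) := by
    ring
  linarith

end Pool.Agent.Lib_MP_22d2c8_pm
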