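import Pool.Agent.Lib_MP_22d2c8_ln.Defs

/-!
# UP A: circuits from straight-line programs

A program is a list of Boolean functions, the newest first, each of which is computed by one gate
from variables and older functions. The arbitrary gates are NOT gates, which are counted, and gates
whose predecessors are variables in a set `F`, which are not counted.
-/

namespace Pool.Agent.Lib_MP_22d2c8_pm

open Pool.Agent.Lib_MP_22d2c8_gen (Op)
open Pool.Agent.Lib_MP_22d2c8_clq (Net)
open Pool.Agent.Lib_MP_22d2c8_ln (Above wiresOn)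

/-- Boolean functions. -/
abbrev BF (V : Type) : Type := (V → Bool) → Bool

/-- The Boolean function of a property. -/
noncomputable def bf {V : Type} (p : (V → Bool) → Prop) : BF V :=
  fun x => @decide (p x) (Classical.propDecidable _)

theorem bf_eq {V : Type} {p : (V → Bool) → Prop} {x : V → Bool} : bf p x = true ↔ p x := by
  unfold bf
  exact @decide_eq_true_iff (p x) (Classical.propDecidable _)

variable {V : Type}

/-- One gate: an and-gate or an or-gate with predecessors in `A`, or an arbitrary gate whose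
predecessors are variables in `F`. -/
def Gate1 (F : Set V) (A : Set (BF V)) (f : BF V) : Prop :=
  (∃ S : Finset (BF V), (∀ g ∈ S, g ∈ A) ∧
    ((∀ x, f x = true ↔ ∀ g ∈ S, g x = true) ∨ (∀ x, f x = true ↔ ∃ g ∈ S, g x = true))) ∨
  ∃ S : Finset V, (∀ j ∈ S, j ∈ F) ∧ ∀ x y, (∀ j ∈ S, x j = y j) → f x = f y

theorem Gate1.mono {F : Set V} {A A' : Set (BF V)} {f : BF V} (h : Gate1 F A f) (hA : A ⊆ A') :
    Gate1 F A' f := by
  rcases h with ⟨S, h1, h2⟩ | h
  · exact Or.inl ⟨S, fun g hg => hA (h1 g hg), h2⟩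
  · exact Or.inr h

/-- The variables and the functions in the list. -/
def Av (l : List (BF V)) : Set (BF V) := {g | (∃ j, g = fun x => x j) ∨ g ∈ l}

/-- Programs with `w` NOT gates. -/
inductive Prog (F : Set V) : List (BF V) → ℕ → Prop
  | nil : Prog F [] 0
  | cons (l : List (BF V)) (f : BF V) (w : ℕ) : Prog F l w → Gate1 F (Av l) f → Prog F (f :: l) w
  | not (l : List (BF V)) (f g : BF V) (w : ℕ) : Prog F l w → g ∈ Av l → (∀ x, f x = !g x) →
      Prog F (f :: l) (w + 1)

theorem Prog.gate {F : Set V} {l : List (BF V)} {w : ℕ} (h : Prog F l w) :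
    ∃ κ : Fin l.length → ℕ, ∑ i, κ i ≤ w ∧
      ∀ i : Fin l.length, Gate1 F (Av (l.drop ((i : ℕ) + 1))) (l.get i) ∨
        (1 ≤ κ i ∧ ∃ g ∈ Av (l.drop ((i : ℕ) + 1)), ∀ x, l.get i x = !g x) := by
  induction h with
  | nil => exact ⟨fun _ => 0, by simp, fun i => absurd i.2 (Nat.not_lt_zero _)⟩
  | cons l f w _ hf ih =>
    obtain ⟨κ, h1, h2⟩ := ih
    refine ⟨(Fin.cons 0 κ : Fin (l.length + 1) → ℕ), ?_, ?_⟩
    · show ∑ i : Fin (l.length + 1), (Fin.cons 0 κ : Fin (l.length + 1) → ℕ) i ≤ w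
      rw [Fin.sum_univ_succ]
      simpa using h1
    · rintro ⟨i, hi⟩
      cases i with
      | zero => exact Or.inl hf
      | succ i => exact h2 ⟨i, by simpa using hi⟩
  | not l f g w _ hg hf ih =>
    obtain ⟨κ, h1, h2⟩ := ih
    refine ⟨(Fin.cons 1 κ : Fin (l.length + 1) → ℕ), ?_, ?_⟩
    · show ∑ i : Fin (l.length + 1), (Fin.cons 1 κ : Fin (l.length + 1) → ℕ) i ≤ w + 1
      rw [Fin.sum_univ_succ]
      simp only [Fin.cons_zero, Fin.cons_succ]
      omega
    · rintro ⟨i, hi⟩
      cases i with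
      | zero => exact Or.inr ⟨le_rfl, g, hg, hf⟩
      | succ i => exact h2 ⟨i, by simpa using hi⟩

/-- The values of the vertices. -/
def valf (l : List (BF V)) (x : V → Bool) : V ⊕ Fin l.length → Bool
  | .inl j => x j
  | .inr i => l.get i x

/-- The rank of a vertex. -/
def rkf (l : List (BF V)) : V ⊕ Fin l.length → ℕ
  | .inl _ => 0
  | .inr i => l.length - (i : ℕ)

theorem exists_vertex {l : List (BF V)} {i : Fin l.length} {g : BF V}
    (hg : g ∈ Av (l.drop ((i : ℕ) + 1))) :
    ∃ w : V ⊕ Fin l.length, (∀ x, valf l x w = g x) ∧ rkf l w < rkf l (Sum.inr i) := by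
  rcases hg with ⟨j, rfl⟩ | hg
  · refine ⟨Sum.inl j, fun x => rfl, ?_⟩
    show 0 < l.length - (i : ℕ)
    have := i.2
    omega
  · obtain ⟨k, hk, hgk⟩ := List.getElem_of_mem hg
    rw [List.length_drop] at hk
    rw [List.getElem_drop] at hgk
    refine ⟨Sum.inr ⟨(i : ℕ) + 1 + k, by omega⟩, fun x => ?_, ?_⟩
    · show l.get ⟨(i : ℕ) + 1 + k, _⟩ x = g x
      rw [← hgk]
      rfl
    · show l.length - ((i : ℕ) + 1 + k) < l.length - (i : ℕ)
      have := i.2
      omega

/-- Arbitrary gates. -/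
theorem exists_arb {l : List (BF V)} (S : Finset (V ⊕ Fin l.length)) (f : BF V)
    (hf : ∀ x y, (∀ u ∈ S, valf l x u = valf l y u) → f x = f y) :
    ∃ φ, ∀ x, (Op.arb S φ).eval (valf l x) = f x := by
  classical
  let φ : Finset (V ⊕ Fin l.length) → Bool := fun Q =>
    if hq : ∃ y : V → Bool, ∀ u ∈ S, (valf l y u = true ↔ u ∈ Q) then f hq.choose else false
  refine ⟨φ, fun x => ?_⟩
  show φ (S.filter (fun u => valf l x u = true)) = f x
  have hmem : ∀ u ∈ S, (valf l x u = true ↔ u ∈ S.filter (fun u => valf l x u = true)) := by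
    intro u hu
    rw [Finset.mem_filter]
    exact ⟨fun h => ⟨hu, h⟩, fun h => h.2⟩
  have hq : ∃ y : V → Bool, ∀ u ∈ S, (valf l y u = true ↔
      u ∈ S.filter (fun u => valf l x u = true)) := ⟨x, hmem⟩
  show (if hq : ∃ y : V → Bool, ∀ u ∈ S, (valf l y u = true ↔
      u ∈ S.filter (fun u => valf l x u = true)) then f hq.choose else false) = f x
  rw [dif_pos hq]
  apply hf
  intro u hu
  rw [Bool.eq_iff_iff, hq.choose_spec u hu, ← hmem u hu]

theorem exists_op {F : Set V} {l : List (BF V)} (i : Fin l.length) (κ : ℕ)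
    (h : Gate1 F (Av (l.drop ((i : ℕ) + 1))) (l.get i) ∨
        (1 ≤ κ ∧ ∃ g ∈ Av (l.drop ((i : ℕ) + 1)), ∀ x, l.get i x = !g x)) :
    ∃ o : Op (V ⊕ Fin l.length), (∀ u ∈ o.preds, rkf l u < rkf l (Sum.inr i)) ∧
      (∀ x, o.eval (valf l x) = l.get i x) ∧
      (o.isArb = true → (∀ u ∈ o.preds, ∃ j ∈ F, u = Sum.inl j) ∨ o.preds.card ≤ κ) := by
  classical
  rcases h with (⟨S, hS, hgate⟩ | ⟨S, hS, hf⟩) | ⟨hκ, g, hg, hf⟩
  · have hw : ∀ g : BF V, ∃ w : V ⊕ Fin l.length, g ∈ S →
        (∀ x, valf l x w = g x) ∧ rkf l w < rkf l (Sum.inr i) := by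
      intro g
      by_cases hg : g ∈ S
      · obtain ⟨w, h1, h2⟩ := exists_vertex (hS g hg)
        exact ⟨w, fun _ => ⟨h1, h2⟩⟩
      · exact ⟨Sum.inr i, fun h => absurd h hg⟩
    choose w hw using hw
    have hrk : ∀ u ∈ S.image w, rkf l u < rkf l (Sum.inr i) := by
      intro u hu
      obtain ⟨g, hg, rfl⟩ := Finset.mem_image.mp hu
      exact (hw g hg).2
    rcases hgate with hand | hor
    · refine ⟨.and (S.image w), hrk, fun x => ?_, fun hne => absurd hne (by simp [Op.isArb])⟩
      rw [Bool.eq_iff_iff, hand x]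
      show decide (∀ u ∈ S.image w, valf l x u = true) = true ↔ _
      rw [decide_eq_true_eq]
      constructor
      · intro h1 g hg
        rw [← (hw g hg).1 x]
        exact h1 _ (Finset.mem_image_of_mem w hg)
      · intro h1 u hu
        obtain ⟨g, hg, rfl⟩ := Finset.mem_image.mp hu
        rw [(hw g hg).1 x]
        exact h1 g hg
    · refine ⟨.or (S.image w), hrk, fun x => ?_, fun hne => absurd hne (by simp [Op.isArb])⟩
      rw [Bool.eq_iff_iff, hor x]
      show decide (∃ u ∈ S.image w, valf l x u = true) = true ↔ _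
      rw [decide_eq_true_eq]
      constructor
      · rintro ⟨u, hu, h1⟩
        obtain ⟨g, hg, rfl⟩ := Finset.mem_image.mp hu
        exact ⟨g, hg, by rw [← (hw g hg).1 x]; exact h1⟩
      · rintro ⟨g, hg, h1⟩
        exact ⟨w g, Finset.mem_image_of_mem w hg, by rw [(hw g hg).1 x]; exact h1⟩
  · obtain ⟨φ, hφ⟩ := exists_arb (l := l) (S.image Sum.inl) (l.get i) (fun x y hxy =>
      hf x y fun j hj => hxy (Sum.inl j) (Finset.mem_image_of_mem _ hj))
    refine ⟨.arb (S.image Sum.inl) φ, fun u hu => ?_, hφ, fun _ => Or.inl fun u hu => ?_⟩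
    · obtain ⟨j, -, rfl⟩ := Finset.mem_image.mp hu
      show 0 < l.length - (i : ℕ)
      have := i.2
      omega
    · obtain ⟨j, hj, rfl⟩ := Finset.mem_image.mp hu
      exact ⟨j, hS j hj, rfl⟩
  · obtain ⟨w, h1, h2⟩ := exists_vertex hg
    obtain ⟨φ, hφ⟩ := exists_arb (l := l) {w} (l.get i) (fun x y hxy => by
      rw [hf, hf, ← h1, ← h1, hxy w (Finset.mem_singleton_self w)])
    refine ⟨.arb {w} φ, fun u hu => ?_, hφ, fun _ => Or.inr ?_⟩
    · have hu' : u ∈ ({w} : Finset (V ⊕ Fin l.length)) := hu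
      rw [Finset.mem_singleton.mp hu']
      exact h2
    · show ({w} : Finset (V ⊕ Fin l.length)).card ≤ κ
      rw [Finset.card_singleton]
      exact hκ

/-- The run is unique. -/
theorem net_run_unique {s : ℕ} {C : Net V s} {x : V → Bool} {a b : V ⊕ Fin s → Bool}
    (ha : C.IsRun x a) (hb : C.IsRun x b) : a = b := by
  obtain ⟨rank, hrank⟩ := C.acyclic
  have key : ∀ n : ℕ, ∀ u, rank u = n → a u = b u := by
    intro n
    induction n using Nat.strong_induction_on with
    | _ n ih =>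
      intro u hu
      rcases u with j | g
      · rw [ha.1, hb.1]
      · rw [ha.2, hb.2]
        apply Pool.Agent.Lib_MP_22d2c8_gen.eval_congr
        intro v hv
        exact ih (rank v) (by rw [← hu]; exact hrank g v hv) v rfl
  funext u
  exact key _ u rfl

/-- The circuit of a program. -/
theorem exists_net {F : Set V} {l : List (BF V)} {w : ℕ} (h : Prog F l w) {f : BF V}
    (hf : f ∈ l) :
    ∃ C : Net V l.length, (∀ x, C.Accepts x ↔ f x = true) ∧
      ∀ (U : Set V), (∀ j ∈ U, j ∉ F) → wiresOn C U ≤ w := by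
  classical
  obtain ⟨κ, hκ, hgate⟩ := h.gate
  choose op hop1 hop2 hop3 using fun i => exists_op i (κ i) (hgate i)
  obtain ⟨k, hk, hfk⟩ := List.getElem_of_mem hf
  let C : Net V l.length := ⟨op, Sum.inr ⟨k, hk⟩, rkf l, hop1⟩
  have hrun : ∀ x, C.IsRun x (valf l x) := fun x => ⟨fun _ => rfl, fun g => (hop2 g x).symm⟩
  refine ⟨C, fun x => ⟨?_, ?_⟩, ?_⟩
  · rintro ⟨a, ha, h1⟩
    rw [net_run_unique ha (hrun x)] at h1
    rw [← hfk]
    exact h1
  · intro h1
    refine ⟨valf l x, hrun x, ?_⟩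
    show l.get ⟨k, hk⟩ x = true
    rw [← hfk] at h1
    exact h1
  · intro U hU
    unfold wiresOn
    calc ∑ g ∈ Finset.univ.filter (fun g => (C.op g).isArb = true),
          ((C.op g).preds.filter (fun u => Above C U u)).card
        ≤ ∑ g ∈ Finset.univ.filter (fun g => (C.op g).isArb = true), κ g := by
          apply Finset.sum_le_sum
          intro g hg
          rcases hop3 g (Finset.mem_filter.mp hg).2 with h1 | h1
          · have h2 : (C.op g).preds.filter (fun u => Above C U u) = ∅ := by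
              rw [Finset.filter_eq_empty_iff]
              intro u hu hab
              obtain ⟨j, hj, rfl⟩ := h1 u hu
              cases hab with
              | var j hj' => exact hU j hj' hj
            rw [h2]
            simp
          · exact (Finset.card_filter_le _ _).trans h1
      _ ≤ ∑ g, κ g := Finset.sum_le_sum_of_subset (Finset.filter_subset _ _)
      _ ≤ w := hκ

/-- The functions in `A` can be computed with `s` gates, `w` of them NOT gates. -/
def Comp (F : Set V) (s w : ℕ) (A : Set (BF V)) : Prop :=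
  ∃ l w', Prog F l w' ∧ l.length ≤ s ∧ w' ≤ w ∧ A ⊆ Av l

theorem Comp.zero (F : Set V) : Comp F 0 0 {g | ∃ j, g = fun x => x j} :=
  ⟨[], 0, .nil, le_rfl, le_rfl, fun _ hg => Or.inl hg⟩

theorem Comp.mono {F : Set V} {s s' w w' : ℕ} {A A' : Set (BF V)} (h : Comp F s w A)
    (hs : s ≤ s') (hw : w ≤ w') (hA : A' ⊆ A) : Comp F s' w' A' := by
  obtain ⟨l, w1, h1, h2, h3, h4⟩ := h
  exact ⟨l, w1, h1, h2.trans hs, h3.trans hw, hA.trans h4⟩

/-- A family of new gates. -/
theorem Comp.ext {F : Set V} {s w : ℕ} {A : Set (BF V)} (h : Comp F s w A) {ι : Type}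
    [Fintype ι] (f : ι → BF V) (hf : ∀ i, Gate1 F A (f i)) :
    Comp F (s + Fintype.card ι) w (A ∪ Set.range f) := by
  classical
  obtain ⟨l, w1, h1, h2, hw, h3⟩ := h
  have key : ∀ t : Finset ι, ∃ l', Prog F l' w1 ∧ l'.length = l.length + t.card ∧ Av l ⊆ Av l' ∧
      ∀ i ∈ t, f i ∈ Av l' := by
    intro t
    induction t using Finset.induction_on with
    | empty => exact ⟨l, h1, by simp, subset_rfl, by simp⟩
    | insert a t ha ih =>
      obtain ⟨l', g1, g2, g3, g4⟩ := ih
      refine ⟨f a :: l', .cons l' (f a) w1 g1 ((hf a).mono (h3.trans g3)), ?_, ?_, ?_⟩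
      · rw [List.length_cons, g2, Finset.card_insert_of_notMem ha]
        ring
      · intro g hg
        rcases g3 hg with h4 | h4
        · exact Or.inl h4
        · exact Or.inr (List.mem_cons_of_mem _ h4)
      · intro i hi
        rcases Finset.mem_insert.mp hi with rfl | hi
        · exact Or.inr List.mem_cons_self
        · rcases g4 i hi with h4 | h4
          · exact Or.inl h4
          · exact Or.inr (List.mem_cons_of_mem _ h4)
  obtain ⟨l', g1, g2, g3, g4⟩ := key Finset.univ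
  refine ⟨l', w1, g1, ?_, hw, ?_⟩
  · rw [g2, Finset.card_univ]
    omega
  · rintro g (hg | ⟨i, rfl⟩)
    · exact g3 (h3 hg)
    · exact g4 i (Finset.mem_univ i)

/-- A NOT gate. -/
theorem Comp.not {F : Set V} {s w : ℕ} {A : Set (BF V)} (h : Comp F s w A) {f g : BF V}
    (hg : g ∈ A) (hf : ∀ x, f x = !g x) : Comp F (s + 1) (w + 1) (A ∪ {f}) := by
  obtain ⟨l, w1, h1, h2, hw, h3⟩ := h
  refine ⟨f :: l, w1 + 1, .not l f g w1 h1 (h3 hg) hf, ?_, by omega, ?_⟩
  · rw [List.length_cons]
    omega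
  · rintro k (hk | hk)
    · rcases h3 hk with h4 | h4
      · exact Or.inl h4
      · exact Or.inr (List.mem_cons_of_mem _ h4)
    · rw [Set.mem_singleton_iff.mp hk]
      exact Or.inr List.mem_cons_self

/-- The circuit. -/
theorem Comp.net {F : Set V} {s w : ℕ} {A : Set (BF V)} (h : Comp F s w A) {f : BF V}
    (hf : Gate1 F A f) :
    ∃ s' ≤ s + 1, ∃ C : Net V s', (∀ x, C.Accepts x ↔ f x = true) ∧
      ∀ (U : Set V), (∀ j ∈ U, j ∉ F) → wiresOn C U ≤ w := by
  obtain ⟨l, w1, h1, h2, hw, h3⟩ := h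
  have h4 : Prog F (f :: l) w1 := .cons l f w1 h1 (hf.mono h3)
  obtain ⟨C, hC1, hC2⟩ := exists_net h4 List.mem_cons_self
  refine ⟨(f :: l).length, by rw [List.length_cons]; omega, C, hC1, fun U hU => ?_⟩
  exact (hC2 U hU).trans hw

theorem Gate1.tt {F : Set V} {A : Set (BF V)} {f : BF V} (hf : ∀ x, f x = true) :
    Gate1 F A f :=
  Or.inl ⟨∅, by simp, Or.inl fun x => by simp [hf x]⟩

theorem Gate1.ff {F : Set V} {A : Set (BF V)} {f : BF V} (hf : ∀ x, ¬ f x = true) :
    Gate1 F A f :=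
  Or.inl ⟨∅, by simp, Or.inr fun x => by simpa using hf x⟩

/-- And-gates with two predecessors. -/
theorem Gate1.and2 {F : Set V} {A : Set (BF V)} {f g h : BF V} (hg : g ∈ A) (hh : h ∈ A)
    (hf : ∀ x, f x = true ↔ g x = true ∧ h x = true) : Gate1 F A f := by
  classical
  refine Or.inl ⟨{g, h}, ?_, Or.inl fun x => ?_⟩
  · intro k hk
    rcases Finset.mem_insert.mp hk with rfl | hk
    · exact hg
    · rw [Finset.mem_singleton.mp hk]
      exact hh
  · rw [hf]
    simp

/-- Or-gates with two predecessors. -/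
theorem Gate1.or2 {F : Set V} {A : Set (BF V)} {f g h : BF V} (hg : g ∈ A) (hh : h ∈ A)
    (hf : ∀ x, f x = true ↔ g x = true ∨ h x = true) : Gate1 F A f := by
  classical
  refine Or.inl ⟨{g, h}, ?_, Or.inr fun x => ?_⟩
  · intro k hk
    rcases Finset.mem_insert.mp hk with rfl | hk
    · exact hg
    · rw [Finset.mem_singleton.mp hk]
      exact hh
  · rw [hf]
    simp

theorem Gate1.and3 {F : Set V} {A : Set (BF V)} {f g h k : BF V} (hg : g ∈ A) (hh : h ∈ A)
    (hk : k ∈ A) (hf : ∀ x, f x = true ↔ g x = true ∧ h x = true ∧ k x = true) :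
    Gate1 F A f := by
  classical
  refine Or.inl ⟨{g, h, k}, ?_, Or.inl fun x => ?_⟩
  · intro j hj
    simp only [Finset.mem_insert, Finset.mem_singleton] at hj
    rcases hj with rfl | rfl | rfl
    · exact hg
    · exact hh
    · exact hk
  · rw [hf]
    simp

/-- Or-gates over a family. -/
theorem Gate1.orI {F : Set V} {A : Set (BF V)} {f : BF V} {ι : Type} [Fintype ι] (g : ι → BF V)
    (p : ι → Prop) (hg : ∀ i, p i → g i ∈ A)
    (hf : ∀ x, f x = true ↔ ∃ i, p i ∧ g i x = true) : Gate1 F A f := by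
  classical
  refine Or.inl ⟨(Finset.univ.filter p).image g, ?_, Or.inr fun x => ?_⟩
  · intro k hk
    obtain ⟨i, hi, rfl⟩ := Finset.mem_image.mp hk
    exact hg i (Finset.mem_filter.mp hi).2
  · rw [hf]
    constructor
    · rintro ⟨i, h1, h2⟩
      exact ⟨g i, Finset.mem_image_of_mem g (Finset.mem_filter.mpr ⟨Finset.mem_univ i, h1⟩), h2⟩
    · rintro ⟨k, hk, h2⟩
      obtain ⟨i, hi, rfl⟩ := Finset.mem_image.mp hk
      exact ⟨i, (Finset.mem_filter.mp hi).2, h2⟩

/-- And-gates over a family. -/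
theorem Gate1.andI {F : Set V} {A : Set (BF V)} {f : BF V} {ι : Type} [Fintype ι] (g : ι → BF V)
    (p : ι → Prop) (hg : ∀ i, p i → g i ∈ A)
    (hf : ∀ x, f x = true ↔ ∀ i, p i → g i x = true) : Gate1 F A f := by
  classical
  refine Or.inl ⟨(Finset.univ.filter p).image g, ?_, Or.inl fun x => ?_⟩
  · intro k hk
    obtain ⟨i, hi, rfl⟩ := Finset.mem_image.mp hk
    exact hg i (Finset.mem_filter.mp hi).2
  · rw [hf]
    constructor
    · intro h1 k hk
      obtain ⟨i, hi, rfl⟩ := Finset.mem_image.mp hk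
      exact h1 i (Finset.mem_filter.mp hi).2
    · intro h1 i hi
      exact h1 _ (Finset.mem_image_of_mem g (Finset.mem_filter.mpr ⟨Finset.mem_univ i, hi⟩))

end Pool.Agent.Lib_MP_22d2c8_pm
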