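import Pool.Agent.Lib_MP_22d2c8_pm.UpA
import Pool.Agent.Lib_MP_22d2c8_pm.RoomDefs

/-!
# UP B: odd components and a set of vertices

`C` is a set of vertices of the host graph. Parity of the components of a subgraph in
terms of the components of the subgraph formed by the edges which do not touch `C`.
-/

namespace Pool.Agent.Lib_MP_22d2c8_pm

variable {N : ℕ} {H : Fin N → Fin N → Prop}

/-- Inputs: subgraphs of the host graph. -/
abbrev Inp {N : ℕ} (H : Fin N → Fin N → Prop) : Type := HostEdge H → Bool

/-- Adjacency. -/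
def adj (x : Inp H) : Vx N → Vx N → Prop
  | .inl i, .inr j => ∃ h : H i j, x ⟨(i, j), h⟩ = true
  | .inr j, .inl i => ∃ h : H i j, x ⟨(i, j), h⟩ = true
  | _, _ => False

theorem adj_symm (x : Inp H) (u v : Vx N) : adj x u v ↔ adj x v u := by
  rcases u with i | i <;> rcases v with j | j <;> rfl

/-- The graph of the input. -/
def gr (x : Inp H) : SimpleGraph (Vx N) where
  Adj u v := adj x u v
  symm := ⟨fun u v h => (adj_symm x u v).mp h⟩
  loopless := ⟨fun u h => by rcases u with i | i <;> exact h⟩

/-- A walk with at most `t` edges. -/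
def rch (x : Inp H) : ℕ → Vx N → Vx N → Prop
  | 0, u, v => u = v
  | t + 1, u, v => rch x t u v ∨ ∃ w, adj x u w ∧ rch x t w v

theorem rch_refl (x : Inp H) (t : ℕ) (u : Vx N) : rch x t u u := by
  induction t with
  | zero => rfl
  | succ t ih => exact Or.inl ih

theorem reachable_of_rch {x : Inp H} {t : ℕ} {u v : Vx N} (h : rch x t u v) :
    (gr x).Reachable u v := by
  induction t generalizing u with
  | zero =>
    have : u = v := h
    rw [this]
  | succ t ih =>
    rcases h with h | ⟨w, h1, h2⟩
    · exact ih h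
    · have h3 : (gr x).Adj u w := h1
      exact h3.reachable.trans (ih h2)

theorem rch_of_walk {x : Inp H} {u v : Vx N} (p : (gr x).Walk u v) :
    ∀ t, p.length ≤ t → rch x t u v := by
  induction p with
  | nil => exact fun t _ => rch_refl x t _
  | cons h p ih =>
    intro t ht
    rw [SimpleGraph.Walk.length_cons] at ht
    cases t with
    | zero => omega
    | succ t => exact Or.inr ⟨_, h, ih t (by omega)⟩

theorem rch_iff {x : Inp H} {u v : Vx N} : rch x (2 * N) u v ↔ (gr x).Reachable u v := by
  refine ⟨reachable_of_rch, fun h => ?_⟩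
  obtain ⟨p, hp⟩ := h.exists_isPath
  have h1 := hp.length_lt
  have h2 : Fintype.card (Vx N) = 2 * N := by
    rw [Fintype.card_sum, Fintype.card_fin]
    ring
  exact rch_of_walk p _ (by omega)

theorem closed_reachable {x : Inp H} {A : Finset (Vx N)}
    (hA : ∀ e : HostEdge H, x e = true → (Sum.inl e.1.1 ∈ A ↔ Sum.inr e.1.2 ∈ A))
    {u v : Vx N} (h : (gr x).Reachable u v) : u ∈ A ↔ v ∈ A := by
  obtain ⟨p⟩ := h
  induction p with
  | nil => rfl
  | @cons a b c hab p ih =>
    rw [← ih]
    have h1 : adj x a b := hab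
    rcases a with i | i <;> rcases b with j | j
    · exact absurd h1 id
    · obtain ⟨h, h2⟩ := h1
      exact hA ⟨(i, j), h⟩ h2
    · obtain ⟨h, h2⟩ := h1
      exact (hA ⟨(j, i), h⟩ h2).symm
    · exact absurd h1 id

/-- The edge does not touch `C`. -/
def Off (C : Finset (Vx N)) (e : HostEdge H) : Prop :=
  Sum.inl e.1.1 ∉ C ∧ Sum.inr e.1.2 ∉ C

open Classical in
/-- The edges which do not touch `C`. -/
noncomputable def off (C : Finset (Vx N)) (x : Inp H) : Inp H :=
  fun e => if Off C e then x e else false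

theorem off_congr {C : Finset (Vx N)} {x y : Inp H} (h : ∀ e, Off C e → x e = y e) :
    off C x = off C y := by
  funext e
  unfold off
  by_cases he : Off C e
  · rw [if_pos he, if_pos he, h e he]
  · rw [if_neg he, if_neg he]

theorem off_eq {C : Finset (Vx N)} {x : Inp H} {e : HostEdge H} :
    off C x e = true ↔ x e = true ∧ Off C e := by
  unfold off
  by_cases h : Off C e
  · rw [if_pos h]
    exact ⟨fun h1 => ⟨h1, h⟩, fun h1 => h1.1⟩
  · rw [if_neg h]
    exact ⟨fun h1 => absurd h1 (by simp), fun h1 => absurd h1.2 h⟩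

theorem adj_off {C : Finset (Vx N)} {x : Inp H} {u v : Vx N} :
    adj (off C x) u v ↔ adj x u v ∧ u ∉ C ∧ v ∉ C := by
  rcases u with i | i <;> rcases v with j | j
  · exact ⟨fun h => absurd h id, fun h => absurd h.1 id⟩
  · constructor
    · rintro ⟨h, h1⟩
      have h2 := off_eq.mp h1
      exact ⟨⟨h, h2.1⟩, h2.2.1, h2.2.2⟩
    · rintro ⟨⟨h, h1⟩, h2, h3⟩
      exact ⟨h, off_eq.mpr ⟨h1, h2, h3⟩⟩
  · constructor
    · rintro ⟨h, h1⟩
      have h2 := off_eq.mp h1
      exact ⟨⟨h, h2.1⟩, h2.2.2, h2.2.1⟩
    · rintro ⟨⟨h, h1⟩, h2, h3⟩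
      exact ⟨h, off_eq.mpr ⟨h1, h3, h2⟩⟩
  · exact ⟨fun h => absurd h id, fun h => absurd h.1 id⟩

open Classical in
/-- The component of the vertex `w`. -/
noncomputable def cls (x : Inp H) (w : Vx N) : Finset (Vx N) :=
  Finset.univ.filter (fun u => (gr x).Reachable w u)

theorem mem_cls {x : Inp H} {w u : Vx N} : u ∈ cls x w ↔ (gr x).Reachable w u := by
  simp [cls]

open Classical in
/-- In a union of components the number of vertices in components of even size is even. -/
theorem even_part {x : Inp H} {A : Finset (Vx N)}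
    (hA : ∀ u v, (gr x).Reachable u v → u ∈ A → v ∈ A) :
    Even (A.filter (fun w => ¬ Odd (cls x w).card)).card := by
  rw [Finset.card_eq_sum_card_image (cls x)]
  apply Finset.even_sum
  intro b hb
  obtain ⟨w, hw, rfl⟩ := Finset.mem_image.mp hb
  rw [Finset.mem_filter, Nat.not_odd_iff_even] at hw
  have h1 : (A.filter (fun w => ¬ Odd (cls x w).card)).filter (fun u => cls x u = cls x w)
      = cls x w := by
    ext u
    rw [Finset.mem_filter, Finset.mem_filter, mem_cls]
    constructor
    · rintro ⟨-, h2⟩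
      rw [← mem_cls, ← h2, mem_cls]
    · intro h2
      have h3 : cls x u = cls x w := by
        ext a
        rw [mem_cls, mem_cls]
        exact ⟨fun h => h2.trans h, fun h => h2.symm.trans h⟩
      refine ⟨⟨hA w u h2 hw.1, ?_⟩, h3⟩
      rw [h3, Nat.not_odd_iff_even]
      exact hw.2
  rw [h1]
  exact hw.2

/-- Parity of a union of components. -/
theorem odd_iff_part {x : Inp H} {A : Finset (Vx N)}
    (hA : ∀ u v, (gr x).Reachable u v → u ∈ A → v ∈ A) :
    Odd A.card ↔ Odd (A.filter (fun w => Odd (cls x w).card)).card := by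
  classical
  have h1 := even_part hA
  have h2 := Finset.card_filter_add_card_filter_not (s := A) (fun w => Odd (cls x w).card)
  rw [← h2, Nat.odd_add]
  exact ⟨fun h => h.mpr (by convert h1), fun h => ⟨fun _ => by convert h1, fun _ => h⟩⟩

open Classical in
/-- Odd parts in terms of `C`. -/
theorem oddPart_iff {C : Finset (Vx N)} {x : Inp H} :
    ¬ HasOddPart H x ↔
      (∀ w, Odd (cls (off C x) w).card → ∃ c ∈ C, (gr x).Reachable w c) ∧
      ∀ c ∈ C, Even (Finset.univ.filter
        (fun w => Odd (cls (off C x) w).card ∧ (gr x).Reachable w c)).card := by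
  have hoff : ∀ {u v : Vx N}, (gr (off C x)).Reachable u v → (gr x).Reachable u v := by
    intro u v h
    exact h.mono fun a b hab => (adj_off.mp hab).1
  have hcl : ∀ w : Vx N, ∀ u v, (gr x).Reachable u v → u ∈ cls x w → v ∈ cls x w := by
    intro w u v h hu
    rw [mem_cls] at hu ⊢
    exact hu.trans h
  have hset : ∀ w : Vx N, (Finset.univ.filter
      (fun u => Odd (cls (off C x) u).card ∧ (gr x).Reachable u w)) =
      (cls x w).filter (fun u => Odd (cls (off C x) u).card) := by
    intro w
    ext u
    simp only [Finset.mem_filter, Finset.mem_univ, true_and, mem_cls]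
    exact ⟨fun h => ⟨h.2.symm, h.1⟩, fun h => ⟨h.2, h.1.symm⟩⟩
  -- a component is an odd part if it has an odd number of vertices
  have hpart : ∀ A : Finset (Vx N), (∀ u v, (gr x).Reachable u v → u ∈ A → v ∈ A) →
      ¬ HasOddPart H x → ¬ Odd A.card := by
    intro A hA h hodd
    refine h ⟨A, hodd, fun e he => ?_⟩
    have h1 : (gr x).Adj (Sum.inl e.1.1) (Sum.inr e.1.2) := ⟨e.2, he⟩
    exact ⟨fun h2 => hA _ _ h1.reachable h2, fun h2 => hA _ _ h1.symm.reachable h2⟩
  constructor
  · intro h
    refine ⟨fun w hw => ?_, fun c _ => ?_⟩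
    · by_contra hcon
      push Not at hcon
      refine hpart (cls (off C x) w) ?_ h hw
      intro u v huv hu
      rw [mem_cls] at hu ⊢
      obtain ⟨p⟩ := huv
      induction p with
      | nil => exact hu
      | @cons a b c hab p ih =>
        apply ih
        have h1 : a ∉ C := fun ha => hcon a ha (hoff hu)
        have h2 : b ∉ C := fun hb => hcon b hb ((hoff hu).trans hab.reachable)
        have h3 : (gr (off C x)).Adj a b := adj_off.mpr ⟨hab, h1, h2⟩
        exact hu.trans h3.reachable
    · have h1 := hpart (cls x c) (hcl c) h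
      rw [odd_iff_part (x := off C x) (fun u v huv hu => hcl c u v (hoff huv) hu),
        Nat.not_odd_iff_even] at h1
      rw [hset c]
      convert h1
  · rintro ⟨h1, h2⟩ ⟨A, hA, hAe⟩
    have hA' : ∀ u v, (gr x).Reachable u v → u ∈ A → v ∈ A := fun u v huv hu =>
      (closed_reachable hAe huv).mp hu
    rw [odd_iff_part hA'] at hA
    have hne : ((A.filter (fun w => Odd (cls x w).card))).Nonempty := by
      rw [Finset.nonempty_iff_ne_empty]
      intro h0
      rw [h0] at hA
      simp at hA
    obtain ⟨w, hw⟩ := hne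
    rw [Finset.mem_filter] at hw
    have h3 := hw.2
    rw [odd_iff_part (x := off C x) (fun u v huv hu => hcl w u v (hoff huv) hu)] at h3
    by_cases hc : ∃ c ∈ C, (gr x).Reachable w c
    · obtain ⟨c, hc, hwc⟩ := hc
      have h4 := h2 c hc
      rw [hset c, ← Nat.not_odd_iff_even] at h4
      have h5 : cls x w = cls x c := by
        ext a
        rw [mem_cls, mem_cls]
        exact ⟨fun h => hwc.symm.trans h, fun h => hwc.trans h⟩
      rw [h5] at h3
      exact h4 (by convert h3)
    · have hne : ((cls x w).filter (fun u => Odd (cls (off C x) u).card)).Nonempty := by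
        rw [Finset.nonempty_iff_ne_empty]
        intro h0
        rw [h0] at h3
        simp at h3
      obtain ⟨u, hu⟩ := hne
      rw [Finset.mem_filter, mem_cls] at hu
      obtain ⟨c, hcC, huc⟩ := h1 u hu.2
      exact hc ⟨c, hcC, hu.1.trans huc⟩

end Pool.Agent.Lib_MP_22d2c8_pm
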