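import Pool.Agent.Lib_MP_22d2c8_pm.UpB

/-!
# UP C: the smallest vertices of the parts of `C`

The components divide the set `C` of vertices into parts. `pot C x` is the set of the elements of
`C` which are not the smallest elements of their parts.
-/

namespace Pool.Agent.Lib_MP_22d2c8_pm

variable {N : ℕ} {H : Fin N → Fin N → Prop}

theorem card_vx : Fintype.card (Vx N) = 2 * N := by
  rw [Fintype.card_sum, Fintype.card_fin]
  ring

/-- The number of a vertex. -/
noncomputable def idx (w : Vx N) : ℕ := (Fintype.equivFin (Vx N) w : ℕ)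

theorem idx_inj {u v : Vx N} (h : idx u = idx v) : u = v :=
  (Fintype.equivFin (Vx N)).injective (Fin.ext h)

theorem idx_lt (w : Vx N) : idx w < 2 * N := by
  have h2 := card_vx (N := N)
  have h1 := (Fintype.equivFin (Vx N) w).2
  unfold idx
  omega

theorem exists_idx {j : ℕ} (hj : j < 2 * N) : ∃ w : Vx N, idx w = j := by
  have h2 := card_vx (N := N)
  refine ⟨(Fintype.equivFin (Vx N)).symm ⟨j, by omega⟩, ?_⟩
  unfold idx
  rw [Equiv.apply_symm_apply]

open Classical in
/-- The vertices in `C` which are joined to a smaller vertex in `C`. -/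
noncomputable def pot (C : Finset (Vx N)) (x : Inp H) : Finset (Vx N) :=
  C.filter (fun c => ∃ c' ∈ C, idx c' < idx c ∧ (gr x).Reachable c' c)

theorem mem_pot {C : Finset (Vx N)} {x : Inp H} {c : Vx N} :
    c ∈ pot C x ↔ c ∈ C ∧ ∃ c' ∈ C, idx c' < idx c ∧ (gr x).Reachable c' c := by
  simp [pot]

theorem pot_card {C : Finset (Vx N)} (hC : C.Nonempty) (x : Inp H) :
    (pot C x).card < C.card := by
  obtain ⟨a, ha, hmin⟩ := Finset.exists_min_image C idx hC
  have h1 : pot C x ⊆ C.erase a := by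
    intro c hc
    obtain ⟨h2, c', h3, h4, -⟩ := mem_pot.mp hc
    refine Finset.mem_erase.mpr ⟨?_, h2⟩
    rintro rfl
    exact absurd (hmin c' h3) (by omega)
  calc (pot C x).card ≤ (C.erase a).card := Finset.card_le_card h1
    _ < C.card := Finset.card_erase_lt_of_mem ha

/-- `a` is the smallest vertex of `C` in the component of `w`. -/
def Mn (C : Finset (Vx N)) (x : Inp H) (a w : Vx N) : Prop :=
  a ∈ C ∧ a ∉ pot C x ∧ (gr x).Reachable a w

theorem mn_exists {C : Finset (Vx N)} {x : Inp H} {c w : Vx N} (hc : c ∈ C)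
    (h : (gr x).Reachable w c) : ∃ a, Mn C x a w := by
  classical
  obtain ⟨a, ha, hmin⟩ := Finset.exists_min_image
    (C.filter (fun a => (gr x).Reachable a w)) idx
    ⟨c, Finset.mem_filter.mpr ⟨hc, h.symm⟩⟩
  rw [Finset.mem_filter] at ha
  refine ⟨a, ha.1, fun hp => ?_, ha.2⟩
  obtain ⟨-, b, h3, h4, h5⟩ := mem_pot.mp hp
  exact absurd (hmin b (Finset.mem_filter.mpr ⟨h3, h5.trans ha.2⟩)) (by omega)

theorem mn_unique {C : Finset (Vx N)} {x : Inp H} {a b w : Vx N} (ha : Mn C x a w)
    (hb : Mn C x b w) : a = b := by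
  have hab : (gr x).Reachable a b := ha.2.2.trans hb.2.2.symm
  rcases Nat.lt_trichotomy (idx a) (idx b) with h | h | h
  · exact absurd (mem_pot.mpr ⟨hb.1, a, ha.1, h, hab⟩) hb.2.1
  · exact idx_inj h
  · exact absurd (mem_pot.mpr ⟨ha.1, b, hb.1, h, hab.symm⟩) ha.2.1

/-- The reachability functions. -/
noncomputable def rf (t : ℕ) (u v : Vx N) : BF (HostEdge H) := bf fun x => rch x t u v

theorem rf_eq {t : ℕ} {u v : Vx N} {x : Inp H} : rf t u v x = true ↔ rch x t u v := bf_eq

end Pool.Agent.Lib_MP_22d2c8_pm
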