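import Pool.Agent.Lib_MP_22d2c8_pm.UpC

/-!
# UP D: parities by dynamic programming

The states of the computation: for a vertex `a` in `C` the parity of the number of the vertices
`w` with `Mn C x a w` which lie in odd components of the graph of the edges which do not touch `C`.
-/

namespace Pool.Agent.Lib_MP_22d2c8_pm

variable {N : ℕ} {H : Fin N → Fin N → Prop}

/-- The vertex lies in an odd component of the graph of the edges which do not touch `C`. -/
def OddV (C : Finset (Vx N)) (x : Inp H) (w : Vx N) : Prop := Odd (cls (off C x) w).card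

open Classical in
/-- The vertices which are counted. -/
noncomputable def cs (C : Finset (Vx N)) (x : Inp H) (a : Vx N) (j : ℕ) : Finset (Vx N) :=
  Finset.univ.filter (fun w => idx w < j ∧ OddV C x w ∧ Mn C x a w)

theorem mem_cs {C : Finset (Vx N)} {x : Inp H} {a w : Vx N} {j : ℕ} :
    w ∈ cs C x a j ↔ idx w < j ∧ OddV C x w ∧ Mn C x a w := by
  simp [cs]

/-- The states. -/
def St (C : Finset (Vx N)) (a : Vx N) (j : ℕ) (b : Bool) (x : Inp H) : Prop :=
  (∀ w, idx w < j → OddV C x w → ∃ a', Mn C x a' w) ∧ (Odd (cs C x a j).card ↔ b = true)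

theorem st_zero {C : Finset (Vx N)} {a : Vx N} {b : Bool} {x : Inp H} :
    St C a 0 b x ↔ b = false := by
  have h1 : cs C x a 0 = ∅ := by
    ext w
    rw [mem_cs]
    simp
  unfold St
  rw [h1]
  cases b <;> simp

theorem st_succ {C : Finset (Vx N)} {a : Vx N} {j : ℕ} {b : Bool} {x : Inp H}
    {w : Vx N} (hw : idx w = j) :
    St C a (j + 1) b x ↔ (OddV C x w ∧ Mn C x a w ∧ St C a j (!b) x) ∨
      (OddV C x w ∧ (∃ a', a' ≠ a ∧ Mn C x a' w) ∧ St C a j b x) ∨
      (¬ OddV C x w ∧ St C a j b x) := by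
  classical
  have hlt : ∀ u : Vx N, idx u < j + 1 ↔ idx u < j ∨ u = w := by
    intro u
    constructor
    · intro h
      rcases Nat.lt_succ_iff_lt_or_eq.mp h with h1 | h1
      · exact Or.inl h1
      · exact Or.inr (idx_inj (h1.trans hw.symm))
    · rintro (h | rfl)
      · omega
      · omega
  have hP : (∀ u, idx u < j + 1 → OddV C x u → ∃ a', Mn C x a' u) ↔
      (∀ u, idx u < j → OddV C x u → ∃ a', Mn C x a' u) ∧
        (OddV C x w → ∃ a', Mn C x a' w) := by
    constructor
    · intro h
      exact ⟨fun u hu => h u (by omega), h w (by omega)⟩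
    · rintro ⟨h1, h2⟩ u hu
      rcases (hlt u).mp hu with h3 | rfl
      · exact h1 u h3
      · exact h2
  unfold St
  rw [hP]
  by_cases hT : OddV C x w
  · by_cases hR : Mn C x a w
    · have h1 : cs C x a (j + 1) = insert w (cs C x a j) := by
        ext u
        rw [Finset.mem_insert, mem_cs, mem_cs, hlt u]
        constructor
        · rintro ⟨h | h, h2⟩
          · exact Or.inr ⟨h, h2⟩
          · exact Or.inl h
        · rintro (rfl | h)
          · exact ⟨Or.inr rfl, hT, hR⟩
          · exact ⟨Or.inl h.1, h.2⟩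
      have h2 : w ∉ cs C x a j := by
        rw [mem_cs]
        omega
      have h3 : ¬ ∃ a', a' ≠ a ∧ Mn C x a' w := by
        rintro ⟨a', h4, h5⟩
        exact h4 (mn_unique h5 hR)
      have e1 : (¬ Odd (cs C x a j).card ↔ b = true) ↔
          (Odd (cs C x a j).card ↔ (!b) = true) := by
        by_cases hO : Odd (cs C x a j).card
        · cases b <;> simp [hO]
        · cases b <;> simp [hO]
      rw [h1, Finset.card_insert_of_notMem h2, Nat.odd_add_one]
      constructor
      · rintro ⟨⟨p, -⟩, q⟩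
        exact Or.inl ⟨hT, hR, p, e1.mp q⟩
      · rintro (⟨-, -, p, q⟩ | ⟨-, hY, -⟩ | ⟨hn, -⟩)
        · exact ⟨⟨p, fun _ => ⟨a, hR⟩⟩, e1.mpr q⟩
        · exact absurd hY h3
        · exact absurd hT hn
    · have h1 : cs C x a (j + 1) = cs C x a j := by
        ext u
        rw [mem_cs, mem_cs, hlt u]
        constructor
        · rintro ⟨h | rfl, h2⟩
          · exact ⟨h, h2⟩
          · exact absurd h2.2 hR
        · rintro ⟨h, h2⟩
          exact ⟨Or.inl h, h2⟩
      have h3 : (∃ a', Mn C x a' w) ↔ ∃ a', a' ≠ a ∧ Mn C x a' w := by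
        constructor
        · rintro ⟨a', h4⟩
          exact ⟨a', fun h5 => hR (h5 ▸ h4), h4⟩
        · rintro ⟨a', -, h4⟩
          exact ⟨a', h4⟩
      rw [h1]
      constructor
      · rintro ⟨⟨p, hx⟩, q⟩
        exact Or.inr (Or.inl ⟨hT, h3.mp (hx hT), p, q⟩)
      · rintro (⟨-, h, -⟩ | ⟨-, hY, p, q⟩ | ⟨hn, -⟩)
        · exact absurd h hR
        · exact ⟨⟨p, fun _ => h3.mpr hY⟩, q⟩
        · exact absurd hT hn
  · have h1 : cs C x a (j + 1) = cs C x a j := by
      ext u
      rw [mem_cs, mem_cs, hlt u]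
      constructor
      · rintro ⟨h | rfl, h2⟩
        · exact ⟨h, h2⟩
        · exact absurd h2.1 hT
      · rintro ⟨h, h2⟩
        exact ⟨Or.inl h, h2⟩
    rw [h1]
    constructor
    · rintro ⟨⟨p, -⟩, q⟩
      exact Or.inr (Or.inr ⟨hT, p, q⟩)
    · rintro (⟨h, -⟩ | ⟨h, -⟩ | ⟨-, p, q⟩)
      · exact absurd h hT
      · exact absurd h hT
      · exact ⟨⟨p, fun h => absurd h hT⟩, q⟩

theorem st_last {C : Finset (Vx N)} (hC : C.Nonempty) {x : Inp H} :
    (∀ a ∈ C, St C a (2 * N) false x) ↔ ¬ HasOddPart H x := by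
  classical
  rw [oddPart_iff (C := C)]
  have hcs : ∀ a c, Mn C x a c → cs C x a (2 * N) = Finset.univ.filter
      (fun w => Odd (cls (off C x) w).card ∧ (gr x).Reachable w c) := by
    intro a c hac
    ext w
    rw [mem_cs, Finset.mem_filter]
    have := idx_lt w
    constructor
    · exact fun h => ⟨Finset.mem_univ w, h.2.1, h.2.2.2.2.symm.trans hac.2.2⟩
    · exact fun h => ⟨this, h.2.1, hac.1, hac.2.1, hac.2.2.trans h.2.2.symm⟩
  constructor
  · intro h
    refine ⟨fun w hw => ?_, fun c hc => ?_⟩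
    · obtain ⟨c, hc⟩ := hC
      obtain ⟨a, ha⟩ := (h c hc).1 w (idx_lt w) hw
      exact ⟨a, ha.1, ha.2.2.symm⟩
    · obtain ⟨a, ha⟩ := mn_exists (x := x) hc (SimpleGraph.Reachable.refl c)
      have h1 := (h a ha.1).2
      rw [hcs a c ha] at h1
      rw [← Nat.not_odd_iff_even]
      intro h2
      have h3 := h1.mp (by convert h2)
      simp at h3
  · rintro ⟨h1, h2⟩ a ha
    refine ⟨fun w _ hw => ?_, ?_⟩
    · obtain ⟨c, hc, hwc⟩ := h1 w hw
      exact mn_exists hc hwc
    · by_cases hp : a ∈ pot C x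
      · have h3 : cs C x a (2 * N) = ∅ := by
          rw [Finset.eq_empty_iff_forall_notMem]
          intro w hw
          exact (mem_cs.mp hw).2.2.2.1 hp
        rw [h3]
        simp
      · have h3 := h2 a ha
        rw [← Nat.not_odd_iff_even] at h3
        rw [hcs a a ⟨ha, hp, SimpleGraph.Reachable.refl a⟩]
        constructor
        · intro h4
          exact absurd (by convert h4) h3
        · intro h4
          simp at h4

end Pool.Agent.Lib_MP_22d2c8_pm
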