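import Pool.Agent.Lib_MP_22d2c8_pm.UpA

/-!
# UP F: negations of many functions with few NOT gates

The method of Markov and Fischer: if at most `2 ^ W - 1` of the functions `p 0, ..., p (n - 1)` are
true on each input then their negations can be computed with `W` NOT gates.
-/

namespace Pool.Agent.Lib_MP_22d2c8_pm

variable {V : Type}

theorem bool_aux1 (a y b t : Bool) (h5 : t = true ↔ (a = true ∧ (!y) = true) ∨ b = true)
    (h6 : y = true → a = true) (h7 : b = true → y = true) :
    (!a) = true ↔ (!y) = true ∧ (!t) = true := by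
  revert h5 h6 h7
  cases a <;> cases y <;> cases b <;> cases t <;> decide

theorem bool_aux2 (a y b t : Bool) (h5 : t = true ↔ (a = true ∧ (!y) = true) ∨ b = true)
    (h6 : y = true → a = true) (h7 : b = true → y = true) :
    (!b) = true ↔ (!y) = true ∨ (!t) = true := by
  revert h5 h6 h7
  cases a <;> cases y <;> cases b <;> cases t <;> decide

/-- The negations of a sorted vector. -/
theorem Comp.sorted {F : Set V} (W : ℕ) : ∀ {s w : ℕ} {A : Set (BF V)} (θ : ℕ → BF V),
    Comp F s w A → (∀ j x, θ (j + 1) x = true → θ j x = true) →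
    (∀ j < 2 ^ W - 1, θ j ∈ A) →
    Comp F (s + 5 * 2 ^ W) (w + W) (A ∪ {g | ∃ j < 2 ^ W - 1, g = fun x => !θ j x}) := by
  induction W with
  | zero =>
    intro s w A θ h _ _
    refine h.mono (by omega) (by omega) ?_
    rintro g (hg | ⟨j, hj, -⟩)
    · exact hg
    · simp at hj
  | succ W ih =>
    intro s w A θ h hs hA
    obtain ⟨n, hn⟩ : ∃ n, n = 2 ^ W - 1 := ⟨_, rfl⟩
    have hpow : 1 ≤ 2 ^ W := Nat.one_le_two_pow
    have hn1 : 2 ^ (W + 1) - 1 = 2 * n + 1 := by
      rw [pow_succ]
      omega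
    rw [hn1] at hA ⊢
    have hle : ∀ (i k : ℕ) x, θ (i + k) x = true → θ i x = true := by
      intro i k x
      induction k with
      | zero => exact id
      | succ k ih2 => exact fun h2 => ih2 (hs _ _ h2)
    have h1 := h.not (g := θ n) (f := fun x => !θ n x) (hA n (by omega)) (fun x => rfl)
    have h2 := h1.ext (fun j : Fin n => bf fun x => θ j x = true ∧ (!θ n x) = true) (fun j =>
      Gate1.and2 (g := θ j) (h := fun x => !θ n x) (Or.inl (hA j (by omega)))
        (Or.inr rfl) (fun x => bf_eq))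
    obtain ⟨θ', hθ'⟩ : ∃ θ' : ℕ → BF V, ∀ j, θ' j = bf fun x =>
      (θ j x = true ∧ (!θ n x) = true) ∨ θ (n + 1 + j) x = true := ⟨_, fun _ => rfl⟩
    have hθ'x : ∀ j x, θ' j x = true ↔
        (θ j x = true ∧ (!θ n x) = true) ∨ θ (n + 1 + j) x = true := by
      intro j x
      rw [hθ' j]
      exact bf_eq
    have h3 := h2.ext (fun j : Fin n => θ' j) (fun j =>
      Gate1.or2 (g := bf fun x => θ j x = true ∧ (!θ n x) = true) (h := θ (n + 1 + j))
        (Or.inr ⟨j, rfl⟩) (Or.inl (Or.inl (hA _ (by omega)))) (fun x => by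
          rw [hθ'x, bf_eq]))
    have h4 := ih θ' h3 (by
      intro j x
      rw [hθ'x, hθ'x]
      rintro (⟨h5, h6⟩ | h5)
      · exact Or.inl ⟨hs _ _ h5, h6⟩
      · exact Or.inr (hs _ _ h5)) (by
      intro j hj
      exact Or.inr ⟨⟨j, by omega⟩, rfl⟩)
    rw [← hn] at h4
    have hj1 : ∀ (j : ℕ) x, j < n → θ n x = true → θ j x = true := by
      intro j x hj h7
      apply hle j (n - j) x
      rwa [show j + (n - j) = n by omega]
    have hj2 : ∀ (j : ℕ) x, θ (n + 1 + j) x = true → θ n x = true := by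
      intro j x h8
      apply hle n (1 + j) x
      rwa [← add_assoc]
    have key1 : ∀ (j : ℕ) x, j < n → ((!θ j x) = true ↔ (!θ n x) = true ∧ (!θ' j x) = true) :=
      fun j x hj => bool_aux1 _ _ _ _ (hθ'x j x) (hj1 j x hj) (hj2 j x)
    have key2 : ∀ (j : ℕ) x, j < n →
        ((!θ (n + 1 + j) x) = true ↔ (!θ n x) = true ∨ (!θ' j x) = true) :=
      fun j x hj => bool_aux2 _ _ _ _ (hθ'x j x) (hj1 j x hj) (hj2 j x)
    have h5 := h4.ext (fun j : Fin n => fun x => !θ j x) (fun j =>
      Gate1.and2 (g := fun x => !θ n x) (h := fun x => !θ' j x)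
        (Or.inl (Or.inl (Or.inl (Or.inr rfl)))) (Or.inr ⟨j, j.2, rfl⟩)
        (fun x => key1 j x j.2))
    have h6 := h5.ext (fun j : Fin n => fun x => !θ (n + 1 + j) x) (fun j =>
      Gate1.or2 (g := fun x => !θ n x) (h := fun x => !θ' j x)
        (Or.inl (Or.inl (Or.inl (Or.inl (Or.inr rfl))))) (Or.inl (Or.inr ⟨j, j.2, rfl⟩))
        (fun x => key2 j x j.2))
    refine h6.mono ?_ (by omega) ?_
    · rw [Fintype.card_fin, pow_succ]
      omega
    · rintro g (hg | ⟨j, hj, rfl⟩)
      · exact Or.inl (Or.inl (Or.inl (Or.inl (Or.inl (Or.inl hg)))))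
      · rcases Nat.lt_trichotomy j n with h7 | h7 | h7
        · exact Or.inl (Or.inr ⟨⟨j, h7⟩, rfl⟩)
        · rw [h7]
          exact Or.inl (Or.inl (Or.inl (Or.inl (Or.inl (Or.inr rfl)))))
        · refine Or.inr ⟨⟨j - (n + 1), by omega⟩, ?_⟩
          show (fun x => !θ (n + 1 + (j - (n + 1))) x) = _
          rw [show n + 1 + (j - (n + 1)) = j by omega]

open Classical in
/-- The number of the indices `i' < i` different from `q` with `p i' x = true`. -/
noncomputable def cntp (p : ℕ → BF V) (q : Option ℕ) (i : ℕ) (x : V → Bool) : ℕ :=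
  ((Finset.range i).filter (fun i' => p i' x = true ∧ q ≠ some i')).card

theorem cntp_succ (p : ℕ → BF V) (q : Option ℕ) (i : ℕ) (x : V → Bool) :
    cntp p q (i + 1) x = cntp p q i x + if p i x = true ∧ q ≠ some i then 1 else 0 := by
  classical
  unfold cntp
  rw [Finset.range_add_one, Finset.filter_insert]
  by_cases h : p i x = true ∧ q ≠ some i
  · rw [if_pos h, if_pos h, Finset.card_insert_of_notMem (by simp)]
  · rw [if_neg h, if_neg h, add_zero]

theorem cntp_le (p : ℕ → BF V) (a i : ℕ) (x : V → Bool) :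
    cntp p (some a) i x ≤ cntp p none i x := by
  classical
  unfold cntp
  apply Finset.card_le_card
  intro b
  simp only [Finset.mem_filter]
  rintro ⟨h1, h2, -⟩
  exact ⟨h1, h2, by simp⟩

theorem cntp_eq (p : ℕ → BF V) {a n : ℕ} (ha : a < n) (x : V → Bool) :
    cntp p none n x = cntp p (some a) n x + if p a x = true then 1 else 0 := by
  classical
  unfold cntp
  by_cases h : p a x = true
  · rw [if_pos h, ← Finset.card_insert_of_notMem (a := a) (by simp)]
    congr 1
    ext b
    simp only [Finset.mem_insert, Finset.mem_filter, Finset.mem_range]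
    constructor
    · rintro ⟨h1, h2, -⟩
      by_cases hb : b = a
      · exact Or.inl hb
      · exact Or.inr ⟨h1, h2, fun h3 => hb (Option.some.inj h3).symm⟩
    · rintro (rfl | ⟨h1, h2, -⟩)
      · exact ⟨ha, h, by simp⟩
      · exact ⟨h1, h2, by simp⟩
  · rw [if_neg h, add_zero]
    congr 1
    ext b
    simp only [Finset.mem_filter, Finset.mem_range]
    constructor
    · rintro ⟨h1, h2, -⟩
      refine ⟨h1, h2, fun h3 => ?_⟩
      rw [Option.some.inj h3] at h
      exact h h2
    · rintro ⟨h1, h2, -⟩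
      exact ⟨h1, h2, by simp⟩

/-- The threshold functions. -/
noncomputable def th (p : ℕ → BF V) (q : Option ℕ) (i j : ℕ) : BF V := bf fun x => j ≤ cntp p q i x

theorem Comp.thr {F : Set V} {s w n : ℕ} {A : Set (BF V)} (h : Comp F s w A) (p : ℕ → BF V)
    (hp : ∀ i < n, p i ∈ A) (J i : ℕ) (hi : i ≤ n) :
    Comp F (s + (2 * i + 1) * ((n + 1) * J)) w (A ∪ Set.range
      (fun r : Option (Fin n) × Fin J => th p (r.1.map Fin.val) i r.2)) := by
  have hcard : Fintype.card (Option (Fin n) × Fin J) = (n + 1) * J := by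
    rw [Fintype.card_prod, Fintype.card_option, Fintype.card_fin, Fintype.card_fin]
  induction i with
  | zero =>
    have h1 := h.ext (fun r : Option (Fin n) × Fin J => th p (r.1.map Fin.val) 0 r.2) (by
      rintro ⟨q, j⟩
      by_cases hj : (j : ℕ) = 0
      · refine Gate1.tt fun x => bf_eq.mpr ?_
        show (j : ℕ) ≤ _
        omega
      · refine Gate1.ff fun x h2 => ?_
        have h3 : (j : ℕ) ≤ cntp p (q.map Fin.val) 0 x := bf_eq.mp h2
        simp [cntp] at h3
        omega)
    refine h1.mono ?_ le_rfl subset_rfl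
    rw [hcard]
    omega
  | succ i ih =>
    have h0 := ih (by omega)
    have h1 := h0.ext (fun r : Option (Fin n) × Fin J => bf fun x =>
        (r.2 : ℕ) - 1 ≤ cntp p (r.1.map Fin.val) i x ∧ p i x = true) (by
      rintro ⟨q, j⟩
      refine Gate1.and2 (g := th p (q.map Fin.val) i ((j : ℕ) - 1)) (h := p i)
        (Or.inr ⟨(q, ⟨(j : ℕ) - 1, by omega⟩), rfl⟩) (Or.inl (hp i (by omega))) (fun x => ?_)
      rw [bf_eq]
      unfold th
      rw [bf_eq])
    have h2 := h1.ext (fun r : Option (Fin n) × Fin J => th p (r.1.map Fin.val) (i + 1) r.2) (by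
      rintro ⟨q, j⟩
      by_cases hq : q.map Fin.val = some i
      · refine Gate1.or2 (g := th p (q.map Fin.val) i j) (h := th p (q.map Fin.val) i j)
          (Or.inl (Or.inr ⟨(q, j), rfl⟩)) (Or.inl (Or.inr ⟨(q, j), rfl⟩)) (fun x => ?_)
        show th p (q.map Fin.val) (i + 1) j x = true ↔ _
        unfold th
        rw [bf_eq, bf_eq, cntp_succ, if_neg (fun h3 => h3.2 hq), add_zero, or_self]
      · refine Gate1.or2 (g := th p (q.map Fin.val) i j) (h := bf fun x =>
          (j : ℕ) - 1 ≤ cntp p (q.map Fin.val) i x ∧ p i x = true)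
          (Or.inl (Or.inr ⟨(q, j), rfl⟩)) (Or.inr ⟨(q, j), rfl⟩) (fun x => ?_)
        show th p (q.map Fin.val) (i + 1) j x = true ↔ _
        unfold th
        rw [bf_eq, bf_eq, bf_eq, cntp_succ]
        by_cases hpx : p i x = true
        · rw [if_pos ⟨hpx, hq⟩]
          constructor
          · intro h3
            by_cases h4 : (j : ℕ) ≤ cntp p (q.map Fin.val) i x
            · exact Or.inl h4
            · exact Or.inr ⟨by omega, hpx⟩
          · rintro (h3 | ⟨h3, -⟩)
            · omega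
            · omega
        · rw [if_neg (fun h3 => hpx h3.1), add_zero]
          exact ⟨fun h3 => Or.inl h3, fun h3 => h3.elim id fun h4 => absurd h4.2 hpx⟩)
    refine h2.mono ?_ le_rfl ?_
    · rw [hcard]
      have : (2 * (i + 1) + 1) * ((n + 1) * J) = (2 * i + 1) * ((n + 1) * J) + (n + 1) * J +
        (n + 1) * J := by ring
      omega
    · rintro g (hg | hg)
      · exact Or.inl (Or.inl (Or.inl hg))
      · exact Or.inr hg

/-- The negations of functions of which at most `2 ^ W - 1` are true on each input. -/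
theorem Comp.negs {F : Set V} {s w n W : ℕ} {A : Set (BF V)} (h : Comp F s w A) (p : ℕ → BF V)
    (hp : ∀ i < n, p i ∈ A) (hW : ∀ x, cntp p none n x < 2 ^ W) :
    Comp F (s + (2 * n + 1) * ((n + 1) * (n + 2 ^ W + 1)) + 5 * 2 ^ W + n * (2 ^ W - 1) + n)
      (w + W) (A ∪ {g | ∃ i < n, g = fun x => !p i x}) := by
  have hpow : 1 ≤ 2 ^ W := Nat.one_le_two_pow
  have h1 := h.thr p hp (n + 2 ^ W + 1) n le_rfl
  have h2 := Comp.sorted W (fun j => th p none n (j + 1)) h1 (by
    intro j x h3
    have h4 : j + 1 + 1 ≤ cntp p none n x := bf_eq.mp h3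
    exact bf_eq.mpr (by omega)) (by
    intro j hj
    exact Or.inr ⟨(none, ⟨j + 1, by omega⟩), rfl⟩)
  obtain ⟨G, hG⟩ : ∃ G : ℕ → ℕ → BF V, ∀ a j x, G a j x = true ↔
      cntp p none n x ≤ j ∧ j ≤ cntp p (some a) n x :=
    ⟨fun a j => bf fun x => cntp p none n x ≤ j ∧ j ≤ cntp p (some a) n x, fun _ _ _ => bf_eq⟩
  have hth : ∀ (q : Option ℕ) (j : ℕ) x, th p q n j x = true ↔ j ≤ cntp p q n x :=
    fun _ _ _ => bf_eq
  have h3 := h2.ext (fun r : Fin n × Fin (2 ^ W - 1) => G r.1 r.2) (by
    rintro ⟨a, j⟩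
    refine Gate1.and2 (g := fun x => !th p none n (j + 1) x) (h := th p (some a) n j)
      (Or.inr ⟨j, j.2, rfl⟩) (Or.inl (Or.inr ⟨(some a, ⟨j, by omega⟩), rfl⟩)) (fun x => ?_)
    show G a j x = true ↔ _
    rw [Bool.not_eq_true', Bool.eq_false_iff, Ne, hth, hth, hG]
    constructor
    · rintro ⟨h3, h4⟩
      exact ⟨by omega, h4⟩
    · rintro ⟨h3, h4⟩
      exact ⟨by omega, h4⟩)
  have h4 := h3.ext (fun a : Fin n => fun x => !p a x) (by
    intro a
    refine Gate1.orI (ι := Option (Fin (2 ^ W - 1))) (fun o => o.elim (th p (some a) n (2 ^ W - 1))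
      (fun j => G a j)) (fun _ => True) ?_ ?_
    · rintro (_ | j) -
      · exact Or.inl (Or.inl (Or.inr ⟨(some a, ⟨2 ^ W - 1, by omega⟩), rfl⟩))
      · exact Or.inr ⟨(a, j), rfl⟩
    · intro x
      have h5 := cntp_eq p a.2 x
      have h6 := hW x
      constructor
      · intro h7
        have h8 : ¬ p a x = true := by simpa using h7
        rw [if_neg h8, add_zero] at h5
        by_cases h9 : cntp p none n x < 2 ^ W - 1
        · exact ⟨some ⟨_, h9⟩, trivial, (hG _ _ _).mpr ⟨le_rfl, h5.le⟩⟩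
        · exact ⟨none, trivial, (hth _ _ _).mpr (by omega)⟩
      · rintro ⟨_ | j, -, h7⟩
        · have h8 : 2 ^ W - 1 ≤ cntp p (some a) n x := (hth _ _ _).mp h7
          by_contra h9
          have h10 : p a x = true := by simpa using h9
          rw [if_pos h10] at h5
          omega
        · have h8 : cntp p none n x ≤ j ∧ (j : ℕ) ≤ cntp p (some a) n x := (hG _ _ _).mp h7
          by_contra h9
          have h10 : p a x = true := by simpa using h9
          rw [if_pos h10] at h5
          omega)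
  refine h4.mono (le_of_eq ?_) le_rfl ?_
  · rw [Fintype.card_prod, Fintype.card_fin, Fintype.card_fin]
  · rintro g (hg | ⟨i, hi, rfl⟩)
    · exact Or.inl (Or.inl (Or.inl (Or.inl hg)))
    · exact Or.inr ⟨⟨i, hi⟩, rfl⟩

end Pool.Agent.Lib_MP_22d2c8_pm
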