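import Pool.Agent.Lib_MP_22d2c8_pm.UpD
import Pool.Agent.Lib_MP_22d2c8_pm.UpF

/-!
# UP E: the circuit for odd components with few NOT gates

A circuit with at most `16 (N + 1) ^ 4` gates which decides whether a subgraph of the bipartite
host graph has no odd component; at most `⌈log₂ |C|⌉` wires into arbitrary gates come from
vertices which depend on edges which touch the set `C` of vertices.
-/

namespace Pool.Agent.Lib_MP_22d2c8_pm

open Pool.Agent.Lib_MP_22d2c8_clq (Net)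
open Pool.Agent.Lib_MP_22d2c8_ln (wiresOn)

variable {N : ℕ} {H : Fin N → Fin N → Prop}

/-- The variables and the reachability functions. -/
def RA (H : Fin N → Fin N → Prop) (t : ℕ) : Set (BF (HostEdge H)) :=
  {g | ∃ j, g = fun x => x j} ∪ Set.range (fun p : Vx N × Vx N => rf t p.1 p.2)

theorem comp_rch (F : Set (HostEdge H)) (t : ℕ) :
    Comp F (t * ((2 * N) ^ 3 + (2 * N) ^ 2) + (2 * N) ^ 2) 0 (RA H t) := by
  induction t with
  | zero =>
    have h := (Comp.zero (V := HostEdge H) F).ext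
      (fun p : Vx N × Vx N => rf 0 p.1 p.2) (by
        rintro ⟨u, v⟩
        by_cases huv : u = v
        · exact Gate1.tt fun x => rf_eq.mpr huv
        · exact Gate1.ff fun x h => huv (rf_eq.mp h))
    refine h.mono (le_of_eq ?_) le_rfl subset_rfl
    rw [Fintype.card_prod, card_vx]
    ring
  | succ t ih =>
    let f1 : Vx N × Vx N × Vx N → BF (HostEdge H) := fun q =>
      bf fun x => adj x q.1 q.2.1 ∧ rch x t q.2.1 q.2.2
    have hf1 : ∀ u w v x, f1 (u, w, v) x = true ↔ adj x u w ∧ rch x t w v :=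
      fun u w v x => bf_eq
    have h1 := ih.ext f1 (by
      rintro ⟨u, w, v⟩
      rcases u with i | i <;> rcases w with j | j
      · exact Gate1.ff fun x h => absurd ((hf1 _ _ _ _).mp h).1 id
      · by_cases hH : H i j
        · exact Gate1.and2 (g := fun x => x ⟨(i, j), hH⟩) (h := rf t (.inr j) v)
            (Or.inl ⟨_, rfl⟩) (Or.inr ⟨(.inr j, v), rfl⟩) (fun x => by
              rw [hf1, rf_eq]
              exact ⟨fun h => ⟨h.1.2, h.2⟩, fun h => ⟨⟨hH, h.1⟩, h.2⟩⟩)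
        · exact Gate1.ff fun x h => hH ((hf1 _ _ _ _).mp h).1.1
      · by_cases hH : H j i
        · exact Gate1.and2 (g := fun x => x ⟨(j, i), hH⟩) (h := rf t (.inl j) v)
            (Or.inl ⟨_, rfl⟩) (Or.inr ⟨(.inl j, v), rfl⟩) (fun x => by
              rw [hf1, rf_eq]
              exact ⟨fun h => ⟨h.1.2, h.2⟩, fun h => ⟨⟨hH, h.1⟩, h.2⟩⟩)
        · exact Gate1.ff fun x h => hH ((hf1 _ _ _ _).mp h).1.1
      · exact Gate1.ff fun x h => absurd ((hf1 _ _ _ _).mp h).1 id)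
    have h2 := h1.ext (fun p : Vx N × Vx N => rf (t + 1) p.1 p.2) (by
      rintro ⟨u, v⟩
      refine Gate1.orI (ι := Option (Vx N)) (fun o => o.elim (rf t u v) (fun w => f1 (u, w, v)))
        (fun _ => True) ?_ ?_
      · rintro (_ | w) -
        · exact Or.inl (Or.inr ⟨(u, v), rfl⟩)
        · exact Or.inr ⟨(u, w, v), rfl⟩
      · intro x
        rw [rf_eq]
        constructor
        · rintro (h | ⟨w, h⟩)
          · exact ⟨none, trivial, rf_eq.mpr h⟩
          · exact ⟨some w, trivial, (hf1 u w v x).mpr h⟩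
        · rintro ⟨_ | w, -, h⟩
          · exact Or.inl (rf_eq.mp h)
          · exact Or.inr ⟨w, (hf1 u w v x).mp h⟩)
    refine h2.mono (le_of_eq ?_) le_rfl ?_
    · rw [Fintype.card_prod, Fintype.card_prod, card_vx]
      ring
    · rintro g (hg | hg)
      · exact Or.inl (Or.inl (Or.inl hg))
      · exact Or.inr hg

/-- The `i`-th vertex lies in `C` and is joined to a smaller vertex in `C`. -/
noncomputable def pt (C : Finset (Vx N)) (i : ℕ) : BF (HostEdge H) :=
  bf fun x => ∃ w ∈ pot C x, idx w = i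

theorem pt_idx {C : Finset (Vx N)} {a : Vx N} {x : Inp H} :
    pt C (idx a) x = true ↔ a ∈ pot C x := by
  unfold pt
  rw [bf_eq]
  constructor
  · rintro ⟨w, hw, h⟩
    rw [← idx_inj h]
    exact hw
  · exact fun h => ⟨a, h, rfl⟩

theorem cnt_pt {C : Finset (Vx N)} (hC : C.Nonempty) (x : Inp H) :
    cntp (pt C) none (2 * N) x < 2 ^ Nat.clog 2 C.card := by
  classical
  have h1 : cntp (pt C) none (2 * N) x ≤ (pot C x).card := by
    unfold cntp
    refine (Finset.card_le_card ?_).trans (Finset.card_image_le (s := pot C x) (f := idx))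
    intro i hi
    obtain ⟨w, hw, hwi⟩ := bf_eq.mp (Finset.mem_filter.mp hi).2.1
    exact Finset.mem_image.mpr ⟨w, hw, hwi⟩
  have h2 := pot_card hC x
  have h3 := Nat.le_pow_clog (b := 2) (by norm_num) C.card
  omega

theorem pow_clog_le {C : Finset (Vx N)} (hC : C.Nonempty) :
    2 ^ Nat.clog 2 C.card ≤ 2 * (2 * N) := by
  have h1 : C.card ≤ 2 * N := by
    rw [← card_vx]
    exact Finset.card_le_univ C
  have h2 : 1 ≤ C.card := Finset.card_pos.mpr hC
  rcases Nat.lt_or_ge 1 C.card with h3 | h3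
  · have h4 := Nat.pow_pred_clog_lt_self (b := 2) (by norm_num) h3
    have h5 : 1 ≤ Nat.clog 2 C.card := Nat.clog_pos (by norm_num) h3
    have h6 : 2 ^ Nat.clog 2 C.card = 2 * 2 ^ (Nat.clog 2 C.card).pred := by
      rw [← pow_succ']
      congr 1
      rw [Nat.pred_eq_sub_one]
      omega
    omega
  · have h4 : C.card = 1 := by omega
    rw [h4, Nat.clog_one_right]
    omega

/-- The functions for the steps of the dynamic program. -/
theorem comp_base {C : Finset (Vx N)} (hC : C.Nonempty) :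
    ∃ A : Set (BF (HostEdge H)),
    Comp {e | Off C e} (16 * N ^ 4 + 56 * N ^ 3 + 64 * N ^ 2 + 40 * N + 1)
      (Nat.clog 2 C.card) A ∧
      (∀ w b, (bf fun x => (OddV C x w ↔ b = true)) ∈ A) ∧
      (∀ a w, (bf fun x => Mn C x a w) ∈ A) ∧
      ∀ a w, (bf fun x => ∃ a', a' ≠ a ∧ Mn C x a' w) ∈ A := by
  classical
  have _ : Fintype (HostEdge H) := Fintype.ofFinite _
  have h0 := comp_rch {e : HostEdge H | Off C e} (2 * N)
  have h1 := h0.ext (fun p : Vx N × Bool => bf fun x => (OddV C x p.1 ↔ p.2 = true)) (by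
    rintro ⟨w, b⟩
    refine Or.inr ⟨Finset.univ.filter (Off C), fun e he => (Finset.mem_filter.mp he).2, ?_⟩
    intro x y hxy
    rw [Bool.eq_iff_iff, bf_eq, bf_eq]
    have h1 : off C x = off C y := off_congr fun e he =>
      hxy e (Finset.mem_filter.mpr ⟨Finset.mem_univ e, he⟩)
    unfold OddV
    rw [h1])
  have h2 := h1.ext (fun i : Fin (2 * N) => pt C i) (by
    intro i
    obtain ⟨a, ha⟩ := exists_idx i.2
    rw [← ha]
    by_cases hc : a ∈ C
    · refine Gate1.orI (ι := Vx N) (fun c => rf (2 * N) c a)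
        (fun c => c ∈ C ∧ idx c < idx a) ?_ ?_
      · exact fun c _ => Or.inl (Or.inr ⟨(c, a), rfl⟩)
      · intro x
        rw [pt_idx, mem_pot]
        constructor
        · rintro ⟨-, c, h2, h3, h4⟩
          exact ⟨c, ⟨h2, h3⟩, rf_eq.mpr (rch_iff.mpr h4)⟩
        · rintro ⟨c, ⟨h2, h3⟩, h4⟩
          exact ⟨hc, c, h2, h3, rch_iff.mp (rf_eq.mp h4)⟩
    · exact Gate1.ff fun x h => hc (mem_pot.mp (pt_idx.mp h)).1)
  have h3 := h2.negs (pt C) (fun i hi => Or.inr ⟨⟨i, hi⟩, rfl⟩) (cnt_pt hC)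
  have h4 := h3.ext (fun p : Vx N × Vx N => bf fun x => Mn C x p.1 p.2) (by
    rintro ⟨a, w⟩
    by_cases hc : a ∈ C
    · refine Gate1.and2 (g := fun x => !pt C (idx a) x) (h := rf (2 * N) a w)
        (Or.inr ⟨idx a, idx_lt a, rfl⟩) (Or.inl (Or.inl (Or.inl (Or.inr ⟨(a, w), rfl⟩))))
        (fun x => ?_)
      rw [bf_eq, Bool.not_eq_true', Bool.eq_false_iff, Ne, pt_idx, rf_eq, rch_iff]
      exact ⟨fun h => h.2, fun h => ⟨hc, h⟩⟩
    · exact Gate1.ff fun x h => hc (bf_eq.mp h).1)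
  have h5 := h4.ext (fun p : Vx N × Vx N => bf fun x => ∃ a', a' ≠ p.1 ∧ Mn C x a' p.2) (by
    rintro ⟨a, w⟩
    refine Gate1.orI (ι := Vx N) (fun a' => bf fun x => Mn C x a' w) (fun a' => a' ≠ a) ?_ ?_
    · exact fun a' _ => Or.inr ⟨(a', w), rfl⟩
    · intro x
      rw [bf_eq]
      constructor
      · rintro ⟨a', h6, h7⟩
        exact ⟨a', h6, bf_eq.mpr h7⟩
      · rintro ⟨a', h6, h7⟩
        exact ⟨a', h6, bf_eq.mp h7⟩)
  refine ⟨_, h5.mono ?_ (by omega) subset_rfl, ?_, ?_, ?_⟩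
  · simp only [Fintype.card_prod, card_vx, Fintype.card_bool, Fintype.card_fin]
    have h6 := pow_clog_le hC
    obtain ⟨P, hP⟩ : ∃ P, P = 2 ^ Nat.clog 2 C.card := ⟨_, rfl⟩
    rw [← hP] at h6 ⊢
    have h7 : (2 * (2 * N) + 1) * ((2 * N + 1) * (2 * N + P + 1)) ≤
        (2 * (2 * N) + 1) * ((2 * N + 1) * (2 * N + 2 * (2 * N) + 1)) := by
      apply Nat.mul_le_mul_left
      apply Nat.mul_le_mul_left
      omega
    have h8 : 2 * N * (P - 1) ≤ 2 * N * (2 * (2 * N)) := Nat.mul_le_mul_left _ (by omega)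
    have h9 : 16 * N ^ 4 + 56 * N ^ 3 + 64 * N ^ 2 + 40 * N + 1 =
        2 * N * ((2 * N) ^ 3 + (2 * N) ^ 2) + (2 * N) ^ 2 + 2 * N * 2 + 2 * N +
        (2 * (2 * N) + 1) * ((2 * N + 1) * (2 * N + 2 * (2 * N) + 1)) + 5 * (2 * (2 * N)) +
        2 * N * (2 * (2 * N)) + 2 * N + 2 * N * (2 * N) + 2 * N * (2 * N) := by ring
    omega
  · exact fun w b => Or.inl (Or.inl (Or.inl (Or.inl (Or.inr ⟨(w, b), rfl⟩))))
  · exact fun a w => Or.inl (Or.inr ⟨(a, w), rfl⟩)
  · exact fun a w => Or.inr ⟨(a, w), rfl⟩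

/-- The dynamic program. -/
theorem comp_dp {C : Finset (Vx N)} {F : Set (HostEdge H)}
    {A : Set (BF (HostEdge H))} {s W : ℕ}
    (hA : Comp F s W A) (hT : ∀ w b, (bf fun x => (OddV C x w ↔ b = true)) ∈ A)
    (hM : ∀ a w, (bf fun x => Mn C x a w) ∈ A)
    (hq : ∀ a w, (bf fun x => ∃ a', a' ≠ a ∧ Mn C x a' w) ∈ A) (j : ℕ) (hj : j ≤ 2 * N) :
    Comp F (s + (4 * j + 1) * (4 * N)) W
      (A ∪ Set.range (fun p : Vx N × Bool => bf (St C p.1 j p.2))) := by
  classical
  have hcard : Fintype.card (Vx N × Bool) = 4 * N := by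
    rw [Fintype.card_prod, Fintype.card_bool, card_vx]
    ring
  induction j with
  | zero =>
    have h := hA.ext (fun p : Vx N × Bool => bf (St C p.1 0 p.2)) (by
      rintro ⟨a, b⟩
      cases b
      · exact Gate1.tt fun x => bf_eq.mpr (st_zero.mpr rfl)
      · exact Gate1.ff fun x h => absurd (st_zero.mp (bf_eq.mp h)) (by simp))
    exact h.mono (by omega) le_rfl subset_rfl
  | succ j ih =>
    have h0 := ih (by omega)
    obtain ⟨w, hw⟩ := exists_idx (N := N) (j := j) (by omega)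
    have h1 := h0.ext (fun p : Vx N × Bool => bf fun x =>
        OddV C x w ∧ Mn C x p.1 w ∧ St C p.1 j (!p.2) x) (by
      rintro ⟨a, b⟩
      refine Gate1.and3 (g := bf fun x => (OddV C x w ↔ true = true))
        (h := bf fun x => Mn C x a w) (k := bf (St C a j (!b))) (Or.inl (hT w true))
        (Or.inl (hM a w)) (Or.inr ⟨(a, !b), rfl⟩) (fun x => ?_)
      rw [bf_eq, bf_eq, bf_eq, bf_eq]
      simp)
    have h2 := h1.ext (fun p : Vx N × Bool => bf fun x =>
        OddV C x w ∧ (∃ a', a' ≠ p.1 ∧ Mn C x a' w) ∧ St C p.1 j p.2 x) (by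
      rintro ⟨a, b⟩
      refine Gate1.and3 (g := bf fun x => (OddV C x w ↔ true = true))
        (h := bf fun x => ∃ a', a' ≠ a ∧ Mn C x a' w)
        (k := bf (St C a j b)) (Or.inl (Or.inl (hT w true))) (Or.inl (Or.inl (hq a w)))
        (Or.inl (Or.inr ⟨(a, b), rfl⟩)) (fun x => ?_)
      rw [bf_eq, bf_eq, bf_eq, bf_eq]
      simp)
    have h3 := h2.ext (fun p : Vx N × Bool => bf fun x =>
        ¬ OddV C x w ∧ St C p.1 j p.2 x) (by
      rintro ⟨a, b⟩
      refine Gate1.and2 (g := bf fun x => (OddV C x w ↔ false = true))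
        (h := bf (St C a j b)) (Or.inl (Or.inl (Or.inl (hT w false))))
        (Or.inl (Or.inl (Or.inr ⟨(a, b), rfl⟩))) (fun x => ?_)
      rw [bf_eq, bf_eq, bf_eq]
      simp)
    have h4 := h3.ext (fun p : Vx N × Bool => bf (St C p.1 (j + 1) p.2)) (by
      rintro ⟨a, b⟩
      refine Gate1.orI (ι := Fin 3) ![bf fun x =>
          OddV C x w ∧ Mn C x a w ∧ St C a j (!b) x, bf fun x =>
          OddV C x w ∧ (∃ a', a' ≠ a ∧ Mn C x a' w) ∧
          St C a j b x, bf fun x => ¬ OddV C x w ∧ St C a j b x] (fun _ => True) ?_ ?_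
      · intro i _
        fin_cases i
        · exact Or.inl (Or.inl (Or.inr ⟨(a, b), rfl⟩))
        · exact Or.inl (Or.inr ⟨(a, b), rfl⟩)
        · exact Or.inr ⟨(a, b), rfl⟩
      · intro x
        rw [bf_eq, st_succ hw, Fin.exists_fin_succ]
        simp [Fin.exists_fin_succ, bf_eq])
    refine h4.mono ?_ le_rfl ?_
    · have : (4 * (j + 1) + 1) * (4 * N) = (4 * j + 1) * (4 * N) + 4 * (4 * N) := by ring
      omega
    · rintro g (hg | hg)
      · exact Or.inl (Or.inl (Or.inl (Or.inl (Or.inl hg))))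
      · exact Or.inr hg

/-- The upper bound. -/
theorem upper (H : Fin N → Fin N → Prop) (C : Finset (Vx N)) (hC : C.Nonempty) :
    ∃ (s : ℕ) (Q : Net (HostEdge H) s), s ≤ 16 * (N + 1) ^ 4 ∧
      (∀ x, Q.Accepts x ↔ ¬ HasOddPart H x) ∧
      ∀ U : Set (HostEdge H), (∀ e ∈ U, Sum.inl e.1.1 ∈ C ∨ Sum.inr e.1.2 ∈ C) →
        wiresOn Q U ≤ Nat.clog 2 C.card := by
  classical
  obtain ⟨A, h1, h2, h3, h4⟩ := comp_base (H := H) hC
  have h5 := comp_dp h1 h2 h3 h4 (2 * N) le_rfl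
  obtain ⟨s, hs, Q, hQ1, hQ2⟩ := h5.net (f := bf fun x => ∀ a ∈ C, St C a (2 * N) false x) (by
    refine Gate1.andI (ι := Vx N) (fun a => bf (St C a (2 * N) false)) (fun a => a ∈ C)
      ?_ ?_
    · exact fun a _ => Or.inr ⟨(a, false), rfl⟩
    · intro x
      rw [bf_eq]
      exact ⟨fun h a ha => bf_eq.mpr (h a ha), fun h a ha => bf_eq.mp (h a ha)⟩)
  refine ⟨s, Q, ?_, fun x => ?_, fun U hU => ?_⟩
  · have h6 : 16 * (N + 1) ^ 4 = 16 * N ^ 4 + 56 * N ^ 3 + 64 * N ^ 2 + 40 * N + 1 +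
        (4 * (2 * N) + 1) * (4 * N) + 1 + (8 * N ^ 3 + 20 * N + 14) := by ring
    omega
  · rw [hQ1, bf_eq]
    exact st_last hC
  · refine hQ2 U fun e he hoff => ?_
    rcases hU e he with h | h
    · exact hoff.1 h
    · exact hoff.2 h

end Pool.Agent.Lib_MP_22d2c8_pm
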